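import Pool.Agent.Helper20.Blk.Deg

/-!
The core inequality: a cover of the outer crossings by monotone curves has at least as many curves
as there are charged lines.
-/

namespace Pool.Agent.Blk

open Finset Classical

/-- the outer positions of a family -/
def Out (d : ℝ) (V : Fam) (v : ℝ) : Prop := v = V.m ∨ v = V.m + d ∨ v = V.M ∨ v = V.M - d

lemma es_sum {ι : Type*} [Fintype ι] (S : Finset ℝ) (t : ℝ) (w : ℝ → ℝ) (hw : ∀ s, 0 ≤ w s)
    (inc : ι → ℝ → ℝ → Prop) (v : ℝ) (c : ∀ u ∈ S, ∃ i, inc i u v) :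
    ∑ u ∈ S, w (u + t) ≤ ∑ i, es S t w (inc i) v := by
  unfold es
  rw [Finset.sum_comm]
  apply Finset.sum_le_sum
  intro u hu
  obtain ⟨i, hi⟩ := c u hu
  have h0 : ∀ j ∈ (Finset.univ : Finset ι), 0 ≤ (if inc j u v then w (u + t) else 0) := by
    intro j _
    split_ifs
    · exact hw _
    · exact le_refl _
  have := Finset.single_le_sum h0 (Finset.mem_univ i)
  rw [if_pos hi] at this
  exact this

lemma low_sum {ι : Type*} [Fintype ι] (d : ℝ) (U V W : Fam) (inc : ι → ℝ → ℝ → Prop)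
    (c : ∀ u ∈ U.S, ∀ v, Out d V v → ∃ i, inc i u v) :
    ∑ u ∈ U.S, 2 * wl (u + (V.m + W.M)) ≤ ∑ i, low d U V W (inc i) := by
  unfold low
  rw [Finset.sum_add_distrib]
  have h1 := es_sum U.S (V.m + W.M) wl wl_nonneg inc V.m (fun u hu => c u hu _ (Or.inl rfl))
  have h2 := es_sum U.S (V.m + W.M) wl wl_nonneg inc (V.m + d)
    (fun u hu => c u hu _ (Or.inr (Or.inl rfl)))
  rw [← Finset.mul_sum]
  linarith

lemma high_sum {ι : Type*} [Fintype ι] (d : ℝ) (U V W : Fam) (inc : ι → ℝ → ℝ → Prop)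
    (c : ∀ u ∈ U.S, ∀ v, Out d V v → ∃ i, inc i u v) :
    ∑ u ∈ U.S, 2 * wh (u + (V.M + W.m)) ≤ ∑ i, high d U V W (inc i) := by
  unfold high
  rw [Finset.sum_add_distrib]
  have h1 := es_sum U.S (V.M + W.m) wh wh_nonneg inc V.M
    (fun u hu => c u hu _ (Or.inr (Or.inr (Or.inl rfl))))
  have h2 := es_sum U.S (V.M + W.m) wh wh_nonneg inc (V.M - d)
    (fun u hu => c u hu _ (Or.inr (Or.inr (Or.inr rfl))))
  rw [← Finset.mul_sum]
  linarith

lemma wl_add_wh {s : ℝ} (h : s ≠ 0) : wl s + wh s = 3 := by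
  unfold wl wh
  rcases lt_or_gt_of_ne h with h | h
  · rw [if_pos h, if_neg (by linarith)]; norm_num
  · rw [if_neg (by linarith), if_pos h]; norm_num

/-- the four outer charges of a line add up to 12 units -/
lemma charge {ι : Type*} [Fintype ι] {d : ℝ} {U V W : Fam} (hd : 0 < d) (h : Ok d U V W)
    (inc inc' : ι → ℝ → ℝ → Prop)
    (c : ∀ u ∈ U.S, ∀ v, Out d V v → ∃ i, inc i u v)
    (c' : ∀ u ∈ U.S, ∀ v, Out d W v → ∃ i, inc' i u v) :
    12 * (U.S.card : ℝ) ≤ ∑ i, ((low d U V W (inc i) + high d U V W (inc i)) +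
      (low d U W V (inc' i) + high d U W V (inc' i))) := by
  have h1 := low_sum d U V W inc c
  have h2 := high_sum d U V W inc c
  have h3 := low_sum d U W V inc' c'
  have h4 := high_sum d U W V inc' c'
  have h5 : ∑ u ∈ U.S, (12 : ℝ) = ∑ u ∈ U.S, (2 * wl (u + (V.m + W.M)) +
      2 * wh (u + (V.M + W.m)) + 2 * wl (u + (W.m + V.M)) + 2 * wh (u + (W.M + V.m))) := by
    apply Finset.sum_congr rfl
    intro u hu
    have hu' := h.1 u hu
    have n1 : u + (V.m + W.M) ≠ 0 := by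
      rcases hu'.2.2.1 with h | h
      · exact ne_of_lt (by linarith)
      · exact ne_of_gt (by linarith)
    have n2 : u + (V.M + W.m) ≠ 0 := by
      rcases hu'.2.2.2 with h | h
      · exact ne_of_lt (by linarith)
      · exact ne_of_gt (by linarith)
    have e1 := wl_add_wh n1
    have e2 := wl_add_wh n2
    rw [add_comm W.M V.m, add_comm W.m V.M]
    linarith
  rw [Finset.sum_const, nsmul_eq_mul] at h5
  simp only [Finset.sum_add_distrib] at h5 ⊢
  linarith

/-- the core inequality -/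
theorem core {ι : Type*} [Fintype ι] (g : ι → ℝ → ℝ → ℝ → Prop) {d : ℝ} {A B C : Fam}
    (hd : 0 < d) (h : Adm d A B C) (hg : ∀ i, Gr d A B C (g i))
    (cAB : ∀ x ∈ A.S, ∀ y, Out d B y → ∃ i, ∃ z, g i x y z)
    (cAC : ∀ x ∈ A.S, ∀ z, Out d C z → ∃ i, ∃ y, g i x y z)
    (cBA : ∀ y ∈ B.S, ∀ x, Out d A x → ∃ i, ∃ z, g i x y z)
    (cBC : ∀ y ∈ B.S, ∀ z, Out d C z → ∃ i, ∃ x, g i x y z)
    (cCA : ∀ z ∈ C.S, ∀ x, Out d A x → ∃ i, ∃ y, g i x y z)
    (cCB : ∀ z ∈ C.S, ∀ y, Out d B y → ∃ i, ∃ x, g i x y z) :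
    A.S.card + B.S.card + C.S.card ≤ Fintype.card ι := by
  have h1 := charge hd h.hA (fun i x y => ∃ z, g i x y z) (fun i x z => ∃ y, g i x y z) cAB cAC
  have h2 := charge hd h.hB (fun i y x => ∃ z, g i x y z) (fun i y z => ∃ x, g i x y z) cBA cBC
  have h3 := charge hd h.hC (fun i z x => ∃ y, g i x y z) (fun i z y => ∃ x, g i x y z) cCA cCB
  have h4 : ∑ i, tot d A B C (g i) ≤ ∑ _i : ι, (12 : ℝ) :=
    Finset.sum_le_sum (fun i _ => tot_le hd h (hg i))
  rw [Finset.sum_const, nsmul_eq_mul, Finset.card_univ] at h4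
  have h5 : ∑ i, tot d A B C (g i) =
      ∑ i, ((low d A B C (fun x y => ∃ z, g i x y z) + high d A B C (fun x y => ∃ z, g i x y z)) +
        (low d A C B (fun x z => ∃ y, g i x y z) + high d A C B (fun x z => ∃ y, g i x y z))) +
      ∑ i, ((low d B A C (fun y x => ∃ z, g i x y z) + high d B A C (fun y x => ∃ z, g i x y z)) +
        (low d B C A (fun y z => ∃ x, g i x y z) + high d B C A (fun y z => ∃ x, g i x y z))) +
      ∑ i, ((low d C A B (fun z x => ∃ y, g i x y z) + high d C A B (fun z x => ∃ y, g i x y z)) +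
        (low d C B A (fun z y => ∃ x, g i x y z) + high d C B A (fun z y => ∃ x, g i x y z))) := by
    rw [← Finset.sum_add_distrib, ← Finset.sum_add_distrib]
    apply Finset.sum_congr rfl
    intro i _
    unfold tot
    ring
  have h6 : (12 : ℝ) * ((A.S.card + B.S.card + C.S.card : ℕ) : ℝ) ≤ 12 * (Fintype.card ι : ℝ) := by
    push_cast
    linarith
  have h7 : ((A.S.card + B.S.card + C.S.card : ℕ) : ℝ) ≤ (Fintype.card ι : ℝ) := by linarith
  exact_mod_cast h7

/-- a `d`-separated set in a half-open interval of length `k d` has at most `k` points -/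
lemma sep_card (S : Finset ℝ) {d a : ℝ} (hd : 0 < d) (k : ℕ)
    (hS : ∀ u ∈ S, ∀ v ∈ S, u ≠ v → d ≤ |u - v|) (h1 : ∀ u ∈ S, a ≤ u) (h2 : ∀ u ∈ S, u < a + k * d) :
    S.card ≤ k := by
  have : S.card ≤ (Finset.range k).card := by
    apply Finset.card_le_card_of_injOn (fun u => ⌊(u - a) / d⌋₊)
    · intro u hu
      have hu' : u ∈ S := hu
      rw [Finset.coe_range, Set.mem_Iio, Nat.floor_lt (div_nonneg (by linarith [h1 u hu']) hd.le),
        div_lt_iff₀ hd]
      linarith [h2 u hu']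
    · intro u hu v hv huv
      by_contra hne
      have hu' : u ∈ S := hu
      have hv' : v ∈ S := hv
      have hsep := hS u hu' v hv' hne
      have huv' : ⌊(u - a) / d⌋₊ = ⌊(v - a) / d⌋₊ := huv
      have a1 := Nat.floor_le (div_nonneg (sub_nonneg.mpr (h1 u hu')) hd.le)
      have a2 := Nat.lt_floor_add_one ((u - a) / d)
      have b1 := Nat.floor_le (div_nonneg (sub_nonneg.mpr (h1 v hv')) hd.le)
      have b2 := Nat.lt_floor_add_one ((v - a) / d)
      rw [huv'] at a1 a2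
      rw [le_div_iff₀ hd] at a1 b1
      rw [div_lt_iff₀ hd] at a2 b2
      rcases abs_cases (u - v) with h | h <;> nlinarith [h.1]
  rwa [Finset.card_range] at this

end Pool.Agent.Blk
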