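import Pool.Agent.Helper20.Blk.Tot

/-!
Degenerate curves (one coordinate constant) and the total weight of an arbitrary line.
-/

namespace Pool.Agent.Blk

open Finset Classical

lemma es_le_low {S : Finset ℝ} {t v : ℝ} {inc : ℝ → ℝ → Prop}
    (hu : ∀ a ∈ S, ∀ b ∈ S, inc a v → inc b v → a = b) : es S t wl inc v ≤ 2 := by
  rcases es_cases S t wl inc v hu with h | ⟨u, _, _, h⟩
  · rw [h]; norm_num
  · rw [h]; exact wl_le _

lemma es_le_high {S : Finset ℝ} {t v : ℝ} {inc : ℝ → ℝ → Prop}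
    (hu : ∀ a ∈ S, ∀ b ∈ S, inc a v → inc b v → a = b) : es S t wh inc v ≤ 2 := by
  rcases es_cases S t wh inc v hu with h | ⟨u, _, _, h⟩
  · rw [h]; norm_num
  · rw [h]; exact wh_le _

/-- the curve has constant first coordinate `c` -/
def Deg (g : ℝ → ℝ → ℝ → Prop) (c : ℝ) : Prop := ∀ x y z, g x y z → x + y + z = 0 ∧ x = c

theorem half_le_deg {g : ℝ → ℝ → ℝ → Prop} {c d : ℝ} {A B C : Fam} (hd : 0 < d) (hg : Deg g c)
    (hB : Ok d B A C) (hC : Ok d C A B) (hc : c ∉ A.S) (hcm : c ≠ A.m) (hcm' : c ≠ A.m + d) :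
    half d A B C g ≤ 6 := by
  have z1 : low d A B C (fun x y => ∃ z, g x y z) = 0 := by
    unfold low
    rw [es_zero, es_zero, add_zero]
    · rintro u hu ⟨z, hz⟩
      exact hc ((hg _ _ _ hz).2 ▸ hu)
    · rintro u hu ⟨z, hz⟩
      exact hc ((hg _ _ _ hz).2 ▸ hu)
  have z3 : high d A C B (fun x z => ∃ y, g x y z) = 0 := by
    unfold high
    rw [es_zero, es_zero, add_zero]
    · rintro u hu ⟨z, hz⟩
      exact hc ((hg _ _ _ hz).2 ▸ hu)
    · rintro u hu ⟨z, hz⟩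
      exact hc ((hg _ _ _ hz).2 ▸ hu)
  have z2 : low d B A C (fun y x => ∃ z, g x y z) = 0 := by
    unfold low
    rw [es_zero, es_zero, add_zero]
    · rintro u hu ⟨z, hz⟩
      exact hcm' (hg _ _ _ hz).2.symm
    · rintro u hu ⟨z, hz⟩
      exact hcm (hg _ _ _ hz).2.symm
  have z4 : low d C A B (fun z x => ∃ y, g x y z) = 0 := by
    unfold low
    rw [es_zero, es_zero, add_zero]
    · rintro u hu ⟨z, hz⟩
      exact hcm' (hg _ _ _ hz).2.symm
    · rintro u hu ⟨z, hz⟩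
      exact hcm (hg _ _ _ hz).2.symm
  have u5 : ∀ v, ∀ a ∈ B.S, ∀ b ∈ B.S, (∃ x, g x a v) → (∃ x, g x b v) → a = b := by
    rintro v a - b - ⟨x, hx⟩ ⟨x', hx'⟩
    have h1 := hg _ _ _ hx
    have h2 := hg _ _ _ hx'
    linarith [h1.1, h1.2, h2.1, h2.2]
  have u6 : ∀ v, ∀ a ∈ C.S, ∀ b ∈ C.S, (∃ x, g x v a) → (∃ x, g x v b) → a = b := by
    rintro v a - b - ⟨x, hx⟩ ⟨x', hx'⟩
    have h1 := hg _ _ _ hx
    have h2 := hg _ _ _ hx'
    linarith [h1.1, h1.2, h2.1, h2.2]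
  have b5 : high d B C A (fun y z => ∃ x, g x y z) ≤ 4 := by
    unfold high
    have h1 := es_le_high (S := B.S) (t := C.M + A.m) (v := C.M) (inc := fun y z => ∃ x, g x y z)
      (u5 C.M)
    have h2 := es_le_high (S := B.S) (t := C.M + A.m) (v := C.M - d)
      (inc := fun y z => ∃ x, g x y z) (u5 (C.M - d))
    linarith
  have b6 : low d C B A (fun z y => ∃ x, g x y z) ≤ 4 := by
    unfold low
    have h1 := es_le_low (S := C.S) (t := B.m + A.M) (v := B.m) (inc := fun z y => ∃ x, g x y z)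
      (u6 B.m)
    have h2 := es_le_low (S := C.S) (t := B.m + A.M) (v := B.m + d)
      (inc := fun z y => ∃ x, g x y z) (u6 (B.m + d))
    linarith
  have key : high d B C A (fun y z => ∃ x, g x y z) = 0 ∨
      low d C B A (fun z y => ∃ x, g x y z) = 0 := by
    by_cases h : ∃ y ∈ B.S, ∃ x z, g x y z ∧ C.M - d ≤ z
    · right
      obtain ⟨y, hy, x, z, hx, hz⟩ := h
      have e1 := hg _ _ _ hx
      have b1 := hB.1 y hy
      have aux : ∀ v, v ≤ B.m + d → es C.S (B.m + A.M) wl (fun z y => ∃ x, g x y z) v = 0 := by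
        intro v hv
        apply es_zero
        rintro w hw ⟨x', hx'⟩
        have e2 := hg _ _ _ hx'
        have b2 := hC.1 w hw
        linarith [e1.1, e1.2, e2.1, e2.2, b1.1, b2.2.1]
      unfold low
      rw [aux _ (by linarith), aux _ (le_refl _), add_zero]
    · left
      have aux : ∀ v, C.M - d ≤ v → es B.S (C.M + A.m) wh (fun y z => ∃ x, g x y z) v = 0 := by
        intro v hv
        apply es_zero
        rintro w hw ⟨x', hx'⟩
        exact h ⟨w, hw, x', v, hx', hv⟩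
      unfold high
      rw [aux _ (by linarith), aux _ (le_refl _), add_zero]
  unfold half
  rw [z1, z2, z3, z4]
  rcases key with h | h <;> rw [h] <;> linarith

/-- the total is the half of the curve plus the half of the reflected curve -/
theorem tot_eq (d : ℝ) (A B C : Fam) (g : ℝ → ℝ → ℝ → Prop) :
    tot d A B C g = half d A B C g +
      half d A.neg B.neg C.neg (fun x y z => g (-x) (-y) (-z)) := by
  have e1 : low d A.neg B.neg C.neg (fun x y => ∃ z, g (-x) (-y) (-z)) =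
      high d A B C (fun x y => ∃ z, g x y z) := by
    rw [← low_neg]
    congr 1
    funext a b
    apply propext
    exact ⟨fun ⟨z, hz⟩ => ⟨-z, hz⟩, fun ⟨z, hz⟩ => ⟨-z, by rwa [neg_neg]⟩⟩
  have e2 : low d B.neg A.neg C.neg (fun y x => ∃ z, g (-x) (-y) (-z)) =
      high d B A C (fun y x => ∃ z, g x y z) := by
    rw [← low_neg]
    congr 1
    funext a b
    apply propext
    exact ⟨fun ⟨z, hz⟩ => ⟨-z, hz⟩, fun ⟨z, hz⟩ => ⟨-z, by rwa [neg_neg]⟩⟩
  have e3 : high d A.neg C.neg B.neg (fun x z => ∃ y, g (-x) (-y) (-z)) =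
      low d A C B (fun x z => ∃ y, g x y z) := by
    rw [← high_neg]
    congr 1
    funext a b
    apply propext
    exact ⟨fun ⟨z, hz⟩ => ⟨-z, hz⟩, fun ⟨z, hz⟩ => ⟨-z, by rwa [neg_neg]⟩⟩
  have e4 : low d C.neg A.neg B.neg (fun z x => ∃ y, g (-x) (-y) (-z)) =
      high d C A B (fun z x => ∃ y, g x y z) := by
    rw [← low_neg]
    congr 1
    funext a b
    apply propext
    exact ⟨fun ⟨z, hz⟩ => ⟨-z, hz⟩, fun ⟨z, hz⟩ => ⟨-z, by rwa [neg_neg]⟩⟩
  have e5 : high d B.neg C.neg A.neg (fun y z => ∃ x, g (-x) (-y) (-z)) =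
      low d B C A (fun y z => ∃ x, g x y z) := by
    rw [← high_neg]
    congr 1
    funext a b
    apply propext
    exact ⟨fun ⟨z, hz⟩ => ⟨-z, hz⟩, fun ⟨z, hz⟩ => ⟨-z, by rwa [neg_neg]⟩⟩
  have e6 : low d C.neg B.neg A.neg (fun z y => ∃ x, g (-x) (-y) (-z)) =
      high d C B A (fun z y => ∃ x, g x y z) := by
    rw [← low_neg]
    congr 1
    funext a b
    apply propext
    exact ⟨fun ⟨z, hz⟩ => ⟨-z, hz⟩, fun ⟨z, hz⟩ => ⟨-z, by rwa [neg_neg]⟩⟩
  unfold half tot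
  rw [e1, e2, e3, e4, e5, e6]
  ring

lemma tot_swap (d : ℝ) (A B C : Fam) (g : ℝ → ℝ → ℝ → Prop) :
    tot d A B C g = tot d B A C (fun y x z => g x y z) := by
  unfold tot; ring

lemma tot_swap' (d : ℝ) (A B C : Fam) (g : ℝ → ℝ → ℝ → Prop) :
    tot d A B C g = tot d A C B (fun x z y => g x y z) := by
  unfold tot; ring

lemma Mono.neg {g : ℝ → ℝ → ℝ → Prop} (hg : Mono g) : Mono (fun x y z => g (-x) (-y) (-z)) := by
  refine ⟨fun x y z h => ?_, fun x y z x' y' z' h h' => ?_⟩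
  · have := hg.1 _ _ _ h; linarith
  · rcases hg.2 _ _ _ _ _ _ h h' with ⟨a, b, c⟩ | ⟨a, b, c⟩ | ⟨a, b, c⟩
    · exact Or.inr (Or.inl ⟨by linarith, by linarith, by linarith⟩)
    · exact Or.inl ⟨by linarith, by linarith, by linarith⟩
    · exact Or.inr (Or.inr ⟨by linarith, by linarith, by linarith⟩)

/-- admissible triple of families -/
structure Adm (d : ℝ) (A B C : Fam) : Prop where
  hA : Ok d A B C
  hB : Ok d B A C
  hC : Ok d C A B
  mA : A.m ≤ A.M
  mB : B.m ≤ B.M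
  mC : C.m ≤ C.M

lemma Adm.swap {d : ℝ} {A B C : Fam} (h : Adm d A B C) : Adm d B A C :=
  ⟨h.hB, h.hA, h.hC.symm, h.mB, h.mA, h.mC⟩

lemma Adm.swap' {d : ℝ} {A B C : Fam} (h : Adm d A B C) : Adm d A C B :=
  ⟨h.hA.symm, h.hC, h.hB, h.mA, h.mC, h.mB⟩

lemma Adm.neg {d : ℝ} {A B C : Fam} (h : Adm d A B C) : Adm d A.neg B.neg C.neg :=
  ⟨h.hA.neg, h.hB.neg, h.hC.neg, neg_le_neg h.mA, neg_le_neg h.mB, neg_le_neg h.mC⟩

theorem tot_le_mono {d : ℝ} {A B C : Fam} (hd : 0 < d) (h : Adm d A B C)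
    {g : ℝ → ℝ → ℝ → Prop} (hg : Mono g) : tot d A B C g ≤ 12 := by
  rw [tot_eq]
  have h1 := half_le hg hd h.hA h.hB h.hC h.mA h.mB
  have h2 := half_le hg.neg hd h.neg.hA h.neg.hB h.neg.hC h.neg.mA h.neg.mB
  linarith

/-- the red lines of a family: the charged ones and the two outer ones on each side -/
def Red (d : ℝ) (A : Fam) (c : ℝ) : Prop :=
  c ∈ A.S ∨ c = A.m ∨ c = A.m + d ∨ c = A.M ∨ c = A.M - d

theorem tot_le_deg {d : ℝ} {A B C : Fam} (hd : 0 < d) (h : Adm d A B C)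
    {g : ℝ → ℝ → ℝ → Prop} {c : ℝ} (hg : Deg g c) (hc : ¬ Red d A c) : tot d A B C g ≤ 12 := by
  rw [tot_eq]
  have h1 := half_le_deg hd hg h.hB h.hC (fun h => hc (Or.inl h))
    (fun h => hc (Or.inr (Or.inl h))) (fun h => hc (Or.inr (Or.inr (Or.inl h))))
  have hg' : Deg (fun x y z => g (-x) (-y) (-z)) (-c) := by
    intro x y z hxyz
    have := hg _ _ _ hxyz
    exact ⟨by linarith [this.1], by linarith [this.2]⟩
  have h2 := half_le_deg hd hg' h.neg.hB h.neg.hC (by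
      intro h'
      obtain ⟨u, hu, hu'⟩ := Finset.mem_image.mp h'
      exact hc (Or.inl (by rw [← neg_injective hu']; exact hu)))
    (fun h' => hc (Or.inr (Or.inr (Or.inr (Or.inl (by
      have : -c = -A.M := h'
      linarith))))))
    (fun h' => hc (Or.inr (Or.inr (Or.inr (Or.inr (by
      have : -c = -A.M + d := h'
      linarith))))))
  linarith

/-- a curve that meets every family of lines monotonically and is not a red line -/
def Gr (d : ℝ) (A B C : Fam) (g : ℝ → ℝ → ℝ → Prop) : Prop :=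
  Mono g ∨ Mono (fun x z y => g x y z) ∨ Mono (fun z y x => g x y z) ∨
  (∃ c, Deg g c ∧ ¬ Red d A c) ∨ (∃ c, Deg (fun y x z => g x y z) c ∧ ¬ Red d B c) ∨
  (∃ c, Deg (fun z y x => g x y z) c ∧ ¬ Red d C c)

lemma tot_swap'' (d : ℝ) (A B C : Fam) (g : ℝ → ℝ → ℝ → Prop) :
    tot d A B C g = tot d C B A (fun z y x => g x y z) := by
  unfold tot; ring

lemma Adm.swap'' {d : ℝ} {A B C : Fam} (h : Adm d A B C) : Adm d C B A :=
  ⟨h.hC.symm, h.hB.symm, h.hA.symm, h.mC, h.mB, h.mA⟩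

/-- every admissible curve collects at most 12 units -/
theorem tot_le {d : ℝ} {A B C : Fam} (hd : 0 < d) (h : Adm d A B C)
    {g : ℝ → ℝ → ℝ → Prop} (hg : Gr d A B C g) : tot d A B C g ≤ 12 := by
  rcases hg with hg | hg | hg | ⟨c, hg, hc⟩ | ⟨c, hg, hc⟩ | ⟨c, hg, hc⟩
  · exact tot_le_mono hd h hg
  · rw [tot_swap']; exact tot_le_mono hd h.swap' hg
  · rw [tot_swap'']; exact tot_le_mono hd h.swap'' hg
  · exact tot_le_deg hd h hg hc
  · rw [tot_swap]; exact tot_le_deg hd h.swap hg hc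
  · rw [tot_swap'']; exact tot_le_deg hd h.swap'' hg hc

end Pool.Agent.Blk
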