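import Pool.Agent.Helper20.Blk.DualB

/-!
The three-quarters bound in dual form (all three-row sets).
-/

namespace Pool.Agent.Blk

open Finset Classical

/-- counting the crossings on one extreme line -/
lemma ext_count {ι : Type*} [Fintype ι] (V W : Finset ℝ) (v : ℝ) (inc : ι → ℝ → ℝ → Prop)
    (hs : ∀ i y z, inc i y z → v + y + z = 0)
    (uniq : ∀ i y z y' z', inc i y z → inc i y' z' → y = y')
    (c1 : ∀ y ∈ V, ∃ i, ∃ z, inc i y z) (c2 : ∀ z ∈ W, ∃ i, ∃ y, inc i y z) :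
    V.card + W.card ≤ (∑ i, if (∃ y z, inc i y z ∧ (y ∈ V ∨ z ∈ W)) then 1 else 0) +
      (V.filter (fun y => -v - y ∈ W)).card := by
  have hT : ∀ y ∈ V ∪ W.image (fun z => -v - z), ∃ i, ∃ z, inc i y z ∧ (y ∈ V ∨ z ∈ W) := by
    intro y hy
    rcases Finset.mem_union.mp hy with h | h
    · obtain ⟨i, z, hz⟩ := c1 y h
      exact ⟨i, z, hz, Or.inl h⟩
    · obtain ⟨z, hz, rfl⟩ := Finset.mem_image.mp h
      obtain ⟨i, y, hy⟩ := c2 z hz
      have : y = -v - z := by linarith [hs i y z hy]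
      subst this
      exact ⟨i, z, hy, Or.inr hz⟩
  have h1 : (V ∪ W.image (fun z => -v - z)).card ≤
      (Finset.univ.filter (fun i => ∃ y z, inc i y z ∧ (y ∈ V ∨ z ∈ W))).card := by
    by_cases hι : Nonempty ι
    swap
    · have : V ∪ W.image (fun z => -v - z) = ∅ := by
        apply Finset.eq_empty_of_forall_notMem
        intro y hy
        obtain ⟨i, _⟩ := hT y hy
        exact hι ⟨i⟩
      rw [this, Finset.card_empty]
      exact Nat.zero_le _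
    choose! f hf using hT
    apply Finset.card_le_card_of_injOn f
    · intro y hy
      obtain ⟨z, hz⟩ := hf y hy
      simp only [Finset.coe_filter, Finset.mem_univ, true_and, Set.mem_ofPred_eq]
      exact ⟨y, z, hz⟩
    · intro y hy y' hy' heq
      obtain ⟨z, hz, _⟩ := hf y hy
      obtain ⟨z', hz', _⟩ := hf y' hy'
      rw [← heq] at hz'
      exact uniq _ _ _ _ _ hz hz'
  have h2 := Finset.card_union_add_card_inter V (W.image (fun z => -v - z))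
  have h3 : (W.image (fun z => -v - z)).card = W.card := by
    apply Finset.card_image_of_injective
    intro a b hab
    have : -v - a = -v - b := hab
    linarith
  have h4 : V ∩ W.image (fun z => -v - z) ⊆ V.filter (fun y => -v - y ∈ W) := by
    intro y hy
    obtain ⟨hy1, hy2⟩ := Finset.mem_inter.mp hy
    obtain ⟨z, hz, rfl⟩ := Finset.mem_image.mp hy2
    refine Finset.mem_filter.mpr ⟨hy1, ?_⟩
    have : -v - (-v - z) = z := by ring
    rw [this]; exact hz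
  have h5 := Finset.card_le_card h4
  rw [Finset.card_filter] at h1
  omega

/-- the lines of `U` that meet the line at `v` on a line of `W` -/
noncomputable def trp (U W : Finset ℝ) (v : ℝ) : ℕ := (U.filter (fun u => -v - u ∈ W)).card

lemma trp_symm (U W : Finset ℝ) (v : ℝ) : trp U W v = trp W U v := by
  unfold trp
  apply Finset.card_bij (fun u _ => -v - u)
  · intro u hu
    obtain ⟨h1, h2⟩ := Finset.mem_filter.mp hu
    refine Finset.mem_filter.mpr ⟨h2, ?_⟩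
    have : -v - (-v - u) = u := by ring
    rw [this]; exact h1
  · intro a _ b _ hab
    linarith
  · intro w hw
    obtain ⟨h1, h2⟩ := Finset.mem_filter.mp hw
    refine ⟨-v - w, Finset.mem_filter.mpr ⟨h2, ?_⟩, by ring⟩
    have : -v - (-v - w) = w := by ring
    rw [this]; exact h1

/-- two triple extreme crossings on the same side of a line are impossible -/
lemma trp_add (U V W : Finset ℝ) (v w : ℝ) (hV : ∀ y ∈ V, v < y) (hW : ∀ z ∈ W, z < w) :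
    trp U W v + trp U V w ≤ U.card := by
  unfold trp
  rw [← Finset.card_union_of_disjoint]
  · apply Finset.card_le_card
    exact Finset.union_subset (Finset.filter_subset _ _) (Finset.filter_subset _ _)
  · rw [Finset.disjoint_left]
    intro u hu hu'
    have h1 := hW _ (Finset.mem_filter.mp hu).2
    have h2 := hV _ (Finset.mem_filter.mp hu').2
    linarith

/-- the interior positions -/
noncomputable def Inn (X : Finset ℝ) (m M : ℝ) : Finset ℝ := (X.erase m).erase M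

/-- `m`, `M` are the least and the greatest element of `X` -/
structure Ext (X : Finset ℝ) (m M : ℝ) : Prop where
  lo : ∀ u ∈ X, m ≤ u
  hi : ∀ u ∈ X, u ≤ M
  m1 : m ∈ X
  M1 : M ∈ X

lemma Inn.lt {X : Finset ℝ} {m M u : ℝ} (h : Ext X m M) (hu : u ∈ Inn X m M) : m < u ∧ u < M := by
  obtain ⟨h1, h2⟩ := Finset.mem_erase.mp hu
  obtain ⟨h3, h4⟩ := Finset.mem_erase.mp h2
  exact ⟨lt_of_le_of_ne (h.lo u h4) (Ne.symm h3), lt_of_le_of_ne (h.hi u h4) h1⟩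

lemma Inn.mem {X : Finset ℝ} {m M u : ℝ} (hu : u ∈ Inn X m M) : u ∈ X :=
  Finset.mem_of_mem_erase (Finset.mem_of_mem_erase hu)

lemma Inn.card {X : Finset ℝ} {m M : ℝ} : X.card ≤ (Inn X m M).card + 2 := by
  unfold Inn
  have h1 := Finset.pred_card_le_card_erase (s := X) (a := m)
  have h2 := Finset.pred_card_le_card_erase (s := X.erase m) (a := M)
  omega

/-- indicator of an extreme crossing -/
noncomputable def ind (p : Prop) : ℕ := if p then 1 else 0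

lemma ind_le (p : Prop) : ind p ≤ 1 := by unfold ind; split_ifs <;> norm_num
lemma ind_zero {p : Prop} (h : ¬ p) : ind p = 0 := by unfold ind; rw [if_neg h]

lemma ind3 {p q r : Prop} (h : ¬ (p ∧ q ∧ r)) : ind p + ind q + ind r ≤ 2 := by
  by_cases hp : p
  · by_cases hq : q
    · have hr : ¬ r := fun hr => h ⟨hp, hq, hr⟩
      rw [ind_zero hr]
      have := ind_le p
      have := ind_le q
      omega
    · rw [ind_zero hq]
      have := ind_le p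
      have := ind_le r
      omega
  · rw [ind_zero hp]
    have := ind_le q
    have := ind_le r
    omega

section

variable (X Y Z : Finset ℝ) (mX MX mY MY mZ MZ : ℝ) (g : ℝ → ℝ → ℝ → Prop)

/-- extreme crossing on the line `x = v` -/
def pX (v : ℝ) : Prop := ∃ y z, g v y z ∧ (y ∈ Inn Y mY MY ∨ z ∈ Inn Z mZ MZ)
/-- extreme crossing on the line `y = v` -/
def pY (v : ℝ) : Prop := ∃ x z, g x v z ∧ (x ∈ Inn X mX MX ∨ z ∈ Inn Z mZ MZ)
/-- extreme crossing on the line `z = v` -/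
def pZ (v : ℝ) : Prop := ∃ x y, g x y v ∧ (x ∈ Inn X mX MX ∨ y ∈ Inn Y mY MY)

/-- number of extreme crossings on the curve -/
noncomputable def six : ℕ :=
  (ind (pX Y Z mY MY mZ MZ g mX) + ind (pX Y Z mY MY mZ MZ g MX)) +
  (ind (pY X Z mX MX mZ MZ g mY) + ind (pY X Z mX MX mZ MZ g MY)) +
  (ind (pZ X Y mX MX mY MY g mZ) + ind (pZ X Y mX MX mY MY g MZ))

end

lemma six_mono {X Y Z : Finset ℝ} {mX MX mY MY mZ MZ : ℝ} (hX : Ext X mX MX) (hY : Ext Y mY MY)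
    (hZ : Ext Z mZ MZ) {g : ℝ → ℝ → ℝ → Prop} (hg : Mono g) :
    six X Y Z mX MX mY MY mZ MZ g ≤ 4 := by
  have a1 : ¬ (pX Y Z mY MY mZ MZ g mX ∧ pY X Z mX MX mZ MZ g mY ∧ pZ X Y mX MX mY MY g MZ) := by
    rintro ⟨⟨y1, z1, h1, i1⟩, ⟨x2, z2, h2, i2⟩, ⟨x3, y3, h3, i3⟩⟩
    have t12 := hg.2 _ _ _ _ _ _ h1 h2
    have t13 := hg.2 _ _ _ _ _ _ h1 h3
    have t23 := hg.2 _ _ _ _ _ _ h2 h3
    have j1 : mY < y1 ∨ z1 < MZ := i1.imp (fun h => (Inn.lt hY h).1) (fun h => (Inn.lt hZ h).2)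
    have j2 : mX < x2 ∨ z2 < MZ := i2.imp (fun h => (Inn.lt hX h).1) (fun h => (Inn.lt hZ h).2)
    have j3 : mX < x3 ∨ mY < y3 := i3.imp (fun h => (Inn.lt hX h).1) (fun h => (Inn.lt hY h).1)
    rcases t12 with ⟨a, b, c⟩ | ⟨a, b, c⟩ | ⟨a, b, c⟩ <;>
    rcases t13 with ⟨a', b', c'⟩ | ⟨a', b', c'⟩ | ⟨a', b', c'⟩ <;>
    rcases t23 with ⟨a'', b'', c''⟩ | ⟨a'', b'', c''⟩ | ⟨a'', b'', c''⟩ <;>
    first
    | linarith
    | (rcases j1 with j1 | j1 <;> linarith)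
    | (rcases j2 with j2 | j2 <;> linarith)
    | (rcases j3 with j3 | j3 <;> linarith)
  have a2 : ¬ (pX Y Z mY MY mZ MZ g MX ∧ pY X Z mX MX mZ MZ g MY ∧ pZ X Y mX MX mY MY g mZ) := by
    rintro ⟨⟨y1, z1, h1, i1⟩, ⟨x2, z2, h2, i2⟩, ⟨x3, y3, h3, i3⟩⟩
    have t12 := hg.2 _ _ _ _ _ _ h1 h2
    have t13 := hg.2 _ _ _ _ _ _ h1 h3
    have t23 := hg.2 _ _ _ _ _ _ h2 h3
    have j1 : y1 < MY ∨ mZ < z1 := i1.imp (fun h => (Inn.lt hY h).2) (fun h => (Inn.lt hZ h).1)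
    have j2 : x2 < MX ∨ mZ < z2 := i2.imp (fun h => (Inn.lt hX h).2) (fun h => (Inn.lt hZ h).1)
    have j3 : x3 < MX ∨ y3 < MY := i3.imp (fun h => (Inn.lt hX h).2) (fun h => (Inn.lt hY h).2)
    rcases t12 with ⟨a, b, c⟩ | ⟨a, b, c⟩ | ⟨a, b, c⟩ <;>
    rcases t13 with ⟨a', b', c'⟩ | ⟨a', b', c'⟩ | ⟨a', b', c'⟩ <;>
    rcases t23 with ⟨a'', b'', c''⟩ | ⟨a'', b'', c''⟩ | ⟨a'', b'', c''⟩ <;>
    first
    | linarith
    | (rcases j1 with j1 | j1 <;> linarith)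
    | (rcases j2 with j2 | j2 <;> linarith)
    | (rcases j3 with j3 | j3 <;> linarith)
  have b1 := ind3 a1
  have b2 := ind3 a2
  unfold six
  omega

lemma six_deg {X Y Z : Finset ℝ} {mX MX mY MY mZ MZ c : ℝ} (hX : Ext X mX MX)
    {g : ℝ → ℝ → ℝ → Prop} (hg : Deg g c) (hc : c ∉ X) :
    six X Y Z mX MX mY MY mZ MZ g ≤ 4 := by
  have a1 : ¬ pX Y Z mY MY mZ MZ g mX := by
    rintro ⟨y, z, h, _⟩
    exact hc ((hg _ _ _ h).2 ▸ hX.m1)
  have a2 : ¬ pX Y Z mY MY mZ MZ g MX := by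
    rintro ⟨y, z, h, _⟩
    exact hc ((hg _ _ _ h).2 ▸ hX.M1)
  unfold six
  rw [ind_zero a1, ind_zero a2]
  have := ind_le (pY X Z mX MX mZ MZ g mY)
  have := ind_le (pY X Z mX MX mZ MZ g MY)
  have := ind_le (pZ X Y mX MX mY MY g mZ)
  have := ind_le (pZ X Y mX MX mY MY g MZ)
  omega

lemma pX_or_comm {Y Z : Finset ℝ} {mY MY mZ MZ v : ℝ} {g : ℝ → ℝ → ℝ → Prop} :
    pX Y Z mY MY mZ MZ g v ↔ pX Z Y mZ MZ mY MY (fun x z y => g x y z) v :=
  ⟨fun ⟨y, z, h, h'⟩ => ⟨z, y, h, h'.symm⟩, fun ⟨z, y, h, h'⟩ => ⟨y, z, h, h'.symm⟩⟩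

lemma six_swap' (X Y Z : Finset ℝ) (mX MX mY MY mZ MZ : ℝ) (g : ℝ → ℝ → ℝ → Prop) :
    six X Y Z mX MX mY MY mZ MZ g = six X Z Y mX MX mZ MZ mY MY (fun x z y => g x y z) := by
  have e1 : ∀ v, pX Y Z mY MY mZ MZ g v = pX Z Y mZ MZ mY MY (fun x z y => g x y z) v :=
    fun v => propext pX_or_comm
  have e2 : ∀ v, pY X Z mX MX mZ MZ g v = pZ X Z mX MX mZ MZ (fun x z y => g x y z) v :=
    fun v => rfl
  have e3 : ∀ v, pZ X Y mX MX mY MY g v = pY X Y mX MX mY MY (fun x z y => g x y z) v :=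
    fun v => rfl
  unfold six
  rw [e1, e1, e2, e2, e3, e3]
  ring

lemma six_swap (X Y Z : Finset ℝ) (mX MX mY MY mZ MZ : ℝ) (g : ℝ → ℝ → ℝ → Prop) :
    six X Y Z mX MX mY MY mZ MZ g = six Y X Z mY MY mX MX mZ MZ (fun y x z => g x y z) := by
  have e1 : ∀ v, pX Y Z mY MY mZ MZ g v = pY Y Z mY MY mZ MZ (fun y x z => g x y z) v :=
    fun v => rfl
  have e2 : ∀ v, pY X Z mX MX mZ MZ g v = pX X Z mX MX mZ MZ (fun y x z => g x y z) v :=
    fun v => rfl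
  have e3 : ∀ v, pZ X Y mX MX mY MY g v = pZ Y X mY MY mX MX (fun y x z => g x y z) v :=
    fun v => propext ⟨fun ⟨x, y, h, h'⟩ => ⟨y, x, h, h'.symm⟩, fun ⟨y, x, h, h'⟩ =>
      ⟨x, y, h, h'.symm⟩⟩
  unfold six
  rw [e1, e1, e2, e2, e3, e3]
  ring

lemma six_swap'' (X Y Z : Finset ℝ) (mX MX mY MY mZ MZ : ℝ) (g : ℝ → ℝ → ℝ → Prop) :
    six X Y Z mX MX mY MY mZ MZ g = six Z Y X mZ MZ mY MY mX MX (fun z y x => g x y z) := by
  rw [six_swap, six_swap', six_swap]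

theorem six_le {X Y Z : Finset ℝ} {mX MX mY MY mZ MZ : ℝ} (hX : Ext X mX MX) (hY : Ext Y mY MY)
    (hZ : Ext Z mZ MZ) {g : ℝ → ℝ → ℝ → Prop} (hg : GrX X Y Z g) :
    six X Y Z mX MX mY MY mZ MZ g ≤ 4 := by
  rcases hg with h | h | h | ⟨c, h, hc⟩ | ⟨c, h, hc⟩ | ⟨c, h, hc⟩
  · exact six_mono hX hY hZ h
  · rw [six_swap']; exact six_mono hX hZ hY h
  · rw [six_swap'']; exact six_mono hZ hY hX h
  · exact six_deg hX h hc
  · rw [six_swap]; exact six_deg hY h hc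
  · rw [six_swap'']; exact six_deg hZ h hc

lemma GrX.sum {X Y Z : Finset ℝ} {g : ℝ → ℝ → ℝ → Prop} (hg : GrX X Y Z g) {x y z : ℝ}
    (h : g x y z) : x + y + z = 0 := by
  rcases hg with h' | h' | h' | ⟨c, h', _⟩ | ⟨c, h', _⟩ | ⟨c, h', _⟩
  · exact h'.1 _ _ _ h
  · linarith [h'.1 _ _ _ h]
  · linarith [h'.1 _ _ _ h]
  · exact (h' _ _ _ h).1
  · linarith [(h' _ _ _ h).1]
  · linarith [(h' _ _ _ h).1]

/-- a green curve meets every red line at most once -/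
lemma GrX.uniqX {X Y Z : Finset ℝ} {g : ℝ → ℝ → ℝ → Prop} (hg : GrX X Y Z g) {x : ℝ} (hx : x ∈ X)
    {y z y' z' : ℝ} (h : g x y z) (h' : g x y' z') : y = y' := by
  have s1 := hg.sum h
  have s2 := hg.sum h'
  rcases hg with k | k | k | ⟨c, k, hc⟩ | ⟨c, k, _⟩ | ⟨c, k, _⟩
  · rcases k.2 _ _ _ _ _ _ h h' with t | t | t
    · exact absurd t.1 (lt_irrefl _)
    · exact absurd t.1 (lt_irrefl _)
    · exact t.2.1
  · rcases k.2 _ _ _ _ _ _ h h' with t | t | t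
    · exact absurd t.1 (lt_irrefl _)
    · exact absurd t.1 (lt_irrefl _)
    · exact t.2.2
  · rcases k.2 _ _ _ _ _ _ h h' with t | t | t
    · exact absurd t.2.2 (lt_irrefl _)
    · exact absurd t.2.2 (lt_irrefl _)
    · exact t.2.1
  · exact absurd ((k _ _ _ h).2 ▸ hx) hc
  · have t1 := (k _ _ _ h).2
    have t2 := (k _ _ _ h').2
    linarith
  · have t1 := (k _ _ _ h).2
    have t2 := (k _ _ _ h').2
    linarith

lemma GrX.swap {X Y Z : Finset ℝ} {g : ℝ → ℝ → ℝ → Prop} (hg : GrX X Y Z g) :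
    GrX Y X Z (fun y x z => g x y z) := by
  rcases hg with k | k | k | k | k | k
  · exact Or.inl ⟨fun y x z h => by linarith [k.1 _ _ _ h], fun y x z y' x' z' h h' => by
      rcases k.2 _ _ _ _ _ _ h h' with ⟨a, b, c⟩ | ⟨a, b, c⟩ | ⟨a, b, c⟩
      · exact Or.inl ⟨b, a, c⟩
      · exact Or.inr (Or.inl ⟨b, a, c⟩)
      · exact Or.inr (Or.inr ⟨b, a, c⟩)⟩
  · refine Or.inr (Or.inr (Or.inl ⟨fun z x y h => by linarith [k.1 _ _ _ h],
      fun z x y z' x' y' h h' => ?_⟩))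
    rcases k.2 _ _ _ _ _ _ h h' with ⟨a, b, c⟩ | ⟨a, b, c⟩ | ⟨a, b, c⟩
    · exact Or.inl ⟨b, a, c⟩
    · exact Or.inr (Or.inl ⟨b, a, c⟩)
    · exact Or.inr (Or.inr ⟨b, a, c⟩)
  · refine Or.inr (Or.inl ⟨fun y z x h => by linarith [k.1 _ _ _ h],
      fun y z x y' z' x' h h' => ?_⟩)
    rcases k.2 _ _ _ _ _ _ h h' with ⟨a, b, c⟩ | ⟨a, b, c⟩ | ⟨a, b, c⟩
    · exact Or.inl ⟨b, a, c⟩
    · exact Or.inr (Or.inl ⟨b, a, c⟩)
    · exact Or.inr (Or.inr ⟨b, a, c⟩)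
  · exact Or.inr (Or.inr (Or.inr (Or.inr (Or.inl k))))
  · exact Or.inr (Or.inr (Or.inr (Or.inl k)))
  · obtain ⟨c, k, hc⟩ := k
    refine Or.inr (Or.inr (Or.inr (Or.inr (Or.inr ⟨c, fun z x y h => ?_, hc⟩))))
    have := k _ _ _ h
    exact ⟨by linarith [this.1], this.2⟩

lemma GrX.swap' {X Y Z : Finset ℝ} {g : ℝ → ℝ → ℝ → Prop} (hg : GrX X Y Z g) :
    GrX X Z Y (fun x z y => g x y z) := by
  rcases hg with k | k | k | k | k | k
  · exact Or.inr (Or.inl k)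
  · exact Or.inl k
  · refine Or.inr (Or.inr (Or.inl ⟨fun y z x h => by linarith [k.1 _ _ _ h],
      fun y z x y' z' x' h h' => ?_⟩))
    rcases k.2 _ _ _ _ _ _ h h' with ⟨a, b, c⟩ | ⟨a, b, c⟩ | ⟨a, b, c⟩
    · exact Or.inl ⟨b, a, c⟩
    · exact Or.inr (Or.inl ⟨b, a, c⟩)
    · exact Or.inr (Or.inr ⟨b, a, c⟩)
  · obtain ⟨c, k, hc⟩ := k
    refine Or.inr (Or.inr (Or.inr (Or.inl ⟨c, fun x z y h => ?_, hc⟩)))
    have := k _ _ _ h
    exact ⟨by linarith [this.1], this.2⟩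
  · obtain ⟨c, k, hc⟩ := k
    refine Or.inr (Or.inr (Or.inr (Or.inr (Or.inr ⟨c, fun y z x h => ?_, hc⟩))))
    have := k _ _ _ h
    exact ⟨by linarith [this.1], this.2⟩
  · obtain ⟨c, k, hc⟩ := k
    refine Or.inr (Or.inr (Or.inr (Or.inr (Or.inl ⟨c, fun z x y h => ?_, hc⟩))))
    have := k _ _ _ h
    exact ⟨by linarith [this.1], this.2⟩

lemma GrX.uniqY {X Y Z : Finset ℝ} {g : ℝ → ℝ → ℝ → Prop} (hg : GrX X Y Z g) {y : ℝ} (hy : y ∈ Y)
    {x z x' z' : ℝ} (h : g x y z) (h' : g x' y z') : x = x' :=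
  hg.swap.uniqX hy h h'

lemma GrX.uniqZ {X Y Z : Finset ℝ} {g : ℝ → ℝ → ℝ → Prop} (hg : GrX X Y Z g) {z : ℝ} (hz : z ∈ Z)
    {x y x' y' : ℝ} (h : g x y z) (h' : g x' y' z) : x = x' := by
  have := hg.swap'.swap.uniqX hz h h'
  exact this

/-- the number of triple extreme crossings -/
noncomputable def tau (X Y Z : Finset ℝ) (mX MX mY MY mZ MZ : ℝ) : ℕ :=
  (trp (Inn Y mY MY) (Inn Z mZ MZ) mX + trp (Inn Y mY MY) (Inn Z mZ MZ) MX) +
  (trp (Inn X mX MX) (Inn Z mZ MZ) mY + trp (Inn X mX MX) (Inn Z mZ MZ) MY) +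
  (trp (Inn X mX MX) (Inn Y mY MY) mZ + trp (Inn X mX MX) (Inn Y mY MY) MZ)

lemma tau_le {X Y Z : Finset ℝ} {mX MX mY MY mZ MZ : ℝ} (hX : Ext X mX MX) (hY : Ext Y mY MY)
    (hZ : Ext Z mZ MZ) : tau X Y Z mX MX mY MY mZ MZ ≤
      (Inn X mX MX).card + (Inn Y mY MY).card + (Inn Z mZ MZ).card := by
  have a1 := trp_add (Inn X mX MX) (Inn Y mY MY) (Inn Z mZ MZ) mY MZ
    (fun y hy => (Inn.lt hY hy).1) (fun z hz => (Inn.lt hZ hz).2)
  have a2 := trp_add (Inn X mX MX) (Inn Z mZ MZ) (Inn Y mY MY) mZ MY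
    (fun y hy => (Inn.lt hZ hy).1) (fun z hz => (Inn.lt hY hz).2)
  have a3 := trp_add (Inn Y mY MY) (Inn X mX MX) (Inn Z mZ MZ) mX MZ
    (fun y hy => (Inn.lt hX hy).1) (fun z hz => (Inn.lt hZ hz).2)
  have a4 := trp_add (Inn Y mY MY) (Inn Z mZ MZ) (Inn X mX MX) mZ MX
    (fun y hy => (Inn.lt hZ hy).1) (fun z hz => (Inn.lt hX hz).2)
  have a5 := trp_add (Inn Z mZ MZ) (Inn X mX MX) (Inn Y mY MY) mX MY
    (fun y hy => (Inn.lt hX hy).1) (fun z hz => (Inn.lt hY hz).2)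
  have a6 := trp_add (Inn Z mZ MZ) (Inn Y mY MY) (Inn X mX MX) mY MX
    (fun y hy => (Inn.lt hY hy).1) (fun z hz => (Inn.lt hX hz).2)
  rw [trp_symm (Inn Y mY MY) (Inn X mX MX)] at a3 a4
  rw [trp_symm (Inn Z mZ MZ) (Inn X mX MX), trp_symm (Inn Z mZ MZ) (Inn Y mY MY)] at a5 a6
  unfold tau
  omega

theorem dualA {ι : Type*} [Fintype ι] (g : ι → ℝ → ℝ → ℝ → Prop) {X Y Z : Finset ℝ}
    {mX MX mY MY mZ MZ : ℝ} (hX : Ext X mX MX) (hY : Ext Y mY MY) (hZ : Ext Z mZ MZ)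
    (hg : ∀ i, GrX X Y Z (g i))
    (cXY : ∀ x ∈ X, ∀ y ∈ Y, ∃ i, ∃ z, g i x y z) (cXZ : ∀ x ∈ X, ∀ z ∈ Z, ∃ i, ∃ y, g i x y z)
    (cYZ : ∀ y ∈ Y, ∀ z ∈ Z, ∃ i, ∃ x, g i x y z) :
    4 * ((Inn X mX MX).card + (Inn Y mY MY).card + (Inn Z mZ MZ).card) ≤
      4 * Fintype.card ι + tau X Y Z mX MX mY MY mZ MZ := by
  have hXv : ∀ v ∈ X, (Inn Y mY MY).card + (Inn Z mZ MZ).card ≤
      (∑ i, ind (pX Y Z mY MY mZ MZ (g i) v)) + trp (Inn Y mY MY) (Inn Z mZ MZ) v := by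
    intro v hv
    exact ext_count (Inn Y mY MY) (Inn Z mZ MZ) v (fun i y z => g i v y z)
      (fun i y z h => (hg i).sum h) (fun i y z y' z' h h' => (hg i).uniqX hv h h')
      (fun y hy => cXY v hv y (Inn.mem hy)) (fun z hz => cXZ v hv z (Inn.mem hz))
  have hYv : ∀ v ∈ Y, (Inn X mX MX).card + (Inn Z mZ MZ).card ≤
      (∑ i, ind (pY X Z mX MX mZ MZ (g i) v)) + trp (Inn X mX MX) (Inn Z mZ MZ) v := by
    intro v hv
    exact ext_count (Inn X mX MX) (Inn Z mZ MZ) v (fun i x z => g i x v z)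
      (fun i x z h => by linarith [(hg i).sum h])
      (fun i x z x' z' h h' => (hg i).uniqY hv h h')
      (fun x hx => cXY x (Inn.mem hx) v hv) (fun z hz => cYZ v hv z (Inn.mem hz))
  have hZv : ∀ v ∈ Z, (Inn X mX MX).card + (Inn Y mY MY).card ≤
      (∑ i, ind (pZ X Y mX MX mY MY (g i) v)) + trp (Inn X mX MX) (Inn Y mY MY) v := by
    intro v hv
    exact ext_count (Inn X mX MX) (Inn Y mY MY) v (fun i x y => g i x y v)
      (fun i x y h => by linarith [(hg i).sum h])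
      (fun i x y x' y' h h' => (hg i).uniqZ hv h h')
      (fun x hx => cXZ x (Inn.mem hx) v hv) (fun y hy => cYZ y (Inn.mem hy) v hv)
  have h1 := hXv mX hX.m1
  have h2 := hXv MX hX.M1
  have h3 := hYv mY hY.m1
  have h4 := hYv MY hY.M1
  have h5 := hZv mZ hZ.m1
  have h6 := hZv MZ hZ.M1
  have h7 : ∑ i, six X Y Z mX MX mY MY mZ MZ (g i) ≤ ∑ _i : ι, 4 :=
    Finset.sum_le_sum (fun i _ => six_le hX hY hZ (hg i))
  rw [Finset.sum_const, Finset.card_univ, smul_eq_mul] at h7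
  unfold six at h7
  simp only [Finset.sum_add_distrib] at h7
  unfold tau
  omega

theorem dualA' {ι : Type*} [Fintype ι] (g : ι → ℝ → ℝ → ℝ → Prop) {X Y Z : Finset ℝ}
    (nX : X.Nonempty) (nY : Y.Nonempty) (nZ : Z.Nonempty) (hg : ∀ i, GrX X Y Z (g i))
    (cXY : ∀ x ∈ X, ∀ y ∈ Y, ∃ i, ∃ z, g i x y z) (cXZ : ∀ x ∈ X, ∀ z ∈ Z, ∃ i, ∃ y, g i x y z)
    (cYZ : ∀ y ∈ Y, ∀ z ∈ Z, ∃ i, ∃ x, g i x y z) :
    3 * (X.card + Y.card + Z.card) ≤ 4 * Fintype.card ι + 18 := by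
  have hX : Ext X (X.min' nX) (X.max' nX) := ⟨fun u hu => Finset.min'_le _ _ hu,
    fun u hu => Finset.le_max' _ _ hu, Finset.min'_mem _ _, Finset.max'_mem _ _⟩
  have hY : Ext Y (Y.min' nY) (Y.max' nY) := ⟨fun u hu => Finset.min'_le _ _ hu,
    fun u hu => Finset.le_max' _ _ hu, Finset.min'_mem _ _, Finset.max'_mem _ _⟩
  have hZ : Ext Z (Z.min' nZ) (Z.max' nZ) := ⟨fun u hu => Finset.min'_le _ _ hu,
    fun u hu => Finset.le_max' _ _ hu, Finset.min'_mem _ _, Finset.max'_mem _ _⟩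
  have h1 := dualA g hX hY hZ hg cXY cXZ cYZ
  have h2 := tau_le hX hY hZ
  have c1 := Inn.card (X := X) (m := X.min' nX) (M := X.max' nX)
  have c2 := Inn.card (X := Y) (m := Y.min' nY) (M := Y.max' nY)
  have c3 := Inn.card (X := Z) (m := Z.min' nZ) (M := Z.max' nZ)
  omega

end Pool.Agent.Blk
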