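import Pool.Agent.Helper20.Blk.Core

/-!
The bounded-surplus theorem in dual form.
-/

namespace Pool.Agent.Blk

open Finset Classical

/-- `X` is `d`-separated and its two outermost gaps on each side are exactly `d` -/
structure Reg (d : ℝ) (X : Finset ℝ) (m M : ℝ) : Prop where
  sep : ∀ u ∈ X, ∀ v ∈ X, u ≠ v → d ≤ |u - v|
  lo : ∀ u ∈ X, m ≤ u
  hi : ∀ u ∈ X, u ≤ M
  m1 : m ∈ X
  m2 : m + d ∈ X
  M1 : M ∈ X
  M2 : M - d ∈ X

lemma sep_card' (S : Finset ℝ) {d a : ℝ} (hd : 0 < d) (k : ℕ)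
    (hS : ∀ u ∈ S, ∀ v ∈ S, u ≠ v → d ≤ |u - v|) (h1 : ∀ u ∈ S, u ≤ a)
    (h2 : ∀ u ∈ S, a - k * d < u) : S.card ≤ k := by
  have := sep_card (S.image Neg.neg) (a := -a) hd k (by
    intro u hu v hv hne
    obtain ⟨u', hu', rfl⟩ := Finset.mem_image.mp hu
    obtain ⟨v', hv', rfl⟩ := Finset.mem_image.mp hv
    have hne' : u' ≠ v' := fun h => hne (by rw [h])
    have := hS u' hu' v' hv' hne'
    have e : -u' - -v' = -(u' - v') := by ring
    rw [e, abs_neg]
    exact this) (by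
    intro u hu
    obtain ⟨u', hu', rfl⟩ := Finset.mem_image.mp hu
    exact neg_le_neg (h1 u' hu')) (by
    intro u hu
    obtain ⟨u', hu', rfl⟩ := Finset.mem_image.mp hu
    linarith [h2 u' hu'])
  rwa [Finset.card_image_of_injective _ neg_injective] at this

/-- the charged part -/
noncomputable def chg (d : ℝ) (X : Finset ℝ) (m M s t : ℝ) : Finset ℝ :=
  X.filter (fun u => m + 2 * d ≤ u ∧ u ≤ M - 2 * d ∧ (u + s < -(3 * d) ∨ 3 * d < u + s) ∧
    (u + t < -(3 * d) ∨ 3 * d < u + t))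

lemma card_near (X : Finset ℝ) {d s : ℝ} (hd : 0 < d)
    (hS : ∀ u ∈ X, ∀ v ∈ X, u ≠ v → d ≤ |u - v|) :
    (X.filter (fun u => ¬ (u + s < -(3 * d) ∨ 3 * d < u + s))).card ≤ 7 := by
  apply sep_card _ (a := -s - 3 * d) hd 7
  · intro u hu v hv hne
    exact hS u (Finset.mem_of_mem_filter u hu) v (Finset.mem_of_mem_filter v hv) hne
  · intro u hu
    have := (Finset.mem_filter.mp hu).2
    push Not at this
    linarith [this.1]
  · intro u hu
    have := (Finset.mem_filter.mp hu).2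
    push Not at this
    push_cast
    linarith [this.2]

lemma card_chg {d : ℝ} (hd : 0 < d) {X : Finset ℝ} {m M : ℝ} (h : Reg d X m M) (s t : ℝ) :
    X.card ≤ (chg d X m M s t).card + 18 := by
  have h1 : (X.filter (fun u => ¬ (m + 2 * d ≤ u))).card ≤ 2 := by
    apply sep_card _ (a := m) hd 2
    · intro u hu v hv hne
      exact h.sep u (Finset.mem_of_mem_filter u hu) v (Finset.mem_of_mem_filter v hv) hne
    · intro u hu
      exact h.lo u (Finset.mem_of_mem_filter u hu)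
    · intro u hu
      have := (Finset.mem_filter.mp hu).2
      push_cast
      linarith
  have h2 : (X.filter (fun u => ¬ (u ≤ M - 2 * d))).card ≤ 2 := by
    apply sep_card' _ (a := M) hd 2
    · intro u hu v hv hne
      exact h.sep u (Finset.mem_of_mem_filter u hu) v (Finset.mem_of_mem_filter v hv) hne
    · intro u hu
      exact h.hi u (Finset.mem_of_mem_filter u hu)
    · intro u hu
      have := (Finset.mem_filter.mp hu).2
      push_cast
      linarith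
  have h3 := card_near X (s := s) hd h.sep
  have h4 := card_near X (s := t) hd h.sep
  have hsub : X ⊆ chg d X m M s t ∪ (X.filter (fun u => ¬ (m + 2 * d ≤ u)) ∪
      (X.filter (fun u => ¬ (u ≤ M - 2 * d)) ∪
      (X.filter (fun u => ¬ (u + s < -(3 * d) ∨ 3 * d < u + s)) ∪
       X.filter (fun u => ¬ (u + t < -(3 * d) ∨ 3 * d < u + t))))) := by
    intro u hu
    by_cases c1 : m + 2 * d ≤ u
    · by_cases c2 : u ≤ M - 2 * d
      · by_cases c3 : u + s < -(3 * d) ∨ 3 * d < u + s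
        · by_cases c4 : u + t < -(3 * d) ∨ 3 * d < u + t
          · exact Finset.mem_union_left _ (Finset.mem_filter.mpr ⟨hu, c1, c2, c3, c4⟩)
          · exact Finset.mem_union_right _ (Finset.mem_union_right _ (Finset.mem_union_right _
              (Finset.mem_union_right _ (Finset.mem_filter.mpr ⟨hu, c4⟩))))
        · exact Finset.mem_union_right _ (Finset.mem_union_right _ (Finset.mem_union_right _
            (Finset.mem_union_left _ (Finset.mem_filter.mpr ⟨hu, c3⟩))))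
      · exact Finset.mem_union_right _ (Finset.mem_union_right _
          (Finset.mem_union_left _ (Finset.mem_filter.mpr ⟨hu, c2⟩)))
    · exact Finset.mem_union_right _ (Finset.mem_union_left _ (Finset.mem_filter.mpr ⟨hu, c1⟩))
  have k1 := Finset.card_le_card hsub
  have k2 := Finset.card_union_le (chg d X m M s t) (X.filter (fun u => ¬ (m + 2 * d ≤ u)) ∪
      (X.filter (fun u => ¬ (u ≤ M - 2 * d)) ∪
      (X.filter (fun u => ¬ (u + s < -(3 * d) ∨ 3 * d < u + s)) ∪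
       X.filter (fun u => ¬ (u + t < -(3 * d) ∨ 3 * d < u + t)))))
  have k3 := Finset.card_union_le (X.filter (fun u => ¬ (m + 2 * d ≤ u)))
      (X.filter (fun u => ¬ (u ≤ M - 2 * d)) ∪
      (X.filter (fun u => ¬ (u + s < -(3 * d) ∨ 3 * d < u + s)) ∪
       X.filter (fun u => ¬ (u + t < -(3 * d) ∨ 3 * d < u + t))))
  have k4 := Finset.card_union_le (X.filter (fun u => ¬ (u ≤ M - 2 * d)))
      (X.filter (fun u => ¬ (u + s < -(3 * d) ∨ 3 * d < u + s)) ∪
       X.filter (fun u => ¬ (u + t < -(3 * d) ∨ 3 * d < u + t)))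
  have k5 := Finset.card_union_le (X.filter (fun u => ¬ (u + s < -(3 * d) ∨ 3 * d < u + s)))
       (X.filter (fun u => ¬ (u + t < -(3 * d) ∨ 3 * d < u + t)))
  omega

lemma chg_ok {d : ℝ} {X : Finset ℝ} {m M : ℝ} (h : Reg d X m M) (B C : Fam) :
    Ok d ⟨chg d X m M (B.m + C.M) (B.M + C.m), m, M⟩ B C := by
  refine ⟨fun u hu => ?_, fun u hu v hv hne => ?_⟩
  · exact (Finset.mem_filter.mp hu).2
  · exact h.sep u (Finset.mem_of_mem_filter u hu) v (Finset.mem_of_mem_filter v hv) hne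

/-- a green curve with respect to the three sets of red lines -/
def GrX (X Y Z : Finset ℝ) (g : ℝ → ℝ → ℝ → Prop) : Prop :=
  Mono g ∨ Mono (fun x z y => g x y z) ∨ Mono (fun z y x => g x y z) ∨
  (∃ c, Deg g c ∧ c ∉ X) ∨ (∃ c, Deg (fun y x z => g x y z) c ∧ c ∉ Y) ∨
  (∃ c, Deg (fun z y x => g x y z) c ∧ c ∉ Z)

lemma Ok.congr {d : ℝ} {A B C B' C' : Fam} (h : Ok d A B C) (h1 : B.m = B'.m) (h2 : B.M = B'.M)
    (h3 : C.m = C'.m) (h4 : C.M = C'.M) : Ok d A B' C' := by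
  unfold Ok at *
  rw [← h1, ← h2, ← h3, ← h4]
  exact h

theorem dualB {ι : Type*} [Fintype ι] (g : ι → ℝ → ℝ → ℝ → Prop) {d : ℝ} {X Y Z : Finset ℝ}
    {mX MX mY MY mZ MZ : ℝ} (hd : 0 < d) (hX : Reg d X mX MX) (hY : Reg d Y mY MY)
    (hZ : Reg d Z mZ MZ) (hg : ∀ i, GrX X Y Z (g i))
    (cXY : ∀ x ∈ X, ∀ y ∈ Y, ∃ i, ∃ z, g i x y z) (cXZ : ∀ x ∈ X, ∀ z ∈ Z, ∃ i, ∃ y, g i x y z)
    (cYZ : ∀ y ∈ Y, ∀ z ∈ Z, ∃ i, ∃ x, g i x y z) :
    X.card + Y.card + Z.card ≤ Fintype.card ι + 54 := by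
  have oX : ∀ v, Out d ⟨∅, mX, MX⟩ v → v ∈ X := by
    rintro v (rfl | rfl | rfl | rfl)
    exacts [hX.m1, hX.m2, hX.M1, hX.M2]
  have oY : ∀ v, Out d ⟨∅, mY, MY⟩ v → v ∈ Y := by
    rintro v (rfl | rfl | rfl | rfl)
    exacts [hY.m1, hY.m2, hY.M1, hY.M2]
  have oZ : ∀ v, Out d ⟨∅, mZ, MZ⟩ v → v ∈ Z := by
    rintro v (rfl | rfl | rfl | rfl)
    exacts [hZ.m1, hZ.m2, hZ.M1, hZ.M2]
  have nX := card_chg hd hX (mY + MZ) (MY + mZ)
  have nY := card_chg hd hY (mX + MZ) (MX + mZ)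
  have nZ := card_chg hd hZ (mX + MY) (MX + mY)
  have adm : Adm d ⟨chg d X mX MX (mY + MZ) (MY + mZ), mX, MX⟩
      ⟨chg d Y mY MY (mX + MZ) (MX + mZ), mY, MY⟩
      ⟨chg d Z mZ MZ (mX + MY) (MX + mY), mZ, MZ⟩ :=
    ⟨(chg_ok hX ⟨∅, mY, MY⟩ ⟨∅, mZ, MZ⟩).congr rfl rfl rfl rfl,
     (chg_ok hY ⟨∅, mX, MX⟩ ⟨∅, mZ, MZ⟩).congr rfl rfl rfl rfl,
     (chg_ok hZ ⟨∅, mX, MX⟩ ⟨∅, mY, MY⟩).congr rfl rfl rfl rfl,
     hX.hi _ hX.m1, hY.hi _ hY.m1, hZ.hi _ hZ.m1⟩
  have rX : ∀ c, Red d ⟨chg d X mX MX (mY + MZ) (MY + mZ), mX, MX⟩ c → c ∈ X := by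
    rintro c (h | rfl | rfl | rfl | rfl)
    exacts [Finset.mem_of_mem_filter c h, hX.m1, hX.m2, hX.M1, hX.M2]
  have rY : ∀ c, Red d ⟨chg d Y mY MY (mX + MZ) (MX + mZ), mY, MY⟩ c → c ∈ Y := by
    rintro c (h | rfl | rfl | rfl | rfl)
    exacts [Finset.mem_of_mem_filter c h, hY.m1, hY.m2, hY.M1, hY.M2]
  have rZ : ∀ c, Red d ⟨chg d Z mZ MZ (mX + MY) (MX + mY), mZ, MZ⟩ c → c ∈ Z := by
    rintro c (h | rfl | rfl | rfl | rfl)
    exacts [Finset.mem_of_mem_filter c h, hZ.m1, hZ.m2, hZ.M1, hZ.M2]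
  have hg' : ∀ i, Gr d ⟨chg d X mX MX (mY + MZ) (MY + mZ), mX, MX⟩
      ⟨chg d Y mY MY (mX + MZ) (MX + mZ), mY, MY⟩
      ⟨chg d Z mZ MZ (mX + MY) (MX + mY), mZ, MZ⟩ (g i) := by
    intro i
    rcases hg i with h | h | h | ⟨c, h, hc⟩ | ⟨c, h, hc⟩ | ⟨c, h, hc⟩
    · exact Or.inl h
    · exact Or.inr (Or.inl h)
    · exact Or.inr (Or.inr (Or.inl h))
    · exact Or.inr (Or.inr (Or.inr (Or.inl ⟨c, h, fun h' => hc (rX c h')⟩)))
    · exact Or.inr (Or.inr (Or.inr (Or.inr (Or.inl ⟨c, h, fun h' => hc (rY c h')⟩))))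
    · exact Or.inr (Or.inr (Or.inr (Or.inr (Or.inr ⟨c, h, fun h' => hc (rZ c h')⟩))))
  have key := core g hd adm hg'
    (fun x hx y hy => cXY x (Finset.mem_of_mem_filter x hx) y (oY y hy))
    (fun x hx z hz => cXZ x (Finset.mem_of_mem_filter x hx) z (oZ z hz))
    (fun y hy x hx => cXY x (oX x hx) y (Finset.mem_of_mem_filter y hy))
    (fun y hy z hz => cYZ y (Finset.mem_of_mem_filter y hy) z (oZ z hz))
    (fun z hz x hx => cXZ x (oX x hx) z (Finset.mem_of_mem_filter z hz))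
    (fun z hz y hy => cYZ y (oY y hy) z (Finset.mem_of_mem_filter z hz))
  simp only at key
  omega

/-- a parametrised line in the plane `x + y + z = 0` is a green curve if it is not red -/
lemma para_gr {X Y Z : Finset ℝ} {x0 y0 z0 a b c : ℝ} (h0 : x0 + y0 + z0 = 0) (h1 : a + b + c = 0)
    (hX : a = 0 → x0 ∉ X) (hY : b = 0 → y0 ∉ Y) (hZ : c = 0 → z0 ∉ Z)
    {g : ℝ → ℝ → ℝ → Prop}
    (hg : ∀ x y z, g x y z → ∃ t, x = x0 + a * t ∧ y = y0 + b * t ∧ z = z0 + c * t) :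
    GrX X Y Z g := by
  have hs : ∀ x y z, g x y z → x + y + z = 0 := by
    intro x y z h
    obtain ⟨t, rfl, rfl, rfl⟩ := hg x y z h
    linear_combination h0 + t * h1
  by_cases ha : a = 0
  · refine Or.inr (Or.inr (Or.inr (Or.inl ⟨x0, fun x y z h => ⟨hs x y z h, ?_⟩, hX ha⟩)))
    obtain ⟨t, rfl, -, -⟩ := hg x y z h
    rw [ha]; ring
  by_cases hb : b = 0
  · refine Or.inr (Or.inr (Or.inr (Or.inr (Or.inl ⟨y0, fun y x z h => ⟨?_, ?_⟩, hY hb⟩))))
    · linarith [hs x y z h]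
    · obtain ⟨t, -, rfl, -⟩ := hg x y z h
      rw [hb]; ring
  by_cases hc : c = 0
  · refine Or.inr (Or.inr (Or.inr (Or.inr (Or.inr ⟨z0, fun z y x h => ⟨?_, ?_⟩, hZ hc⟩))))
    · linarith [hs x y z h]
    · obtain ⟨t, -, -, rfl⟩ := hg x y z h
      rw [hc]; ring
  have key : ∀ p q r p0 q0 r0 : ℝ, 0 < p * q → p + q + r = 0 → ∀ t t' : ℝ,
      (p0 + p * t < p0 + p * t' ∧ q0 + q * t < q0 + q * t' ∧ r0 + r * t' < r0 + r * t) ∨
      (p0 + p * t' < p0 + p * t ∧ q0 + q * t' < q0 + q * t ∧ r0 + r * t < r0 + r * t') ∨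
      (p0 + p * t = p0 + p * t' ∧ q0 + q * t = q0 + q * t' ∧ r0 + r * t = r0 + r * t') := by
    intro p q r p0 q0 r0 hpq hs t t'
    have hr : r = -(p + q) := by linarith
    subst hr
    rcases lt_trichotomy t t' with ht | ht | ht
    · rcases pos_and_pos_or_neg_and_neg_of_mul_pos hpq with ⟨h1, h2⟩ | ⟨h1, h2⟩
      · left
        have e1 := mul_lt_mul_of_pos_left ht h1
        have e2 := mul_lt_mul_of_pos_left ht h2
        exact ⟨by linarith, by linarith, by linarith⟩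
      · right; left
        have e1 := mul_lt_mul_of_neg_left ht h1
        have e2 := mul_lt_mul_of_neg_left ht h2
        exact ⟨by linarith, by linarith, by linarith⟩
    · right; right
      rw [ht]; exact ⟨rfl, rfl, rfl⟩
    · rcases pos_and_pos_or_neg_and_neg_of_mul_pos hpq with ⟨h1, h2⟩ | ⟨h1, h2⟩
      · right; left
        have e1 := mul_lt_mul_of_pos_left ht h1
        have e2 := mul_lt_mul_of_pos_left ht h2
        exact ⟨by linarith, by linarith, by linarith⟩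
      · left
        have e1 := mul_lt_mul_of_neg_left ht h1
        have e2 := mul_lt_mul_of_neg_left ht h2
        exact ⟨by linarith, by linarith, by linarith⟩
  by_cases hab : 0 < a * b
  · refine Or.inl ⟨hs, fun x y z x' y' z' h h' => ?_⟩
    obtain ⟨t, rfl, rfl, rfl⟩ := hg x y z h
    obtain ⟨t', rfl, rfl, rfl⟩ := hg x' y' z' h'
    exact key a b c x0 y0 z0 hab h1 t t'
  by_cases hac : 0 < a * c
  · refine Or.inr (Or.inl ⟨fun x z y h => by linarith [hs x y z h],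
      fun x z y x' z' y' h h' => ?_⟩)
    obtain ⟨t, rfl, rfl, rfl⟩ := hg x y z h
    obtain ⟨t', rfl, rfl, rfl⟩ := hg x' y' z' h'
    exact key a c b x0 z0 y0 hac (by linarith) t t'
  by_cases hbc : 0 < c * b
  · refine Or.inr (Or.inr (Or.inl ⟨fun z y x h => by linarith [hs x y z h],
      fun z y x z' y' x' h h' => ?_⟩))
    obtain ⟨t, rfl, rfl, rfl⟩ := hg x y z h
    obtain ⟨t', rfl, rfl, rfl⟩ := hg x' y' z' h'
    exact key c b a z0 y0 x0 hbc (by linarith) t t'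
  exfalso
  push Not at hab hac hbc
  have hr : c = -(a + b) := by linarith
  subst hr
  have hs0 : a + b ≠ 0 := fun h => hc (by rw [h, neg_zero])
  have h2 : 0 < (a + b) ^ 2 := by positivity
  have h3 : a * b < 0 := lt_of_le_of_ne hab (mul_ne_zero ha hb)
  have h4 : 0 ≤ (-(a * -(a + b))) * (-(-(a + b) * b)) :=
    mul_nonneg (by linarith) (by linarith)
  have h5 : (-(a * -(a + b))) * (-(-(a + b) * b)) = (a * b) * (a + b) ^ 2 := by ring
  rw [h5] at h4
  have h6 := mul_neg_of_neg_of_pos h3 h2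
  linarith

end Pool.Agent.Blk
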