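import Mathlib

/-!
Three families of parallel lines (coordinates `x + y + z = 0`): the half sum of the two-layer
weights along a line on which the first two coordinates increase and the third decreases.
-/

namespace Pool.Agent.Blk

open Finset Classical

/-- weight at a low end: outermost crossing 2, inner crossing 1 (units of 1/12) -/
noncomputable def wl (s : ℝ) : ℝ := if s < 0 then 2 else 1

/-- weight at a high end -/
noncomputable def wh (s : ℝ) : ℝ := if 0 < s then 2 else 1

lemma wl_neg (s : ℝ) : wl (-s) = wh s := by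
  unfold wl wh; simp

lemma wh_neg (s : ℝ) : wh (-s) = wl s := by
  unfold wl wh; simp

lemma wl_le (s : ℝ) : wl s ≤ 2 := by unfold wl; split_ifs <;> norm_num
lemma wh_le (s : ℝ) : wh s ≤ 2 := by unfold wh; split_ifs <;> norm_num
lemma wl_nonneg (s : ℝ) : 0 ≤ wl s := by unfold wl; split_ifs <;> norm_num
lemma wh_nonneg (s : ℝ) : 0 ≤ wh s := by unfold wh; split_ifs <;> norm_num

lemma wl_of_pos {s : ℝ} (h : 0 ≤ s) : wl s = 1 := by unfold wl; rw [if_neg (not_lt.mpr h)]
lemma wh_of_neg {s : ℝ} (h : s ≤ 0) : wh s = 1 := by unfold wh; rw [if_neg (not_lt.mpr h)]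

/-- incidence sum of the lines in `S` with the outer line at position `v` -/
noncomputable def es (S : Finset ℝ) (t : ℝ) (w : ℝ → ℝ) (inc : ℝ → ℝ → Prop) (v : ℝ) : ℝ :=
  ∑ u ∈ S, if inc u v then w (u + t) else 0

lemma es_nonneg (S : Finset ℝ) (t : ℝ) (w : ℝ → ℝ) (hw : ∀ s, 0 ≤ w s) (inc : ℝ → ℝ → Prop)
    (v : ℝ) : 0 ≤ es S t w inc v := by
  unfold es
  apply Finset.sum_nonneg
  intro u _
  split_ifs
  · exact hw _
  · exact le_refl _

/-- at most one incidence -/
lemma es_cases (S : Finset ℝ) (t : ℝ) (w : ℝ → ℝ) (inc : ℝ → ℝ → Prop) (v : ℝ)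
    (hu : ∀ a ∈ S, ∀ b ∈ S, inc a v → inc b v → a = b) :
    es S t w inc v = 0 ∨ ∃ u ∈ S, inc u v ∧ es S t w inc v = w (u + t) := by
  by_cases h : ∃ u ∈ S, inc u v
  · obtain ⟨u, huS, hi⟩ := h
    refine Or.inr ⟨u, huS, hi, ?_⟩
    unfold es
    rw [Finset.sum_eq_single u]
    · rw [if_pos hi]
    · intro b hb hne
      rw [if_neg]
      intro hb'
      exact hne (hu b hb u huS hb' hi)
    · intro h; exact absurd huS h
  · left
    unfold es
    apply Finset.sum_eq_zero
    intro u huS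
    rw [if_neg]
    intro hi
    exact h ⟨u, huS, hi⟩

lemma es_zero (S : Finset ℝ) (t : ℝ) (w : ℝ → ℝ) (inc : ℝ → ℝ → Prop) (v : ℝ)
    (h : ∀ u ∈ S, ¬ inc u v) : es S t w inc v = 0 := by
  unfold es
  apply Finset.sum_eq_zero
  intro u hu
  rw [if_neg (h u hu)]

/-- a family of parallel lines: the lines that are charged, and the two extreme positions -/
structure Fam where
  S : Finset ℝ
  m : ℝ
  M : ℝ

noncomputable def Fam.neg (A : Fam) : Fam := ⟨A.S.image Neg.neg, -A.M, -A.m⟩

/-- the charged lines of `A` are inside, separated, and away from the thresholds -/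
def Ok (d : ℝ) (A B C : Fam) : Prop :=
  (∀ u ∈ A.S, A.m + 2 * d ≤ u ∧ u ≤ A.M - 2 * d ∧
    (u + (B.m + C.M) < - (3 * d) ∨ 3 * d < u + (B.m + C.M)) ∧
    (u + (B.M + C.m) < - (3 * d) ∨ 3 * d < u + (B.M + C.m))) ∧
  (∀ u ∈ A.S, ∀ v ∈ A.S, u ≠ v → d ≤ |u - v|)

lemma Ok.symm {d : ℝ} {A B C : Fam} (h : Ok d A B C) : Ok d A C B := by
  refine ⟨fun u hu => ?_, h.2⟩
  obtain ⟨h1, h2, h3, h4⟩ := h.1 u hu
  refine ⟨h1, h2, ?_, ?_⟩
  · rw [add_comm C.m B.M]; exact h4
  · rw [add_comm C.M B.m]; exact h3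

lemma Ok.neg {d : ℝ} {A B C : Fam} (h : Ok d A B C) : Ok d A.neg B.neg C.neg := by
  refine ⟨fun u hu => ?_, fun u hu v hv hne => ?_⟩
  · obtain ⟨u', hu', rfl⟩ := Finset.mem_image.mp hu
    obtain ⟨h1, h2, h3, h4⟩ := h.1 u' hu'
    refine ⟨?_, ?_, ?_, ?_⟩
    · show -A.M + 2 * d ≤ -u'
      linarith
    · show -u' ≤ -A.m - 2 * d
      linarith
    · show -u' + (-B.M + -C.m) < -(3 * d) ∨ 3 * d < -u' + (-B.M + -C.m)
      rcases h4 with h4 | h4
      · right; linarith
      · left; linarith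
    · show -u' + (-B.m + -C.M) < -(3 * d) ∨ 3 * d < -u' + (-B.m + -C.M)
      rcases h3 with h3 | h3
      · right; linarith
      · left; linarith
  · obtain ⟨u', hu', rfl⟩ := Finset.mem_image.mp hu
    obtain ⟨v', hv', rfl⟩ := Finset.mem_image.mp hv
    have hne' : u' ≠ v' := fun h => hne (by rw [h])
    have := h.2 u' hu' v' hv' hne'
    have e : -u' - -v' = -(u' - v') := by ring
    rw [e, abs_neg]
    exact this

/-- incidences of the lines of `U` with the two lowest lines of `V` (`W` the third family) -/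
noncomputable def low (d : ℝ) (U V W : Fam) (inc : ℝ → ℝ → Prop) : ℝ :=
  es U.S (V.m + W.M) wl inc V.m + es U.S (V.m + W.M) wl inc (V.m + d)

/-- incidences of the lines of `U` with the two highest lines of `V` -/
noncomputable def high (d : ℝ) (U V W : Fam) (inc : ℝ → ℝ → Prop) : ℝ :=
  es U.S (V.M + W.m) wh inc V.M + es U.S (V.M + W.m) wh inc (V.M - d)

lemma es_neg_l (S : Finset ℝ) (t : ℝ) (inc : ℝ → ℝ → Prop) (v : ℝ) :
    es (S.image Neg.neg) (-t) wl (fun a b => inc (-a) (-b)) (-v) = es S t wh inc v := by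
  unfold es
  rw [Finset.sum_image (fun a _ b _ h => neg_injective h)]
  apply Finset.sum_congr rfl
  intro u _
  have e : -u + -t = -(u + t) := by ring
  show (if inc (- -u) (- -v) then wl (-u + -t) else 0) = _
  rw [neg_neg, neg_neg, e, wl_neg]

lemma es_neg_h (S : Finset ℝ) (t : ℝ) (inc : ℝ → ℝ → Prop) (v : ℝ) :
    es (S.image Neg.neg) (-t) wh (fun a b => inc (-a) (-b)) (-v) = es S t wl inc v := by
  unfold es
  rw [Finset.sum_image (fun a _ b _ h => neg_injective h)]
  apply Finset.sum_congr rfl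
  intro u _
  have e : -u + -t = -(u + t) := by ring
  show (if inc (- -u) (- -v) then wh (-u + -t) else 0) = _
  rw [neg_neg, neg_neg, e, wh_neg]

lemma low_neg (d : ℝ) (U V W : Fam) (inc : ℝ → ℝ → Prop) :
    low d U.neg V.neg W.neg (fun a b => inc (-a) (-b)) = high d U V W inc := by
  unfold low high Fam.neg
  simp only
  have e1 : -V.M + -W.m = -(V.M + W.m) := by ring
  have e2 : -V.M + d = -(V.M - d) := by ring
  rw [e1, e2, es_neg_l, es_neg_l]

lemma high_neg (d : ℝ) (U V W : Fam) (inc : ℝ → ℝ → Prop) :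
    high d U.neg V.neg W.neg (fun a b => inc (-a) (-b)) = low d U V W inc := by
  unfold low high Fam.neg
  simp only
  have e1 : -V.m + -W.M = -(V.m + W.M) := by ring
  have e2 : -V.m - d = -(V.m + d) := by ring
  rw [e1, e2, es_neg_h, es_neg_h]

/-- half of the weights on a line where the coordinates of `A`, `B` increase and that of `C`
decreases -/
noncomputable def half (d : ℝ) (A B C : Fam) (g : ℝ → ℝ → ℝ → Prop) : ℝ :=
  low d A B C (fun x y => ∃ z, g x y z) + low d B A C (fun y x => ∃ z, g x y z) +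
  high d A C B (fun x z => ∃ y, g x y z) + low d C A B (fun z x => ∃ y, g x y z) +
  high d B C A (fun y z => ∃ x, g x y z) + low d C B A (fun z y => ∃ x, g x y z)

/-- all weights -/
noncomputable def tot (d : ℝ) (A B C : Fam) (g : ℝ → ℝ → ℝ → Prop) : ℝ :=
  (low d A B C (fun x y => ∃ z, g x y z) + high d A B C (fun x y => ∃ z, g x y z)) +
  (low d B A C (fun y x => ∃ z, g x y z) + high d B A C (fun y x => ∃ z, g x y z)) +
  (low d A C B (fun x z => ∃ y, g x y z) + high d A C B (fun x z => ∃ y, g x y z)) +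
  (low d C A B (fun z x => ∃ y, g x y z) + high d C A B (fun z x => ∃ y, g x y z)) +
  (low d B C A (fun y z => ∃ x, g x y z) + high d B C A (fun y z => ∃ x, g x y z)) +
  (low d C B A (fun z y => ∃ x, g x y z) + high d C B A (fun z y => ∃ x, g x y z))

/-- a monotone curve: two coordinates increase strictly, the third decreases -/
def Mono (g : ℝ → ℝ → ℝ → Prop) : Prop :=
  (∀ x y z, g x y z → x + y + z = 0) ∧
  ∀ x y z x' y' z', g x y z → g x' y' z' →
    (x < x' ∧ y < y' ∧ z' < z) ∨ (x' < x ∧ y' < y ∧ z < z') ∨ (x = x' ∧ y = y' ∧ z = z')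

end Pool.Agent.Blk
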