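import Pool.Agent.Helper20.Blk.KRows

/-!
`k` families of parallel lines: the covering bound.
-/

namespace Pool.Agent.Blk

open Finset Classical

section

variable {I : Type*} [Fintype I] {a b : I → ℝ} {X : I → Finset ℝ} {m M : I → ℝ}

/-- a green curve: contained in a line that is not one of the red lines -/
def GrK (a b : I → ℝ) (X : I → Finset ℝ) (G : ℝ × ℝ → Prop) : Prop :=
  ∃ p0 v : ℝ × ℝ, (∀ p, G p → ∃ s : ℝ, p = p0 + s • v) ∧ ∀ i, fn a b i v = 0 → fn a b i p0 ∉ X i

/-- the curve passes through a vertex of the line `f i = e` -/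
def Meets (X : I → Finset ℝ) (m M : I → ℝ) (a b : I → ℝ) (G : ℝ × ℝ → Prop) (i : I) (e : ℝ) :
    Prop := ∃ p ∈ Ver X m M a b i e, G p

lemma fn_add (i : I) (p0 v : ℝ × ℝ) (s : ℝ) :
    fn a b i (p0 + s • v) = fn a b i p0 + s * fn a b i v := by
  show a i * (p0.1 + s * v.1) + b i * (p0.2 + s * v.2) = _
  unfold fn
  ring

lemma fn_neg (i : I) (v : ℝ × ℝ) : fn a b i (-v) = - fn a b i v := by
  show a i * (-v.1) + b i * (-v.2) = _
  unfold fn
  ring

lemma eL_pos {s : I → ℝ} {i : I} (h : 0 < s i) : eL m M s i = m i := by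
  unfold eL; rw [if_pos h]

lemma eL_neg {s : I → ℝ} {i : I} (h : ¬ 0 < s i) : eL m M s i = M i := by
  unfold eL; rw [if_neg h]

lemma sum_ind_le {p : I → Prop} (i0 : I) (h : ¬ p i0) :
    ∑ i, ind (p i) ≤ Fintype.card I - 1 := by
  rw [← Finset.sum_erase_add _ _ (Finset.mem_univ i0), ind_zero h, add_zero]
  calc ∑ i ∈ Finset.univ.erase i0, ind (p i) ≤ ∑ _i ∈ Finset.univ.erase i0, 1 :=
        Finset.sum_le_sum (fun i _ => ind_le _)
    _ = Fintype.card I - 1 := by
        rw [Finset.sum_const, smul_eq_mul, mul_one, Finset.card_erase_of_mem (Finset.mem_univ _),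
          Finset.card_univ]

lemma not_meets_zero (h : Dual a b X m M) {G : ℝ × ℝ → Prop} {p0 v : ℝ × ℝ}
    (h1 : ∀ p, G p → ∃ s : ℝ, p = p0 + s • v) (h2 : ∀ i, fn a b i v = 0 → fn a b i p0 ∉ X i)
    {i : I} (hi : fn a b i v = 0) {e : ℝ} (he : e ∈ X i) : ¬ Meets X m M a b G i e := by
  rintro ⟨p, hp, hG⟩
  obtain ⟨s, rfl⟩ := h1 p hG
  have h3 := (mem_Ver h hp).1
  rw [fn_add, hi, mul_zero, add_zero] at h3
  exact h2 i hi (h3 ▸ he)

lemma left_bound [Nonempty I] (h : Dual a b X m M) {G : ℝ × ℝ → Prop} {p0 v : ℝ × ℝ}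
    (h1 : ∀ p, G p → ∃ s : ℝ, p = p0 + s • v) (h2 : ∀ i, fn a b i v = 0 → fn a b i p0 ∉ X i) :
    ∑ i, ind (Meets X m M a b G i (eL m M (fun i => fn a b i v) i)) ≤ Fintype.card I - 1 := by
  have heL : ∀ i, eL m M (fun i => fn a b i v) i ∈ X i := by
    intro i
    unfold eL
    split_ifs
    · exact (h.ext i).m1
    · exact (h.ext i).M1
  by_cases hz : ∃ i, fn a b i v = 0
  · obtain ⟨i, hi⟩ := hz
    exact sum_ind_le (p := fun i => Meets X m M a b G i (eL m M (fun i => fn a b i v) i)) i
      (not_meets_zero h h1 h2 hi (heL i))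
  · push Not at hz
    obtain ⟨i0, hi0⟩ := Finite.exists_min
      (fun i => (eL m M (fun i => fn a b i v) i - fn a b i p0) / fn a b i v)
    apply sum_ind_le (p := fun i => Meets X m M a b G i (eL m M (fun i => fn a b i v) i)) i0
    rintro ⟨p, hp, hG⟩
    obtain ⟨s, rfl⟩ := h1 p hG
    obtain ⟨h3, j, hj, h4⟩ := mem_Ver h hp
    rw [fn_add] at h3 h4
    have hin := Inn.lt (h.ext j) h4
    have hs : s = (eL m M (fun i => fn a b i v) i0 - fn a b i0 p0) / fn a b i0 v := by
      rw [eq_div_iff (hz i0)]; linarith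
    have hsj := hi0 j
    rw [← hs] at hsj
    rcases lt_or_gt_of_ne (hz j) with hv | hv
    · have e1 : eL m M (fun i => fn a b i v) j = M j := by
        unfold eL; rw [if_neg (not_lt.mpr hv.le)]
      rw [e1, le_div_iff_of_neg hv] at hsj
      linarith [hin.2]
    · have e1 : eL m M (fun i => fn a b i v) j = m j := by
        unfold eL; rw [if_pos hv]
      rw [e1, le_div_iff₀ hv] at hsj
      linarith [hin.1]

lemma green_bound [Nonempty I] (h : Dual a b X m M) {G : ℝ × ℝ → Prop} (hG : GrK a b X G) :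
    ∑ i, (ind (Meets X m M a b G i (m i)) + ind (Meets X m M a b G i (M i))) ≤
      2 * (Fintype.card I - 1) := by
  obtain ⟨p0, v, h1, h2⟩ := hG
  have b1 := left_bound h h1 h2
  have h1' : ∀ p, G p → ∃ s : ℝ, p = p0 + s • (-v) := by
    intro p hp
    obtain ⟨s, rfl⟩ := h1 p hp
    exact ⟨-s, by rw [smul_neg, neg_smul, neg_neg]⟩
  have h2' : ∀ i, fn a b i (-v) = 0 → fn a b i p0 ∉ X i := by
    intro i hi
    apply h2 i
    rw [fn_neg] at hi
    linarith
  have b2 := left_bound h h1' h2'
  have hle : ∀ i, ind (Meets X m M a b G i (m i)) + ind (Meets X m M a b G i (M i)) ≤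
      ind (Meets X m M a b G i (eL m M (fun i => fn a b i v) i)) +
      ind (Meets X m M a b G i (eL m M (fun i => fn a b i (-v)) i)) := by
    intro i
    rcases lt_trichotomy (fn a b i v) 0 with hv | hv | hv
    · have e1 : eL m M (fun i => fn a b i v) i = M i := by
        unfold eL; rw [if_neg (not_lt.mpr hv.le)]
      have e2 : eL m M (fun i => fn a b i (-v)) i = m i :=
        eL_pos (s := fun i => fn a b i (-v)) (by
          show 0 < fn a b i (-v)
          rw [fn_neg]; linarith)
      rw [e1, e2]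
      omega
    · rw [ind_zero (not_meets_zero h h1 h2 hv (h.ext i).m1),
        ind_zero (not_meets_zero h h1 h2 hv (h.ext i).M1)]
      exact Nat.zero_le _
    · have e1 : eL m M (fun i => fn a b i v) i = m i := by
        unfold eL; rw [if_pos hv]
      have e2 : eL m M (fun i => fn a b i (-v)) i = M i :=
        eL_neg (s := fun i => fn a b i (-v)) (by
          show ¬ 0 < fn a b i (-v)
          rw [fn_neg]; linarith)
      rw [e1, e2]
  have h3 := Finset.sum_le_sum (fun i (_ : i ∈ Finset.univ) => hle i)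
  rw [Finset.sum_add_distrib (f := fun i => ind (Meets X m M a b G i
    (eL m M (fun i => fn a b i v) i)))] at h3
  omega

/-- every vertex of an extreme line is covered by its own green curve -/
lemma ver_le {ι : Type*} [Fintype ι] (h : Dual a b X m M) (G : ι → ℝ × ℝ → Prop)
    (hG : ∀ t, GrK a b X (G t))
    (cov : ∀ i j, i ≠ j → ∀ u ∈ X i, ∀ w ∈ X j, ∃ t, G t (pt a b i j u w)) (i : I) {e : ℝ}
    (he : e ∈ X i) :
    (Ver X m M a b i e).card ≤ ∑ t, ind (Meets X m M a b (G t) i e) := by
  have hc : ∀ p ∈ Ver X m M a b i e, ∃ t, G t p := by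
    intro p hp
    obtain ⟨h1, j, hj, h2⟩ := mem_Ver h hp
    obtain ⟨t, ht⟩ := cov i j (Ne.symm hj) e he (fn a b j p) (Inn.mem h2)
    refine ⟨t, ?_⟩
    rw [← pt_unique (h.ind i j (Ne.symm hj)) h1 rfl] at ht
    exact ht
  have h1 : (Ver X m M a b i e).card ≤
      (Finset.univ.filter (fun t => Meets X m M a b (G t) i e)).card := by
    by_cases hι : Nonempty ι
    swap
    · have : Ver X m M a b i e = ∅ := by
        apply Finset.eq_empty_of_forall_notMem
        intro p hp
        obtain ⟨t, _⟩ := hc p hp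
        exact hι ⟨t⟩
      rw [this, Finset.card_empty]
      exact Nat.zero_le _
    choose! f hf using hc
    apply Finset.card_le_card_of_injOn f
    · intro p hp
      apply Finset.mem_coe.mpr
      exact Finset.mem_filter.mpr ⟨Finset.mem_univ _, p, hp, hf p hp⟩
    · intro p hp q hq heq
      have g1 := hf p hp
      have g2 := hf q hq
      rw [← heq] at g2
      obtain ⟨p0, v, h1, h2⟩ := hG (f p)
      obtain ⟨s, hs⟩ := h1 p g1
      obtain ⟨s', hs'⟩ := h1 q g2
      have e1 := (mem_Ver h (Finset.mem_coe.mp hp)).1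
      have e2 := (mem_Ver h (Finset.mem_coe.mp hq)).1
      by_cases hv : fn a b i v = 0
      · exfalso
        rw [hs, fn_add, hv, mul_zero, add_zero] at e1
        exact h2 i hv (e1 ▸ he)
      · rw [hs, fn_add] at e1
        rw [hs', fn_add] at e2
        have : s = s' := by
          have : (s - s') * fn a b i v = 0 := by linarith
          rcases mul_eq_zero.mp this with h | h
          · linarith
          · exact absurd h hv
        rw [hs, hs', this]
  rw [Finset.card_filter] at h1
  exact h1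

/-- the weighted number of crossings is at most `2 (k-1)` times the number of green curves -/
theorem weight_le {ι : Type*} [Fintype ι] [Nonempty I] (h : Dual a b X m M)
    (G : ι → ℝ × ℝ → Prop) (hG : ∀ t, GrK a b X (G t))
    (cov : ∀ i j, i ≠ j → ∀ u ∈ X i, ∀ w ∈ X j, ∃ t, G t (pt a b i j u w)) :
    ∑ j, ∑ u ∈ Xo X m M j, ∑ i ∈ Finset.univ.erase j,
      ((1 : ℝ) / (mult X m M a b i (pt a b i j (m i) u) : ℝ) +
        1 / (mult X m M a b i (pt a b i j (M i) u) : ℝ)) ≤
      2 * ((Fintype.card I - 1 : ℕ) : ℝ) * (Fintype.card ι : ℝ) := by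
  have h1 : ∑ i, ((Ver X m M a b i (m i)).card + (Ver X m M a b i (M i)).card) ≤
      2 * (Fintype.card I - 1) * Fintype.card ι := by
    calc ∑ i, ((Ver X m M a b i (m i)).card + (Ver X m M a b i (M i)).card)
        ≤ ∑ i, ((∑ t, ind (Meets X m M a b (G t) i (m i))) +
            ∑ t, ind (Meets X m M a b (G t) i (M i))) := by
          apply Finset.sum_le_sum
          intro i _
          exact add_le_add (ver_le h G hG cov i (h.ext i).m1) (ver_le h G hG cov i (h.ext i).M1)
      _ = ∑ t, ∑ i, (ind (Meets X m M a b (G t) i (m i)) +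
            ind (Meets X m M a b (G t) i (M i))) := by
          simp_rw [← Finset.sum_add_distrib]
          rw [Finset.sum_comm]
      _ ≤ ∑ _t : ι, 2 * (Fintype.card I - 1) :=
          Finset.sum_le_sum (fun t _ => green_bound h (hG t))
      _ = 2 * (Fintype.card I - 1) * Fintype.card ι := by
          rw [Finset.sum_const, Finset.card_univ, smul_eq_mul]; ring
  have h2 : ∑ i, (((Ver X m M a b i (m i)).card : ℝ) + ((Ver X m M a b i (M i)).card : ℝ)) ≤
      2 * ((Fintype.card I - 1 : ℕ) : ℝ) * (Fintype.card ι : ℝ) := by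
    have : ((∑ i, ((Ver X m M a b i (m i)).card + (Ver X m M a b i (M i)).card) : ℕ) : ℝ) ≤
      ((2 * (Fintype.card I - 1) * Fintype.card ι : ℕ) : ℝ) := by exact_mod_cast h1
    push_cast at this
    exact_mod_cast this
  refine le_trans ?_ h2
  have h3 : ∑ j, ∑ u ∈ Xo X m M j, ∑ i ∈ Finset.univ.erase j,
      ((1 : ℝ) / (mult X m M a b i (pt a b i j (m i) u) : ℝ) +
        1 / (mult X m M a b i (pt a b i j (M i) u) : ℝ)) =
      ∑ i, ∑ j ∈ Finset.univ.erase i, ∑ u ∈ Xo X m M j,
      ((1 : ℝ) / (mult X m M a b i (pt a b i j (m i) u) : ℝ) +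
        1 / (mult X m M a b i (pt a b i j (M i) u) : ℝ)) := by
    have e1 : ∀ j : I, ∑ u ∈ Xo X m M j, ∑ i ∈ Finset.univ.erase j,
        ((1 : ℝ) / (mult X m M a b i (pt a b i j (m i) u) : ℝ) +
          1 / (mult X m M a b i (pt a b i j (M i) u) : ℝ)) =
        ∑ i ∈ Finset.univ.erase j, ∑ u ∈ Xo X m M j,
        ((1 : ℝ) / (mult X m M a b i (pt a b i j (m i) u) : ℝ) +
          1 / (mult X m M a b i (pt a b i j (M i) u) : ℝ)) := fun j => Finset.sum_comm
    rw [Finset.sum_congr rfl (fun j _ => e1 j)]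
    apply Finset.sum_comm'
    intro x y
    simp only [Finset.mem_univ, Finset.mem_erase, ne_eq, and_true, true_and]
    exact ⟨fun h h' => h h'.symm, fun h h' => h h'.symm⟩
  rw [h3]
  apply Finset.sum_le_sum
  intro i _
  have a1 := ver_card h i (m i)
  have a2 := ver_card h i (M i)
  refine le_trans (le_of_eq ?_) (add_le_add a1 a2)
  rw [← Finset.sum_add_distrib]
  apply Finset.sum_congr rfl
  intro j _
  rw [← Finset.sum_add_distrib]

/-- the harmonic number `1 + 1/2 + ... + 1/m` -/
noncomputable def Hn (m : ℕ) : ℝ := ∑ r ∈ Finset.range m, (1 : ℝ) / (r + 1)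

/-- `k` families: the harmonic bound -/
theorem kdual {ι : Type*} [Fintype ι] [Nonempty I] (h : Dual a b X m M)
    (G : ι → ℝ × ℝ → Prop) (hG : ∀ t, GrK a b X (G t))
    (cov : ∀ i j, i ≠ j → ∀ u ∈ X i, ∀ w ∈ X j, ∃ t, G t (pt a b i j u w)) :
    Hn (Fintype.card I - 1) * ((∑ j, (Xo X m M j).card : ℕ) : ℝ) ≤
      ((Fintype.card I - 1 : ℕ) : ℝ) * (Fintype.card ι : ℝ) := by
  have h1 := weight_le h G hG cov
  have h2 : ∑ j, ∑ _u ∈ Xo X m M j, 2 * Hn (Fintype.card I - 1) ≤
      ∑ j, ∑ u ∈ Xo X m M j, ∑ i ∈ Finset.univ.erase j,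
      ((1 : ℝ) / (mult X m M a b i (pt a b i j (m i) u) : ℝ) +
        1 / (mult X m M a b i (pt a b i j (M i) u) : ℝ)) := by
    apply Finset.sum_le_sum
    intro j _
    apply Finset.sum_le_sum
    intro u hu
    have s1 := side_sum h j hu 1 (Or.inl rfl)
    have s2 := side_sum h j hu (-1) (Or.inr rfl)
    have e : ∑ i ∈ Finset.univ.erase j,
        ((1 : ℝ) / (mult X m M a b i (pt a b i j (m i) u) : ℝ) +
        1 / (mult X m M a b i (pt a b i j (M i) u) : ℝ)) =
      ∑ i ∈ Finset.univ.erase j, (1 : ℝ) / (mult X m M a b i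
        (pt a b i j (eL m M (fun i => 1 * (a j * b i - a i * b j)) i) u) : ℝ) +
      ∑ i ∈ Finset.univ.erase j, (1 : ℝ) / (mult X m M a b i
        (pt a b i j (eL m M (fun i => (-1) * (a j * b i - a i * b j)) i) u) : ℝ) := by
      rw [← Finset.sum_add_distrib]
      apply Finset.sum_congr rfl
      intro i hi
      have hd := h.ind i j (Finset.mem_erase.mp hi).1
      rcases lt_or_gt_of_ne hd with hv | hv
      · have e1 : eL m M (fun i => 1 * (a j * b i - a i * b j)) i = m i := by
          unfold eL; simp only; rw [if_pos (by linarith)]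
        have e2 : eL m M (fun i => (-1) * (a j * b i - a i * b j)) i = M i := by
          unfold eL; simp only; rw [if_neg (by linarith)]
        rw [e1, e2]
      · have e1 : eL m M (fun i => 1 * (a j * b i - a i * b j)) i = M i := by
          unfold eL; simp only; rw [if_neg (by linarith)]
        have e2 : eL m M (fun i => (-1) * (a j * b i - a i * b j)) i = m i := by
          unfold eL; simp only; rw [if_pos (by linarith)]
        rw [e1, e2, add_comm]
    rw [e]
    unfold Hn
    linarith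
  have h3 : ∑ j, ∑ _u ∈ Xo X m M j, 2 * Hn (Fintype.card I - 1) =
      2 * (Hn (Fintype.card I - 1) * ((∑ j, (Xo X m M j).card : ℕ) : ℝ)) := by
    simp only [Finset.sum_const, nsmul_eq_mul]
    rw [← Finset.sum_mul]
    push_cast
    ring
  rw [h3] at h2
  linarith

/-- `k` families without multiple crossings on the extreme lines -/
theorem kdual' {ι : Type*} [Fintype ι] [Nonempty I] (h : Dual a b X m M)
    (G : ι → ℝ × ℝ → Prop) (hG : ∀ t, GrK a b X (G t))
    (cov : ∀ i j, i ≠ j → ∀ u ∈ X i, ∀ w ∈ X j, ∃ t, G t (pt a b i j u w))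
    (hk : 2 ≤ Fintype.card I)
    (hm : ∀ i p, fn a b i p = m i ∨ fn a b i p = M i → mult X m M a b i p ≤ 1) :
    ∑ j, (Xo X m M j).card ≤ Fintype.card ι := by
  have h1 := weight_le h G hG cov
  have h2 : ∑ j, ∑ _u ∈ Xo X m M j, 2 * ((Fintype.card I - 1 : ℕ) : ℝ) ≤
      ∑ j, ∑ u ∈ Xo X m M j, ∑ i ∈ Finset.univ.erase j,
      ((1 : ℝ) / (mult X m M a b i (pt a b i j (m i) u) : ℝ) +
        1 / (mult X m M a b i (pt a b i j (M i) u) : ℝ)) := by
    apply Finset.sum_le_sum
    intro j _
    apply Finset.sum_le_sum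
    intro u hu
    have hc : (Finset.univ.erase j : Finset I).card = Fintype.card I - 1 := by
      rw [Finset.card_erase_of_mem (Finset.mem_univ j), Finset.card_univ]
    have : ∑ _i ∈ (Finset.univ.erase j : Finset I), (2 : ℝ) =
        2 * ((Fintype.card I - 1 : ℕ) : ℝ) := by
      rw [Finset.sum_const, hc, nsmul_eq_mul]; ring
    rw [← this]
    apply Finset.sum_le_sum
    intro i hi
    have hij := (Finset.mem_erase.mp hi).1
    have hd := h.ind i j hij
    have key : ∀ e, (e = m i ∨ e = M i) →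
        (1 : ℝ) ≤ 1 / (mult X m M a b i (pt a b i j e u) : ℝ) := by
      intro e he
      have h3 := hm i (pt a b i j e u) (by rw [fn_pt_left hd]; exact he)
      have h4 : 0 < mult X m M a b i (pt a b i j e u) := by
        unfold mult
        rw [Finset.card_pos]
        exact ⟨j, Finset.mem_filter.mpr ⟨Finset.mem_univ _, Ne.symm hij, by
          rw [fn_pt_right hd]; exact hu⟩⟩
      have h5 : mult X m M a b i (pt a b i j e u) = 1 := by omega
      rw [h5]; norm_num
    have k1 := key (m i) (Or.inl rfl)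
    have k2 := key (M i) (Or.inr rfl)
    linarith
  have h3 : ∑ j, ∑ _u ∈ Xo X m M j, 2 * ((Fintype.card I - 1 : ℕ) : ℝ) =
      2 * ((Fintype.card I - 1 : ℕ) : ℝ) * ((∑ j, (Xo X m M j).card : ℕ) : ℝ) := by
    simp only [Finset.sum_const, nsmul_eq_mul]
    rw [← Finset.sum_mul]
    push_cast
    ring
  rw [h3] at h2
  have h4 : (0 : ℝ) < 2 * ((Fintype.card I - 1 : ℕ) : ℝ) := by
    have : (0 : ℝ) < ((Fintype.card I - 1 : ℕ) : ℝ) := by
      have : 0 < Fintype.card I - 1 := by omega
      exact_mod_cast this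
    linarith
  have h5 := le_of_mul_le_mul_left (le_trans h2 h1) h4
  exact_mod_cast h5

end

end Pool.Agent.Blk
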