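import Pool.Agent.Helper20.Blk.DualA

/-!
`k` families of parallel lines: a cover of the crossings by other lines has at least
`(H_{k-1}/(k-1)) (n - 2k)` lines.
-/

namespace Pool.Agent.Blk

open Finset Classical

/-- the rank sum: `∑ 1 / (1 + #{t' < t}) ≥ H_m` -/
lemma rank_sum {I : Type*} (t : I → ℝ) : ∀ (m : ℕ) (S : Finset I), S.card = m →
    ∑ j ∈ Finset.range m, (1 : ℝ) / (j + 1) ≤
      ∑ s ∈ S, 1 / (1 + ((S.filter (fun s' => t s' < t s)).card : ℝ)) := by
  intro m
  induction m with
  | zero =>
    intro S hS
    rw [Finset.card_eq_zero] at hS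
    subst hS
    simp
  | succ m ih =>
    intro S hS
    have hne : S.Nonempty := by
      rw [← Finset.card_pos, hS]; exact Nat.succ_pos m
    obtain ⟨s0, hs0, hmax⟩ := Finset.exists_max_image S t hne
    have hc : (S.erase s0).card = m := by rw [Finset.card_erase_of_mem hs0, hS]; rfl
    have h1 := ih (S.erase s0) hc
    rw [Finset.sum_range_succ, ← Finset.sum_erase_add S _ hs0]
    apply add_le_add
    · refine le_trans h1 (le_of_eq ?_)
      apply Finset.sum_congr rfl
      intro s hs
      have hs' := Finset.mem_of_mem_erase hs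
      have e : (S.erase s0).filter (fun s' => t s' < t s) = S.filter (fun s' => t s' < t s) := by
        ext s'
        simp only [Finset.mem_filter, Finset.mem_erase]
        constructor
        · rintro ⟨⟨_, h2⟩, h3⟩; exact ⟨h2, h3⟩
        · rintro ⟨h2, h3⟩
          refine ⟨⟨?_, h2⟩, h3⟩
          rintro rfl
          exact absurd h3 (not_lt.mpr (hmax s hs'))
      rw [e]
    · have h2 : (S.filter (fun s' => t s' < t s0)) ⊆ S.erase s0 := by
        intro s hs
        obtain ⟨h3, h4⟩ := Finset.mem_filter.mp hs
        refine Finset.mem_erase.mpr ⟨?_, h3⟩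
        rintro rfl
        exact lt_irrefl _ h4
      have h3 := Finset.card_le_card h2
      rw [hc] at h3
      have h4 : ((S.filter (fun s' => t s' < t s0)).card : ℝ) ≤ (m : ℝ) := by exact_mod_cast h3
      apply one_div_le_one_div_of_le
      · positivity
      · linarith

section

variable {I : Type*} [Fintype I] (a b : I → ℝ)

/-- the coordinate function of a family -/
def fn (i : I) (p : ℝ × ℝ) : ℝ := a i * p.1 + b i * p.2

/-- the crossing of the line `f i = e` with the line `f j = u` -/
noncomputable def pt (i j : I) (e u : ℝ) : ℝ × ℝ :=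
  ((e * b j - u * b i) / (a i * b j - a j * b i), (a i * u - a j * e) / (a i * b j - a j * b i))

variable {a b}

lemma fn_pt_left {i j : I} (h : a i * b j - a j * b i ≠ 0) (e u : ℝ) :
    fn a b i (pt a b i j e u) = e := by
  show a i * ((e * b j - u * b i) / (a i * b j - a j * b i)) +
    b i * ((a i * u - a j * e) / (a i * b j - a j * b i)) = e
  rw [mul_div_assoc', mul_div_assoc', ← add_div, div_eq_iff h]
  ring

lemma fn_pt_right {i j : I} (h : a i * b j - a j * b i ≠ 0) (e u : ℝ) :
    fn a b j (pt a b i j e u) = u := by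
  show a j * ((e * b j - u * b i) / (a i * b j - a j * b i)) +
    b j * ((a i * u - a j * e) / (a i * b j - a j * b i)) = u
  rw [mul_div_assoc', mul_div_assoc', ← add_div, div_eq_iff h]
  ring

lemma pt_unique {i j : I} (h : a i * b j - a j * b i ≠ 0) {p : ℝ × ℝ} {e u : ℝ}
    (h1 : fn a b i p = e) (h2 : fn a b j p = u) : p = pt a b i j e u := by
  unfold fn at h1 h2
  unfold pt
  apply Prod.ext
  · show p.1 = _
    rw [eq_div_iff h]
    linear_combination b j * h1 - b i * h2
  · show p.2 = _
    rw [eq_div_iff h]
    linear_combination a i * h2 - a j * h1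

/-- data of the dual problem -/
structure Dual (a b : I → ℝ) (X : I → Finset ℝ) (m M : I → ℝ) : Prop where
  ind : ∀ i j, i ≠ j → a i * b j - a j * b i ≠ 0
  ext : ∀ i, Ext (X i) (m i) (M i)

/-- inner positions -/
noncomputable def Xo (X : I → Finset ℝ) (m M : I → ℝ) (i : I) : Finset ℝ := Inn (X i) (m i) (M i)

variable (X : I → Finset ℝ) (m M : I → ℝ)

/-- number of inner lines of families other than `i` through `p` -/
noncomputable def mult (a b : I → ℝ) (i : I) (p : ℝ × ℝ) : ℕ :=
  (Finset.univ.filter (fun j => j ≠ i ∧ fn a b j p ∈ Xo X m M j)).card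

/-- vertices on the line `f i = e` -/
noncomputable def Ver (a b : I → ℝ) (i : I) (e : ℝ) : Finset (ℝ × ℝ) :=
  (Finset.univ.erase i).biUnion (fun j => (Xo X m M j).image (fun u => pt a b i j e u))

variable {X m M}

lemma mem_Ver (h : Dual a b X m M) {i : I} {e : ℝ} {p : ℝ × ℝ} (hp : p ∈ Ver X m M a b i e) :
    fn a b i p = e ∧ ∃ j, j ≠ i ∧ fn a b j p ∈ Xo X m M j := by
  unfold Ver at hp
  obtain ⟨j, hj, hp⟩ := Finset.mem_biUnion.mp hp
  obtain ⟨u, hu, rfl⟩ := Finset.mem_image.mp hp
  have hji := (Finset.mem_erase.mp hj).1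
  have hd := h.ind i j (Ne.symm hji)
  refine ⟨fn_pt_left hd e u, j, hji, ?_⟩
  rw [fn_pt_right hd]
  exact hu

/-- the weighted count of the vertices of one extreme line -/
lemma ver_card (h : Dual a b X m M) (i : I) (e : ℝ) :
    ∑ j ∈ Finset.univ.erase i, ∑ u ∈ Xo X m M j, (1 : ℝ) / (mult X m M a b i (pt a b i j e u) : ℝ) ≤
      ((Ver X m M a b i e).card : ℝ) := by
  rw [Finset.sum_sigma']
  have hmap : ∀ x ∈ (Finset.univ.erase i).sigma (fun j => Xo X m M j),
      pt a b i x.1 e x.2 ∈ Ver X m M a b i e := by
    intro x hx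
    obtain ⟨h1, h2⟩ := Finset.mem_sigma.mp hx
    exact Finset.mem_biUnion.mpr ⟨x.1, h1, Finset.mem_image_of_mem _ h2⟩
  rw [← Finset.sum_fiberwise_of_maps_to hmap]
  have hone : ((Ver X m M a b i e).card : ℝ) = ∑ _p ∈ Ver X m M a b i e, (1 : ℝ) := by
    rw [Finset.sum_const, nsmul_eq_mul, mul_one]
  rw [hone]
  apply Finset.sum_le_sum
  intro p hp
  have h1 : ∀ x ∈ ((Finset.univ.erase i).sigma (fun j => Xo X m M j)).filter
      (fun x => pt a b i x.1 e x.2 = p),
      (1 : ℝ) / (mult X m M a b i (pt a b i x.1 e x.2) : ℝ) = 1 / (mult X m M a b i p : ℝ) := by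
    intro x hx
    rw [(Finset.mem_filter.mp hx).2]
  rw [Finset.sum_congr rfl h1, Finset.sum_const, nsmul_eq_mul]
  have h2 : (((Finset.univ.erase i).sigma (fun j => Xo X m M j)).filter
      (fun x => pt a b i x.1 e x.2 = p)).card ≤ mult X m M a b i p := by
    unfold mult
    apply Finset.card_le_card_of_injOn (fun x => x.1)
    · intro x hx
      have hx' := Finset.mem_filter.mp (Finset.mem_coe.mp hx)
      obtain ⟨h3, h4⟩ := Finset.mem_sigma.mp hx'.1
      have hji := (Finset.mem_erase.mp h3).1
      have hd := h.ind i x.1 (Ne.symm hji)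
      apply Finset.mem_coe.mpr
      refine Finset.mem_filter.mpr ⟨Finset.mem_univ _, hji, ?_⟩
      rw [← hx'.2, fn_pt_right hd]
      exact h4
    · intro x hx y hy hxy
      have hx' := Finset.mem_filter.mp (Finset.mem_coe.mp hx)
      have hy' := Finset.mem_filter.mp (Finset.mem_coe.mp hy)
      obtain ⟨h3, h4⟩ := Finset.mem_sigma.mp hx'.1
      obtain ⟨h5, h6⟩ := Finset.mem_sigma.mp hy'.1
      have hdx := h.ind i x.1 (Ne.symm (Finset.mem_erase.mp h3).1)
      have hdy := h.ind i y.1 (Ne.symm (Finset.mem_erase.mp h5).1)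
      obtain ⟨j, u⟩ := x
      obtain ⟨j', u'⟩ := y
      have hjj : j = j' := hxy
      subst hjj
      have e1 := fn_pt_right hdx e u
      have e2 := fn_pt_right hdy e u'
      have e3 : pt a b i j e u = pt a b i j e u' := by
        rw [show pt a b i j e u = p from hx'.2, show pt a b i j e u' = p from hy'.2]
      have : u = u' := by
        rw [← e1, ← e2]
        show fn a b j (pt a b i j e u) = fn a b j (pt a b i j e u')
        rw [e3]
      rw [this]
  have h3 : ((((Finset.univ.erase i).sigma (fun j => Xo X m M j)).filter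
      (fun x => pt a b i x.1 e x.2 = p)).card : ℝ) ≤ (mult X m M a b i p : ℝ) := by exact_mod_cast h2
  rcases Nat.eq_zero_or_pos (mult X m M a b i p) with h4 | h4
  · rw [h4]; simp
  · have h5 : (0 : ℝ) < (mult X m M a b i p : ℝ) := by exact_mod_cast h4
    rw [mul_one_div, div_le_one h5]
    exact h3

/-- position along the line `f j = u` in the direction `(- b j, a j)` -/
def pos (a b : I → ℝ) (j : I) (p : ℝ × ℝ) : ℝ := -b j * p.1 + a j * p.2

lemma fn_pos {i j : I} (p q : ℝ × ℝ) (h : fn a b j p = fn a b j q) :
    (a j ^ 2 + b j ^ 2) * (fn a b i p - fn a b i q) =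
      (a j * b i - a i * b j) * (pos a b j p - pos a b j q) := by
  unfold fn at *
  unfold pos
  linear_combination (a i * a j + b i * b j) * h

lemma sq_pos {i j : I} (h : a i * b j - a j * b i ≠ 0) : 0 < a j ^ 2 + b j ^ 2 := by
  rcases eq_or_ne (a j) 0 with h1 | h1
  · rcases eq_or_ne (b j) 0 with h2 | h2
    · exfalso; apply h; rw [h1, h2]; ring
    · positivity
  · positivity

/-- the extreme position met first in the direction with sign `s` -/
noncomputable def eL (m M : I → ℝ) (s : I → ℝ) (i : I) : ℝ := if 0 < s i then m i else M i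

/-- one side of the line `f j = u`: the harmonic lower bound -/
lemma side_sum (h : Dual a b X m M) (j : I) {u : ℝ} (hu : u ∈ Xo X m M j) (c : ℝ)
    (hc : c = 1 ∨ c = -1) :
    ∑ r ∈ Finset.range (Fintype.card I - 1), (1 : ℝ) / (r + 1) ≤
      ∑ i ∈ Finset.univ.erase j, (1 : ℝ) / (mult X m M a b i
        (pt a b i j (eL m M (fun i => c * (a j * b i - a i * b j)) i) u) : ℝ) := by
  have hS : (Finset.univ.erase j : Finset I).card = Fintype.card I - 1 := by
    rw [Finset.card_erase_of_mem (Finset.mem_univ j), Finset.card_univ]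
  set s : I → ℝ := fun i => c * (a j * b i - a i * b j) with hs
  set t : I → ℝ := fun i => c * pos a b j (pt a b i j (eL m M s i) u) with ht
  refine le_trans (rank_sum t (Fintype.card I - 1) (Finset.univ.erase j) hS) ?_
  apply Finset.sum_le_sum
  intro i hi
  have hij := (Finset.mem_erase.mp hi).1
  have hd := h.ind i j hij
  have hmpos : 0 < mult X m M a b i (pt a b i j (eL m M s i) u) := by
    unfold mult
    rw [Finset.card_pos]
    exact ⟨j, Finset.mem_filter.mpr ⟨Finset.mem_univ _, Ne.symm hij, by
      rw [fn_pt_right hd]; exact hu⟩⟩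
  apply one_div_le_one_div_of_le
  · exact_mod_cast hmpos
  have hle : mult X m M a b i (pt a b i j (eL m M s i) u) ≤
      1 + ((Finset.univ.erase j).filter (fun i' => t i' < t i)).card := by
    unfold mult
    have hsub : (Finset.univ.filter (fun i' => i' ≠ i ∧
        fn a b i' (pt a b i j (eL m M s i) u) ∈ Xo X m M i')) ⊆
        insert j ((Finset.univ.erase j).filter (fun i' => t i' < t i)) := by
      intro i' hi'
      obtain ⟨_, h1, h2⟩ := Finset.mem_filter.mp hi'
      by_cases hj : i' = j
      · rw [hj]; exact Finset.mem_insert_self _ _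
      · apply Finset.mem_insert_of_mem
        refine Finset.mem_filter.mpr ⟨Finset.mem_erase.mpr ⟨hj, Finset.mem_univ _⟩, ?_⟩
        have hd' := h.ind i' j hj
        have hin := Inn.lt (h.ext i') h2
        have e1 : fn a b j (pt a b i j (eL m M s i) u) = u := fn_pt_right hd _ _
        have e2 : fn a b j (pt a b i' j (eL m M s i') u) = u := fn_pt_right hd' _ _
        have e3 : fn a b i' (pt a b i' j (eL m M s i') u) = eL m M s i' := fn_pt_left hd' _ _
        have key := fn_pos (i := i') (pt a b i j (eL m M s i) u) (pt a b i' j (eL m M s i') u)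
          (e1.trans e2.symm)
        rw [e3] at key
        have hq := sq_pos hd'
        have hs' : s i' = c * (a j * b i' - a i' * b j) := rfl
        have hc2 : c * c = 1 := by rcases hc with h | h <;> rw [h] <;> norm_num
        show c * pos a b j (pt a b i' j (eL m M s i') u) <
          c * pos a b j (pt a b i j (eL m M s i) u)
        set P := pos a b j (pt a b i j (eL m M s i) u)
        set P' := pos a b j (pt a b i' j (eL m M s i') u)
        set F := fn a b i' (pt a b i j (eL m M s i) u)
        have key2 : (a j ^ 2 + b j ^ 2) * (F - eL m M s i') = s i' * (c * P - c * P') := by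
          rw [key, hs']
          linear_combination (-(a j * b i' - a i' * b j) * (P - P')) * hc2
        by_cases hpos : 0 < s i'
        · have he : eL m M s i' = m i' := by unfold eL; rw [if_pos hpos]
          rw [he] at key2
          have h3 : 0 < (a j ^ 2 + b j ^ 2) * (F - m i') := mul_pos hq (by linarith [hin.1])
          rw [key2] at h3
          have := (pos_iff_pos_of_mul_pos h3).mp hpos
          linarith
        · have he : eL m M s i' = M i' := by unfold eL; rw [if_neg hpos]
          rw [he] at key2
          have h3 : (a j ^ 2 + b j ^ 2) * (F - M i') < 0 :=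
            mul_neg_of_pos_of_neg hq (by linarith [hin.2])
          rw [key2] at h3
          have hneg : s i' ≤ 0 := not_lt.mp hpos
          by_contra hcon
          have : 0 ≤ s i' * (c * P - c * P') :=
            mul_nonneg_of_nonpos_of_nonpos hneg (by linarith)
          linarith
    have := Finset.card_le_card hsub
    have h2 := Finset.card_insert_le j ((Finset.univ.erase j).filter (fun i' => t i' < t i))
    omega
  have : ((mult X m M a b i (pt a b i j (eL m M s i) u) : ℕ) : ℝ) ≤
      ((1 + ((Finset.univ.erase j).filter (fun i' => t i' < t i)).card : ℕ) : ℝ) := by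
    exact_mod_cast hle
  push_cast at this
  exact this

end

end Pool.Agent.Blk
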