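import Pool.Agent.Helper20.Blk.Lines

/-!
`k` horizontal rows: the bound with the number of collinear triples at end points.
-/

namespace Pool.Agent.Blk

open Finset Classical

/-- Bonferroni inequality -/
lemma bonf {I α : Type*} [DecidableEq I] [DecidableEq α] (A : I → Finset α) (r : I → ℝ) (hr : Function.Injective r)
    (s : Finset I) :
    ∑ j ∈ s, (A j).card ≤ (s.biUnion A).card +
      ∑ j ∈ s, ∑ l ∈ s.filter (fun l => r j < r l), (A j ∩ A l).card := by
  induction s using Finset.induction_on_max_value r with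
  | empty => simp
  | insert a s ha hmax ih =>
    have h1 : ((insert a s).biUnion A).card + (A a ∩ s.biUnion A).card =
        (A a).card + (s.biUnion A).card := by
      rw [Finset.biUnion_insert]
      exact Finset.card_union_add_card_inter _ _
    have h2 : (A a ∩ s.biUnion A).card ≤ ∑ j ∈ s, (A j ∩ A a).card := by
      rw [Finset.inter_biUnion]
      refine le_trans Finset.card_biUnion_le (le_of_eq ?_)
      apply Finset.sum_congr rfl
      intro j _
      rw [Finset.inter_comm]
    have h3 : ∑ j ∈ s, ∑ l ∈ s.filter (fun l => r j < r l), (A j ∩ A l).card +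
        ∑ j ∈ s, (A j ∩ A a).card ≤
        ∑ j ∈ insert a s, ∑ l ∈ (insert a s).filter (fun l => r j < r l), (A j ∩ A l).card := by
      rw [Finset.sum_insert ha, ← Finset.sum_add_distrib]
      refine le_trans ?_ (Nat.le_add_left _ _)
      apply Finset.sum_le_sum
      intro j hj
      have hja : r j < r a := lt_of_le_of_ne (hmax j hj) (fun h => ha (hr h ▸ hj))
      rw [Finset.filter_insert, if_pos hja, Finset.sum_insert, add_comm]
      intro h
      exact ha (Finset.mem_of_mem_filter a h)
    rw [Finset.sum_insert ha]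
    omega

/-- `e` is the first or the last point of its row -/
def IsEnd (P : Finset (ℝ × ℝ)) (e : ℝ × ℝ) : Prop :=
  (∀ p ∈ P, p.2 = e.2 → e.1 ≤ p.1) ∨ (∀ p ∈ P, p.2 = e.2 → p.1 ≤ e.1)

/-- collinear triples of points of three different rows, exactly one of them (listed first) being
an end point of its row; the other two are listed from the lower to the higher row -/
noncomputable def triples (P : Finset (ℝ × ℝ)) : Finset ((ℝ × ℝ) × (ℝ × ℝ) × (ℝ × ℝ)) :=
  (P ×ˢ P ×ˢ P).filter (fun t => IsEnd P t.1 ∧ ¬ IsEnd P t.2.1 ∧ ¬ IsEnd P t.2.2 ∧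
    t.2.1.2 < t.2.2.2 ∧ t.2.1.2 ≠ t.1.2 ∧ t.2.2.2 ≠ t.1.2 ∧
    Collinear ℝ ({t.1, t.2.1, t.2.2} : Set (ℝ × ℝ)))

theorem par_tau {I : Type*} [Fintype I] [Nonempty I] {h : I → ℝ} {P Q : Finset (ℝ × ℝ)}
    (hh : Function.Injective h) (hP : ∀ p ∈ P, ∃ i, p.2 = h i)
    (hne : ∀ i, ∃ p ∈ P, ∃ q ∈ P, p ≠ q ∧ p.2 = h i ∧ q.2 = h i) (hb : Blocks P Q) :
    2 * (Fintype.card I - 1) * P.card ≤
      2 * (Fintype.card I - 1) * (Q.card + 2 * Fintype.card I) + (triples P).card := by
  have hw : ∀ i : I, (fun _ => (1 : ℝ)) i ≠ 0 := fun _ => one_ne_zero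
  have hn : ∀ i, (Xp P h (fun _ => 1) i).Nonempty := by
    intro i
    obtain ⟨p, hp, _, _, _, h1, _⟩ := hne i
    refine ⟨1 * p.1, (mem_Xp (w := fun _ => 1) hw).mpr ?_⟩
    rw [← h1]; exact hp
  obtain ⟨m, M, hE⟩ := exists_ext (Xp P h (fun _ => 1)) hn
  set X := Xp P h (fun _ => 1) with hX
  have hD : Dual (fun _ => 1) (fun i => 1 * h i) X m M := ⟨ind_one hh, hE⟩
  have hmem : ∀ i x, x ∈ X i ↔ (x, h i) ∈ P := by
    intro i x
    have := mem_Xp (P := P) (h := h) (w := fun _ => 1) hw (i := i) (x := x)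
    rw [one_mul] at this
    exact this
  have hval : ∀ (i : I) (μ : ℝ × ℝ),
      fn (fun _ => 1) (fun i => 1 * h i) i μ = μ.1 + h i * μ.2 := by
    intro i μ
    unfold fn
    ring
  have hmM : ∀ i, m i ≠ M i := by
    intro i he
    obtain ⟨p, hp, q, hq, hpq, h1, h2⟩ := hne i
    apply hpq
    have e1 : p.1 ∈ X i := (hmem i p.1).mpr (by rw [← h1]; exact hp)
    have e2 : q.1 ∈ X i := (hmem i q.1).mpr (by rw [← h2]; exact hq)
    have l1 := (hE i).lo _ e1
    have l2 := (hE i).hi _ e1
    have l3 := (hE i).lo _ e2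
    have l4 := (hE i).hi _ e2
    exact Prod.ext (by linarith) (by rw [h1, h2])
  -- the extreme position
  set ex : I → Bool → ℝ := fun i c => if c then M i else m i with hex
  have hexX : ∀ i c, ex i c ∈ X i := by
    intro i c
    rw [hex]
    cases c
    · exact (hE i).m1
    · exact (hE i).M1
  set A : I → Bool → I → Finset (ℝ × ℝ) := fun i c j =>
    (Xo X m M j).image (fun u => pt (fun _ => 1) (fun i => 1 * h i) i j (ex i c) u) with hA
  have hAmem : ∀ i c j, i ≠ j → ∀ v ∈ A i c j, v.1 + h i * v.2 = ex i c ∧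
      v.1 + h j * v.2 ∈ Xo X m M j := by
    intro i c j hij v hv
    obtain ⟨u, hu, rfl⟩ := Finset.mem_image.mp hv
    have hd := ind_one hh i j hij
    refine ⟨?_, ?_⟩
    · rw [← hval i, fn_pt_left hd]
    · rw [← hval j, fn_pt_right hd]
      exact hu
  have hAcard : ∀ i c j, i ≠ j → (A i c j).card = (Xo X m M j).card := by
    intro i c j hij
    apply Finset.card_image_of_injective
    intro u u' huu
    have hd := ind_one hh i j hij
    have e1 := fn_pt_right (a := fun _ => (1 : ℝ)) (b := fun i => 1 * h i) hd (ex i c) u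
    have e2 := fn_pt_right (a := fun _ => (1 : ℝ)) (b := fun i => 1 * h i) hd (ex i c) u'
    rw [← e1, ← e2]
    exact congrArg _ huu
  -- the number of vertices on the extreme lines
  have hver : ∀ i c, ∑ j ∈ Finset.univ.erase i, (Xo X m M j).card ≤
      (Ver X m M (fun _ => 1) (fun i => 1 * h i) i (ex i c)).card +
      ∑ j ∈ Finset.univ.erase i, ∑ l ∈ (Finset.univ.erase i).filter (fun l => h j < h l),
        (A i c j ∩ A i c l).card := by
    intro i c
    have := bonf (A i c) h hh (Finset.univ.erase i)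
    rw [Finset.sum_congr rfl (fun j hj => hAcard i c j (Ne.symm (Finset.mem_erase.mp hj).1))]
      at this
    refine le_trans this (Nat.add_le_add_right (Finset.card_le_card ?_) _)
    intro v hv
    obtain ⟨j, hj, hv⟩ := Finset.mem_biUnion.mp hv
    obtain ⟨u, hu, rfl⟩ := Finset.mem_image.mp hv
    exact Finset.mem_biUnion.mpr ⟨j, hj, Finset.mem_image.mpr ⟨u, hu, rfl⟩⟩
  -- covering
  have hgreen := fun (q : Q) => gp_green (h := h) hb hw q.2
  have hcov := gp_cov hh hb hw (ind_one hh)
  have h1 : ∑ i, ((Ver X m M (fun _ => 1) (fun i => 1 * h i) i (ex i false)).card +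
      (Ver X m M (fun _ => 1) (fun i => 1 * h i) i (ex i true)).card) ≤
      2 * (Fintype.card I - 1) * Q.card := by
    calc ∑ i, ((Ver X m M (fun _ => 1) (fun i => 1 * h i) i (ex i false)).card +
          (Ver X m M (fun _ => 1) (fun i => 1 * h i) i (ex i true)).card)
        ≤ ∑ i, ((∑ q : Q, ind (Meets X m M (fun _ => 1) (fun i => 1 * h i) (Gp q.1) i (m i))) +
            ∑ q : Q, ind (Meets X m M (fun _ => 1) (fun i => 1 * h i) (Gp q.1) i (M i))) := by
          apply Finset.sum_le_sum
          intro i _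
          exact add_le_add (ver_le hD (fun q : Q => Gp q.1) hgreen hcov i (hE i).m1)
            (ver_le hD (fun q : Q => Gp q.1) hgreen hcov i (hE i).M1)
      _ = ∑ q : Q, ∑ i, (ind (Meets X m M (fun _ => 1) (fun i => 1 * h i) (Gp q.1) i (m i)) +
            ind (Meets X m M (fun _ => 1) (fun i => 1 * h i) (Gp q.1) i (M i))) := by
          simp_rw [← Finset.sum_add_distrib]
          rw [Finset.sum_comm]
      _ ≤ ∑ _q : Q, 2 * (Fintype.card I - 1) :=
          Finset.sum_le_sum (fun q _ => green_bound hD (hgreen q))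
      _ = 2 * (Fintype.card I - 1) * Q.card := by
          rw [Finset.sum_const, Finset.card_univ, smul_eq_mul, Fintype.card_coe]; ring
  have h2 : ∑ i, ∑ j ∈ Finset.univ.erase i, (Xo X m M j).card =
      (Fintype.card I - 1) * ∑ j, (Xo X m M j).card := by
    rw [Finset.sum_comm' (t' := Finset.univ) (s' := fun j => Finset.univ.erase j)]
    · rw [Finset.mul_sum]
      apply Finset.sum_congr rfl
      intro j _
      rw [Finset.sum_const, Finset.card_erase_of_mem (Finset.mem_univ _), Finset.card_univ,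
        smul_eq_mul]
    · intro x y
      simp only [Finset.mem_univ, Finset.mem_erase, ne_eq, and_true, true_and]
      exact ⟨fun h h' => h h'.symm, fun h h' => h h'.symm⟩
  -- the triples
  set S : Finset (I × Bool × I × I) := Finset.univ.filter (fun x =>
    x.2.2.1 ≠ x.1 ∧ x.2.2.2 ≠ x.1 ∧ h x.2.2.1 < h x.2.2.2) with hS
  have h3 : ∑ x ∈ S, (A x.1 x.2.1 x.2.2.1 ∩ A x.1 x.2.1 x.2.2.2).card ≤ (triples P).card := by
    set F : (I × Bool × I × I) → Finset ((ℝ × ℝ) × (ℝ × ℝ) × (ℝ × ℝ)) := fun x =>
      (A x.1 x.2.1 x.2.2.1 ∩ A x.1 x.2.1 x.2.2.2).image (fun v =>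
        ((v.1 + h x.1 * v.2, h x.1), (v.1 + h x.2.2.1 * v.2, h x.2.2.1),
          (v.1 + h x.2.2.2 * v.2, h x.2.2.2))) with hF
    have hFc : ∀ x ∈ S, (F x).card = (A x.1 x.2.1 x.2.2.1 ∩ A x.1 x.2.1 x.2.2.2).card := by
      rintro ⟨i, c, j, l⟩ hx
      obtain ⟨_, hji, hli, hjl⟩ := Finset.mem_filter.mp hx
      apply Finset.card_image_of_injective
      intro v v' hvv
      have e1 : v.1 + h i * v.2 = v'.1 + h i * v'.2 := congrArg (fun t => t.1.1) hvv
      have e2 : v.1 + h j * v.2 = v'.1 + h j * v'.2 := congrArg (fun t => t.2.1.1) hvv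
      have hne' : h i - h j ≠ 0 := fun h0 => hji (hh (by linarith))
      have e3 : v.2 = v'.2 := by
        apply mul_left_cancel₀ hne'
        linear_combination e1 - e2
      exact Prod.ext (by rw [e3] at e1; linarith) e3
    have hFs : ∀ x ∈ S, F x ⊆ triples P := by
      rintro ⟨i, c, j, l⟩ hx t ht
      obtain ⟨_, hji, hli, hjl⟩ := Finset.mem_filter.mp hx
      have hji' : j ≠ i := hji
      have hli' : l ≠ i := hli
      have hjl' : h j < h l := hjl
      obtain ⟨v, hv, rfl⟩ := Finset.mem_image.mp ht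
      obtain ⟨hvj, hvl⟩ := Finset.mem_inter.mp hv
      obtain ⟨a1, a2⟩ := hAmem i c j (Ne.symm hji') v hvj
      obtain ⟨_, a3⟩ := hAmem i c l (Ne.symm hli') v hvl
      have b1 : (v.1 + h i * v.2, h i) ∈ P := (hmem i _).mp (by rw [a1]; exact hexX i c)
      have b2 : (v.1 + h j * v.2, h j) ∈ P := (hmem j _).mp (Inn.mem a2)
      have b3 : (v.1 + h l * v.2, h l) ∈ P := (hmem l _).mp (Inn.mem a3)
      have hnot : ∀ (j : I) (x : ℝ), x ∈ Xo X m M j → ¬ IsEnd P (x, h j) := by
        intro j x hx hend
        have hin := Inn.lt (hE j) hx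
        rcases hend with hend | hend
        · have := hend (m j, h j) ((hmem j _).mp (hE j).m1) rfl
          have : x ≤ m j := this
          linarith [hin.1]
        · have := hend (M j, h j) ((hmem j _).mp (hE j).M1) rfl
          have : M j ≤ x := this
          linarith [hin.2]
      refine Finset.mem_filter.mpr ⟨Finset.mem_product.mpr ⟨b1, Finset.mem_product.mpr ⟨b2, b3⟩⟩,
        ?_, hnot j _ a2, hnot l _ a3, hjl', ?_, ?_, ?_⟩
      · show IsEnd P (v.1 + h i * v.2, h i)
        rw [a1]
        cases c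
        · left
          intro p hp hp2
          exact (hE i).lo _ ((hmem i _).mpr (by
            have : p.2 = h i := hp2
            rw [← this]; exact hp))
        · right
          intro p hp hp2
          exact (hE i).hi _ ((hmem i _).mpr (by
            have : p.2 = h i := hp2
            rw [← this]; exact hp))
      · exact fun he => hji' (hh he)
      · exact fun he => hli' (hh he)
      · rw [collinear_iff_exists_forall_eq_smul_vadd]
        refine ⟨(v.1, 0), (v.2, 1), ?_⟩
        intro p hp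
        rcases hp with rfl | rfl | rfl
        · refine ⟨h i, Prod.ext ?_ ?_⟩
          · show v.1 + h i * v.2 = h i * v.2 + v.1
            ring
          · show h i = h i * 1 + 0
            ring
        · refine ⟨h j, Prod.ext ?_ ?_⟩
          · show v.1 + h j * v.2 = h j * v.2 + v.1
            ring
          · show h j = h j * 1 + 0
            ring
        · refine ⟨h l, Prod.ext ?_ ?_⟩
          · show v.1 + h l * v.2 = h l * v.2 + v.1
            ring
          · show h l = h l * 1 + 0
            ring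
    have hdisj : ∀ x ∈ S, ∀ y ∈ S, x ≠ y → Disjoint (F x) (F y) := by
      rintro ⟨i, c, j, l⟩ hx ⟨i', c', j', l'⟩ hy hxy
      rw [Finset.disjoint_left]
      intro t ht ht'
      obtain ⟨_, hji, hli, hjl⟩ := Finset.mem_filter.mp hx
      obtain ⟨_, hji', hli', hjl'⟩ := Finset.mem_filter.mp hy
      obtain ⟨v, hv, rfl⟩ := Finset.mem_image.mp ht
      obtain ⟨v', hv', hvv⟩ := Finset.mem_image.mp ht'
      have e1 : h i' = h i := congrArg (fun t => t.1.2) hvv
      have e2 : h j' = h j := congrArg (fun t => t.2.1.2) hvv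
      have e3 : h l' = h l := congrArg (fun t => t.2.2.2) hvv
      have e4 : v'.1 + h i' * v'.2 = v.1 + h i * v.2 := congrArg (fun t => t.1.1) hvv
      have d1 := hh e1
      have d2 := hh e2
      have d3 := hh e3
      subst d1 d2 d3
      have a1 := (hAmem i' c j' (Ne.symm hji) v (Finset.mem_inter.mp hv).1).1
      have a1' := (hAmem i' c' j' (Ne.symm hji') v' (Finset.mem_inter.mp hv').1).1
      have hcc : c = c' := by
        have he : ex i' c = ex i' c' := by rw [← a1, ← a1', e4]
        cases c <;> cases c'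
        · rfl
        · exact absurd he (hmM i')
        · exact absurd he.symm (hmM i')
        · rfl
      exact hxy (by rw [hcc])
    rw [← Finset.sum_congr rfl hFc, ← Finset.card_biUnion hdisj]
    apply Finset.card_le_card
    intro t ht
    obtain ⟨x, hx, ht⟩ := Finset.mem_biUnion.mp ht
    exact hFs x hx ht
  have h4 : ∑ x ∈ S, (A x.1 x.2.1 x.2.2.1 ∩ A x.1 x.2.1 x.2.2.2).card =
      ∑ i, ∑ c : Bool, ∑ j ∈ Finset.univ.erase i,
        ∑ l ∈ (Finset.univ.erase i).filter (fun l => h j < h l), (A i c j ∩ A i c l).card := by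
    rw [hS, Finset.sum_filter]
    rw [← Finset.univ_product_univ, Finset.sum_product]
    apply Finset.sum_congr rfl
    intro i _
    rw [← Finset.univ_product_univ, Finset.sum_product]
    apply Finset.sum_congr rfl
    intro c _
    rw [← Finset.univ_product_univ, Finset.sum_product, ← Finset.sum_erase_add _ _
      (Finset.mem_univ i)]
    have e0 : ∑ y : I, (if (i, c, i, y).2.2.1 ≠ (i, c, i, y).1 ∧
        (i, c, i, y).2.2.2 ≠ (i, c, i, y).1 ∧ h (i, c, i, y).2.2.1 < h (i, c, i, y).2.2.2 then
        (A (i, c, i, y).1 (i, c, i, y).2.1 (i, c, i, y).2.2.1 ∩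
          A (i, c, i, y).1 (i, c, i, y).2.1 (i, c, i, y).2.2.2).card else 0) = 0 := by
      apply Finset.sum_eq_zero
      intro y _
      rw [if_neg]
      rintro ⟨h1, _⟩
      exact h1 rfl
    rw [e0, add_zero]
    apply Finset.sum_congr rfl
    intro j hj
    have hji := (Finset.mem_erase.mp hj).1
    rw [Finset.sum_filter, ← Finset.sum_erase_add _ _ (Finset.mem_univ i)]
    have e1 : (if (i, c, j, i).2.2.1 ≠ (i, c, j, i).1 ∧
        (i, c, j, i).2.2.2 ≠ (i, c, j, i).1 ∧ h (i, c, j, i).2.2.1 < h (i, c, j, i).2.2.2 then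
        (A (i, c, j, i).1 (i, c, j, i).2.1 (i, c, j, i).2.2.1 ∩
          A (i, c, j, i).1 (i, c, j, i).2.1 (i, c, j, i).2.2.2).card else 0) = 0 := by
      rw [if_neg]
      rintro ⟨_, h1, _⟩
      exact h1 rfl
    rw [e1, add_zero]
    apply Finset.sum_congr rfl
    intro l hl
    have hli := (Finset.mem_erase.mp hl).1
    by_cases hjl : h j < h l
    · rw [if_pos hjl, if_pos ⟨hji, hli, hjl⟩]
    · rw [if_neg hjl, if_neg (fun h => hjl h.2.2)]
  rw [h4] at h3
  have h5 : ∑ i, ∑ j ∈ Finset.univ.erase i, (Xo X m M j).card +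
      ∑ i, ∑ j ∈ Finset.univ.erase i, (Xo X m M j).card ≤
      ∑ i, ((Ver X m M (fun _ => 1) (fun i => 1 * h i) i (ex i false)).card +
      (Ver X m M (fun _ => 1) (fun i => 1 * h i) i (ex i true)).card) +
      ∑ i, ∑ c : Bool, ∑ j ∈ Finset.univ.erase i,
        ∑ l ∈ (Finset.univ.erase i).filter (fun l => h j < h l), (A i c j ∩ A i c l).card := by
    rw [← Finset.sum_add_distrib, ← Finset.sum_add_distrib]
    apply Finset.sum_le_sum
    intro i _
    have v1 := hver i false
    have v2 := hver i true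
    rw [Fintype.sum_bool]
    omega
  rw [h2] at h5
  have h6 := card_Xp (w := fun _ => 1) hP hw
  have h7 := card_inner (X := X) (m := m) (M := M)
  have h8 : 2 * (Fintype.card I - 1) * P.card ≤ 2 * (Fintype.card I - 1) *
      (∑ j, (Xo X m M j).card + 2 * Fintype.card I) := Nat.mul_le_mul_left _ (le_trans h6 h7)
  calc 2 * (Fintype.card I - 1) * P.card
      ≤ 2 * (Fintype.card I - 1) * (∑ j, (Xo X m M j).card + 2 * Fintype.card I) := h8
    _ = ((Fintype.card I - 1) * ∑ j, (Xo X m M j).card +
        (Fintype.card I - 1) * ∑ j, (Xo X m M j).card) +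
        2 * (Fintype.card I - 1) * (2 * Fintype.card I) := by ring
    _ ≤ (2 * (Fintype.card I - 1) * Q.card + (triples P).card) +
        2 * (Fintype.card I - 1) * (2 * Fintype.card I) := by
        apply Nat.add_le_add_right
        exact le_trans h5 (add_le_add h1 h3)
    _ = 2 * (Fintype.card I - 1) * (Q.card + 2 * Fintype.card I) + (triples P).card := by ring

end Pool.Agent.Blk
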