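import Pool.Agent.Helper20.Blk.Half

/-!
The layer lemma: on a line where the first two coordinates increase and the third decreases, the
weights collected on the left side in one layer (with half of the weight of the fast kinds) are at
most 3 units.
-/

namespace Pool.Agent.Blk

open Finset Classical

/-- status of a kind: no incidence, or a deep / shallow incidence -/
def St (g P D T : ℝ → ℝ → ℝ → Prop) (k : ℝ) : Prop :=
  k = 0 ∨ ∃ x y z, g x y z ∧ P x y z ∧ ((k = 2 ∧ D x y z) ∨ (k = 1 ∧ T x y z))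

lemma St.vals {g P D T : ℝ → ℝ → ℝ → Prop} {k : ℝ} (h : St g P D T k) : k = 0 ∨ k = 1 ∨ k = 2 := by
  rcases h with h | ⟨x, y, z, _, _, h | h⟩
  · exact Or.inl h
  · exact Or.inr (Or.inr h.1)
  · exact Or.inr (Or.inl h.1)

section pairs

variable {g : ℝ → ℝ → ℝ → Prop} (hg : Mono g) {d j mA MA mB MB mC MC : ℝ} (hd : 0 < d)
  (hj0 : 0 ≤ j) (hjd : j ≤ d) (hA : mA ≤ MA) (hB : mB ≤ MB) (hC : mC ≤ MC)

/-- kind 1 -/
def S1 (g : ℝ → ℝ → ℝ → Prop) (d j mA MA mB MC : ℝ) (k : ℝ) : Prop :=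
  St g (fun x y _ => (mA + 2 * d ≤ x ∧ x ≤ MA - 2 * d) ∧ y = mB + j)
    (fun _ _ z => MC + 2 * d < z) (fun _ _ z => z < MC - 3 * d) k

/-- kind 2 -/
def S2 (g : ℝ → ℝ → ℝ → Prop) (d j mB MB mA MC : ℝ) (k : ℝ) : Prop :=
  St g (fun x y _ => (mB + 2 * d ≤ y ∧ y ≤ MB - 2 * d) ∧ x = mA + j)
    (fun _ _ z => MC + 2 * d < z) (fun _ _ z => z < MC - 3 * d) k

/-- kind 3 -/
def S3 (g : ℝ → ℝ → ℝ → Prop) (d mA MA MC mB : ℝ) (k : ℝ) : Prop :=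
  St g (fun x _ z => (mA + 2 * d ≤ x ∧ x ≤ MA - 2 * d) ∧ MC - d ≤ z ∧ z ≤ MC)
    (fun _ y _ => y < mB - 2 * d) (fun _ y _ => mB + 3 * d < y) k

/-- kind 4 -/
def S4 (g : ℝ → ℝ → ℝ → Prop) (d j mC MC mA MB : ℝ) (k : ℝ) : Prop :=
  St g (fun x _ z => (mC + 2 * d ≤ z ∧ z ≤ MC - 2 * d) ∧ x = mA + j)
    (fun _ y _ => MB + 2 * d < y) (fun _ y _ => y < MB - 3 * d) k

/-- kind 5 -/
def S5 (g : ℝ → ℝ → ℝ → Prop) (d mB MB MC mA : ℝ) (k : ℝ) : Prop :=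
  St g (fun _ y z => (mB + 2 * d ≤ y ∧ y ≤ MB - 2 * d) ∧ MC - d ≤ z ∧ z ≤ MC)
    (fun x _ _ => x < mA - 2 * d) (fun x _ _ => mA + 3 * d < x) k

/-- kind 6 -/
def S6 (g : ℝ → ℝ → ℝ → Prop) (d j mC MC mB MA : ℝ) (k : ℝ) : Prop :=
  St g (fun _ y z => (mC + 2 * d ≤ z ∧ z ≤ MC - 2 * d) ∧ y = mB + j)
    (fun x _ _ => MA + 2 * d < x) (fun x _ _ => x < MA - 3 * d) k

include hg hd hj0 hjd

lemma ex12 {k1 k2 : ℝ} (h1 : S1 g d j mA MA mB MC k1) (h2 : S2 g d j mB MB mA MC k2) :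
    k1 = 0 ∨ k2 = 0 := by
  rcases h1 with h1 | ⟨x, y, z, h, ⟨⟨a1, a2⟩, a3⟩, _⟩
  · exact Or.inl h1
  rcases h2 with h2 | ⟨x', y', z', h', ⟨⟨b1, b2⟩, b3⟩, _⟩
  · exact Or.inr h2
  exfalso
  rcases hg.2 _ _ _ _ _ _ h h' with ⟨c1, c2, c3⟩ | ⟨c1, c2, c3⟩ | ⟨c1, c2, c3⟩ <;> linarith

lemma ex34 {k3 k4 : ℝ} (h3 : S3 g d mA MA MC mB k3) (h4 : S4 g d j mC MC mA MB k4) :
    k3 = 0 ∨ k4 = 0 := by
  rcases h3 with h3 | ⟨x, y, z, h, ⟨⟨a1, a2⟩, a3, a4⟩, _⟩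
  · exact Or.inl h3
  rcases h4 with h4 | ⟨x', y', z', h', ⟨⟨b1, b2⟩, b3⟩, _⟩
  · exact Or.inr h4
  exfalso
  rcases hg.2 _ _ _ _ _ _ h h' with ⟨c1, c2, c3⟩ | ⟨c1, c2, c3⟩ | ⟨c1, c2, c3⟩ <;> linarith

lemma ex56 {k5 k6 : ℝ} (h5 : S5 g d mB MB MC mA k5) (h6 : S6 g d j mC MC mB MA k6) :
    k5 = 0 ∨ k6 = 0 := by
  rcases h5 with h5 | ⟨x, y, z, h, ⟨⟨a1, a2⟩, a3, a4⟩, _⟩
  · exact Or.inl h5
  rcases h6 with h6 | ⟨x', y', z', h', ⟨⟨b1, b2⟩, b3⟩, _⟩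
  · exact Or.inr h6
  exfalso
  rcases hg.2 _ _ _ _ _ _ h h' with ⟨c1, c2, c3⟩ | ⟨c1, c2, c3⟩ | ⟨c1, c2, c3⟩ <;> linarith

include hB in
lemma p14 {k1 k4 : ℝ} (h1 : S1 g d j mA MA mB MC k1) (h4 : S4 g d j mC MC mA MB k4)
    (n1 : k1 ≠ 0) (n4 : k4 ≠ 0) : k1 = 1 ∧ k4 = 1 := by
  rcases h1 with h1 | ⟨x, y, z, h, ⟨⟨a1, a2⟩, a3⟩, a4⟩
  · exact absurd h1 n1
  rcases h4 with h4 | ⟨x', y', z', h', ⟨⟨b1, b2⟩, b3⟩, b4⟩
  · exact absurd h4 n4
  have key := hg.2 _ _ _ _ _ _ h h'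
  constructor
  · rcases a4 with a4 | a4
    · exfalso
      have := a4.2
      rcases key with ⟨c1, c2, c3⟩ | ⟨c1, c2, c3⟩ | ⟨c1, c2, c3⟩ <;> linarith
    · exact a4.1
  · rcases b4 with b4 | b4
    · exfalso
      have := b4.2
      rcases key with ⟨c1, c2, c3⟩ | ⟨c1, c2, c3⟩ | ⟨c1, c2, c3⟩ <;> linarith
    · exact b4.1

lemma p16 {k1 k6 : ℝ} (h1 : S1 g d j mA MA mB MC k1) (h6 : S6 g d j mC MC mB MA k6)
    (n1 : k1 ≠ 0) (n6 : k6 ≠ 0) : k1 = 1 ∧ k6 = 1 := by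
  rcases h1 with h1 | ⟨x, y, z, h, ⟨⟨a1, a2⟩, a3⟩, a4⟩
  · exact absurd h1 n1
  rcases h6 with h6 | ⟨x', y', z', h', ⟨⟨b1, b2⟩, b3⟩, b4⟩
  · exact absurd h6 n6
  have key := hg.2 _ _ _ _ _ _ h h'
  constructor
  · rcases a4 with a4 | a4
    · exfalso
      have := a4.2
      rcases key with ⟨c1, c2, c3⟩ | ⟨c1, c2, c3⟩ | ⟨c1, c2, c3⟩ <;> linarith
    · exact a4.1
  · rcases b4 with b4 | b4
    · exfalso
      have := b4.2
      rcases key with ⟨c1, c2, c3⟩ | ⟨c1, c2, c3⟩ | ⟨c1, c2, c3⟩ <;> linarith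
    · exact b4.1

lemma p15 {k1 k5 : ℝ} (h1 : S1 g d j mA MA mB MC k1) (h5 : S5 g d mB MB MC mA k5)
    (n1 : k1 = 1) : k5 = 0 := by
  rcases h1 with h1 | ⟨x, y, z, h, ⟨⟨a1, a2⟩, a3⟩, a4⟩
  · rw [h1] at n1; norm_num at n1
  rcases h5 with h5 | ⟨x', y', z', h', ⟨⟨b1, b2⟩, b3, b4⟩, b5⟩
  · exact h5
  exfalso
  rcases a4 with a4 | a4
  · rw [a4.1] at n1; norm_num at n1
  have := a4.2
  rcases hg.2 _ _ _ _ _ _ h h' with ⟨c1, c2, c3⟩ | ⟨c1, c2, c3⟩ | ⟨c1, c2, c3⟩ <;> linarith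

lemma p15' {k1 k5 : ℝ} (h1 : S1 g d j mA MA mB MC k1) (h5 : S5 g d mB MB MC mA k5)
    (n1 : k1 = 2) : k5 ≤ 1 := by
  rcases h1 with h1 | ⟨x, y, z, h, ⟨⟨a1, a2⟩, a3⟩, a4⟩
  · rw [h1] at n1; norm_num at n1
  rcases h5 with h5 | ⟨x', y', z', h', ⟨⟨b1, b2⟩, b3, b4⟩, b5⟩
  · rw [h5]; norm_num
  rcases a4 with a4 | a4
  · rcases b5 with b5 | b5
    · exfalso
      have := a4.2
      have := b5.2
      rcases hg.2 _ _ _ _ _ _ h h' with ⟨c1, c2, c3⟩ | ⟨c1, c2, c3⟩ | ⟨c1, c2, c3⟩ <;> linarith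
    · exact le_of_eq b5.1
  · rw [a4.1] at n1; norm_num at n1

lemma p13' {k1 k3 : ℝ} (h1 : S1 g d j mA MA mB MC k1) (h3 : S3 g d mA MA MC mB k3)
    (n1 : k1 = 2) : k3 ≤ 1 := by
  rcases h1 with h1 | ⟨x, y, z, h, ⟨⟨a1, a2⟩, a3⟩, a4⟩
  · rw [h1] at n1; norm_num at n1
  rcases h3 with h3 | ⟨x', y', z', h', ⟨⟨b1, b2⟩, b3, b4⟩, b5⟩
  · rw [h3]; norm_num
  rcases a4 with a4 | a4
  · rcases b5 with b5 | b5
    · exfalso
      have := a4.2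
      have := b5.2
      rcases hg.2 _ _ _ _ _ _ h h' with ⟨c1, c2, c3⟩ | ⟨c1, c2, c3⟩ | ⟨c1, c2, c3⟩ <;> linarith
    · exact le_of_eq b5.1
  · rw [a4.1] at n1; norm_num at n1

include hB in
lemma p26 {k2 k6 : ℝ} (h2 : S2 g d j mB MB mA MC k2) (h6 : S6 g d j mC MC mB MA k6)
    (hA : mA ≤ MA) (n2 : k2 ≠ 0) (n6 : k6 ≠ 0) : k2 = 1 ∧ k6 = 1 := by
  rcases h2 with h2 | ⟨x, y, z, h, ⟨⟨a1, a2⟩, a3⟩, a4⟩
  · exact absurd h2 n2
  rcases h6 with h6 | ⟨x', y', z', h', ⟨⟨b1, b2⟩, b3⟩, b4⟩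
  · exact absurd h6 n6
  have key := hg.2 _ _ _ _ _ _ h h'
  constructor
  · rcases a4 with a4 | a4
    · exfalso
      have := a4.2
      rcases key with ⟨c1, c2, c3⟩ | ⟨c1, c2, c3⟩ | ⟨c1, c2, c3⟩ <;> linarith
    · exact a4.1
  · rcases b4 with b4 | b4
    · exfalso
      have := b4.2
      rcases key with ⟨c1, c2, c3⟩ | ⟨c1, c2, c3⟩ | ⟨c1, c2, c3⟩ <;> linarith
    · exact b4.1

lemma p24 {k2 k4 : ℝ} (h2 : S2 g d j mB MB mA MC k2) (h4 : S4 g d j mC MC mA MB k4)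
    (n2 : k2 ≠ 0) (n4 : k4 ≠ 0) : k2 = 1 ∧ k4 = 1 := by
  rcases h2 with h2 | ⟨x, y, z, h, ⟨⟨a1, a2⟩, a3⟩, a4⟩
  · exact absurd h2 n2
  rcases h4 with h4 | ⟨x', y', z', h', ⟨⟨b1, b2⟩, b3⟩, b4⟩
  · exact absurd h4 n4
  have key := hg.2 _ _ _ _ _ _ h h'
  constructor
  · rcases a4 with a4 | a4
    · exfalso
      have := a4.2
      rcases key with ⟨c1, c2, c3⟩ | ⟨c1, c2, c3⟩ | ⟨c1, c2, c3⟩ <;> linarith
    · exact a4.1
  · rcases b4 with b4 | b4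
    · exfalso
      have := b4.2
      rcases key with ⟨c1, c2, c3⟩ | ⟨c1, c2, c3⟩ | ⟨c1, c2, c3⟩ <;> linarith
    · exact b4.1

lemma p23 {k2 k3 : ℝ} (h2 : S2 g d j mB MB mA MC k2) (h3 : S3 g d mA MA MC mB k3)
    (n2 : k2 = 1) : k3 = 0 := by
  rcases h2 with h2 | ⟨x, y, z, h, ⟨⟨a1, a2⟩, a3⟩, a4⟩
  · rw [h2] at n2; norm_num at n2
  rcases h3 with h3 | ⟨x', y', z', h', ⟨⟨b1, b2⟩, b3, b4⟩, b5⟩
  · exact h3
  exfalso
  rcases a4 with a4 | a4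
  · rw [a4.1] at n2; norm_num at n2
  have := a4.2
  rcases hg.2 _ _ _ _ _ _ h h' with ⟨c1, c2, c3⟩ | ⟨c1, c2, c3⟩ | ⟨c1, c2, c3⟩ <;> linarith

lemma p23' {k2 k3 : ℝ} (h2 : S2 g d j mB MB mA MC k2) (h3 : S3 g d mA MA MC mB k3)
    (n2 : k2 = 2) : k3 ≤ 1 := by
  rcases h2 with h2 | ⟨x, y, z, h, ⟨⟨a1, a2⟩, a3⟩, a4⟩
  · rw [h2] at n2; norm_num at n2
  rcases h3 with h3 | ⟨x', y', z', h', ⟨⟨b1, b2⟩, b3, b4⟩, b5⟩
  · rw [h3]; norm_num
  rcases a4 with a4 | a4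
  · rcases b5 with b5 | b5
    · exfalso
      have := a4.2
      have := b5.2
      rcases hg.2 _ _ _ _ _ _ h h' with ⟨c1, c2, c3⟩ | ⟨c1, c2, c3⟩ | ⟨c1, c2, c3⟩ <;> linarith
    · exact le_of_eq b5.1
  · rw [a4.1] at n2; norm_num at n2

lemma p25' {k2 k5 : ℝ} (h2 : S2 g d j mB MB mA MC k2) (h5 : S5 g d mB MB MC mA k5)
    (n2 : k2 = 2) : k5 ≤ 1 := by
  rcases h2 with h2 | ⟨x, y, z, h, ⟨⟨a1, a2⟩, a3⟩, a4⟩
  · rw [h2] at n2; norm_num at n2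
  rcases h5 with h5 | ⟨x', y', z', h', ⟨⟨b1, b2⟩, b3, b4⟩, b5⟩
  · rw [h5]; norm_num
  rcases a4 with a4 | a4
  · rcases b5 with b5 | b5
    · exfalso
      have := a4.2
      have := b5.2
      rcases hg.2 _ _ _ _ _ _ h h' with ⟨c1, c2, c3⟩ | ⟨c1, c2, c3⟩ | ⟨c1, c2, c3⟩ <;> linarith
    · exact le_of_eq b5.1
  · rw [a4.1] at n2; norm_num at n2

include hA hB in
lemma p46 {k4 k6 : ℝ} (h4 : S4 g d j mC MC mA MB k4) (h6 : S6 g d j mC MC mB MA k6) :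
    k4 + k6 ≤ 3 := by
  rcases h4 with h4 | ⟨x, y, z, h, ⟨⟨a1, a2⟩, a3⟩, a4⟩
  · rcases h6.vals with h | h | h <;> rw [h4, h] <;> norm_num
  rcases h6 with h6 | ⟨x', y', z', h', ⟨⟨b1, b2⟩, b3⟩, b4⟩
  · rcases a4 with a4 | a4 <;> rw [h6, a4.1] <;> norm_num
  rcases a4 with a4 | a4
  · rcases b4 with b4 | b4
    · exfalso
      have := a4.2
      have := b4.2
      rcases hg.2 _ _ _ _ _ _ h h' with ⟨c1, c2, c3⟩ | ⟨c1, c2, c3⟩ | ⟨c1, c2, c3⟩ <;> linarith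
    · rw [a4.1, b4.1]; norm_num
  · rcases b4 with b4 | b4 <;> rw [a4.1, b4.1] <;> norm_num

include hA hB in
/-- the layer lemma -/
theorem layer {k1 k2 k3 k4 k5 k6 : ℝ} (h1 : S1 g d j mA MA mB MC k1)
    (h2 : S2 g d j mB MB mA MC k2) (h3 : S3 g d mA MA MC mB k3) (h4 : S4 g d j mC MC mA MB k4)
    (h5 : S5 g d mB MB MC mA k5) (h6 : S6 g d j mC MC mB MA k6) :
    k1 + k2 + k4 + k6 + (k3 + k5) / 2 ≤ 3 := by
  have v3 := h3.vals
  have v4 := h4.vals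
  have v5 := h5.vals
  have v6 := h6.vals
  have l3 : k3 ≤ 2 := by rcases v3 with h | h | h <;> rw [h] <;> norm_num
  have l5 : k5 ≤ 2 := by rcases v5 with h | h | h <;> rw [h] <;> norm_num
  have l4 : k4 ≤ 2 := by rcases v4 with h | h | h <;> rw [h] <;> norm_num
  have l6 : k6 ≤ 2 := by rcases v6 with h | h | h <;> rw [h] <;> norm_num
  have e34 := ex34 hg hd hj0 hjd h3 h4
  have e56 := ex56 hg hd hj0 hjd h5 h6
  by_cases n1 : k1 = 0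
  · by_cases n2 : k2 = 0
    · have e46 := p46 hg hd hj0 hjd hA hB h4 h6
      by_cases n4 : k4 = 0
      · by_cases n6 : k6 = 0
        · linarith
        · have n5 : k5 = 0 := by
            rcases e56 with h | h
            · exact h
            · exact absurd h n6
          linarith
      · have n3 : k3 = 0 := by
          rcases e34 with h | h
          · exact h
          · exact absurd h n4
        by_cases n6 : k6 = 0
        · linarith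
        · have n5 : k5 = 0 := by
            rcases e56 with h | h
            · exact h
            · exact absurd h n6
          linarith
    · rcases h2.vals with v2 | v2 | v2
      · exact absurd v2 n2
      · have n3 := p23 hg hd hj0 hjd h2 h3 v2
        have b4 : k4 ≤ 1 := by
          by_cases n4 : k4 = 0
          · rw [n4]; norm_num
          · exact le_of_eq (p24 hg hd hj0 hjd h2 h4 n2 n4).2
        by_cases n6 : k6 = 0
        · linarith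
        · have b6 := (p26 hg hd hj0 hjd hB h2 h6 hA n2 n6).2
          have n5 : k5 = 0 := by
            rcases e56 with h | h
            · exact h
            · exact absurd h n6
          linarith
      · have b3 := p23' hg hd hj0 hjd h2 h3 v2
        have b5 := p25' hg hd hj0 hjd h2 h5 v2
        have n4 : k4 = 0 := by
          by_contra n4
          have := (p24 hg hd hj0 hjd h2 h4 n2 n4).1
          rw [v2] at this
          norm_num at this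
        have n6 : k6 = 0 := by
          by_contra n6
          have := (p26 hg hd hj0 hjd hB h2 h6 hA n2 n6).1
          rw [v2] at this
          norm_num at this
        linarith
  · have n2 : k2 = 0 := by
      rcases ex12 hg hd hj0 hjd h1 h2 with h | h
      · exact absurd h n1
      · exact h
    rcases h1.vals with v1 | v1 | v1
    · exact absurd v1 n1
    · have n5 := p15 hg hd hj0 hjd h1 h5 v1
      have b6 : k6 ≤ 1 := by
        by_cases n6 : k6 = 0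
        · rw [n6]; norm_num
        · exact le_of_eq (p16 hg hd hj0 hjd h1 h6 n1 n6).2
      by_cases n4 : k4 = 0
      · linarith
      · have b4 := (p14 hg hd hj0 hjd hB h1 h4 n1 n4).2
        have n3 : k3 = 0 := by
          rcases e34 with h | h
          · exact h
          · exact absurd h n4
        linarith
    · have b3 := p13' hg hd hj0 hjd h1 h3 v1
      have b5 := p15' hg hd hj0 hjd h1 h5 v1
      have n4 : k4 = 0 := by
        by_contra n4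
        have := (p14 hg hd hj0 hjd hB h1 h4 n1 n4).1
        rw [v1] at this
        norm_num at this
      have n6 : k6 = 0 := by
        by_contra n6
        have := (p16 hg hd hj0 hjd h1 h6 n1 n6).1
        rw [v1] at this
        norm_num at this
      linarith

end pairs

end Pool.Agent.Blk
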