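import Pool.Agent.Helper20.Blk.Pencil3

/-!
`k` lines that are parallel or concurrent: the harmonic bound.
-/

namespace Pool.Agent.Blk

open Finset Classical

/-- blocking is preserved by injective affine maps -/
lemma Blocks.map {P Q : Finset (ℝ × ℝ)} (h : Blocks P Q) (T : (ℝ × ℝ) →ᵃ[ℝ] (ℝ × ℝ))
    (hT : Function.Injective T) : Blocks (P.image T) (Q.image T) := by
  refine ⟨(Finset.disjoint_image hT).mpr h.1, ?_⟩
  intro p hp q hq hne
  obtain ⟨p', hp', rfl⟩ := Finset.mem_image.mp hp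
  obtain ⟨q', hq', rfl⟩ := Finset.mem_image.mp hq
  have hne' : p' ≠ q' := fun h => hne (by rw [h])
  obtain ⟨x, hx, hs⟩ := h.2 p' hp' q' hq' hne'
  obtain ⟨r, hr⟩ := mem_affineSpan_pair_iff_exists_lineMap_eq.mp hs
  refine ⟨T x, Finset.mem_image_of_mem _ hx, ?_⟩
  rw [← hr, AffineMap.apply_lineMap]
  exact AffineMap.lineMap_mem_affineSpan_pair _ _ _

/-- the line through `b` in the direction `u` -/
def ln (b u : ℝ × ℝ) : Set (ℝ × ℝ) := {x | ∃ t : ℝ, x = b + t • u}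

lemma sq_ne {d : ℝ × ℝ} (hd : d ≠ 0) : d.1 ^ 2 + d.2 ^ 2 ≠ 0 := by
  intro h
  apply hd
  have h1 : d.1 = 0 := by nlinarith [sq_nonneg d.1, sq_nonneg d.2]
  have h2 : d.2 = 0 := by nlinarith [sq_nonneg d.1, sq_nonneg d.2]
  exact Prod.ext h1 h2

/-- rotation and scaling that makes the direction `d` horizontal -/
noncomputable def rot (d : ℝ × ℝ) : (ℝ × ℝ) →ₗ[ℝ] (ℝ × ℝ) where
  toFun p := (d.1 * p.1 + d.2 * p.2, d.1 * p.2 - d.2 * p.1)
  map_add' p q := by
    apply Prod.ext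
    · show d.1 * (p.1 + q.1) + d.2 * (p.2 + q.2) = _
      show _ = (d.1 * p.1 + d.2 * p.2) + (d.1 * q.1 + d.2 * q.2)
      ring
    · show d.1 * (p.2 + q.2) - d.2 * (p.1 + q.1) = (d.1 * p.2 - d.2 * p.1) + (d.1 * q.2 - d.2 * q.1)
      ring
  map_smul' c p := by
    apply Prod.ext
    · show d.1 * (c * p.1) + d.2 * (c * p.2) = c * (d.1 * p.1 + d.2 * p.2)
      ring
    · show d.1 * (c * p.2) - d.2 * (c * p.1) = c * (d.1 * p.2 - d.2 * p.1)
      ring

lemma rot_inj {d : ℝ × ℝ} (hd : d ≠ 0) : Function.Injective (rot d) := by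
  intro p q h
  have h1 : d.1 * p.1 + d.2 * p.2 = d.1 * q.1 + d.2 * q.2 := congrArg Prod.fst h
  have h2 : d.1 * p.2 - d.2 * p.1 = d.1 * q.2 - d.2 * q.1 := congrArg Prod.snd h
  have hs := sq_ne hd
  apply Prod.ext
  · apply mul_left_cancel₀ hs
    linear_combination d.1 * h1 - d.2 * h2
  · apply mul_left_cancel₀ hs
    linear_combination d.2 * h1 + d.1 * h2

/-- parallel lines -/
theorem lines_par {k : ℕ} (hk : 2 ≤ k) (b u : Fin k → ℝ × ℝ) (hu : ∀ i, u i ≠ 0)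
    (hdist : ∀ i j, i ≠ j → ln (b i) (u i) ≠ ln (b j) (u j)) {P Q : Finset (ℝ × ℝ)}
    (hpar : ∀ i j, ∃ s : ℝ, u j = s • u i) (hP : ∀ p ∈ P, ∃ i, p ∈ ln (b i) (u i))
    (hne : ∀ i, ∃ p ∈ P, p ∈ ln (b i) (u i)) (hb : Blocks P Q) :
    Hn (k - 1) * ((P.card : ℝ) - 2 * k) ≤ ((k - 1 : ℕ) : ℝ) * (Q.card : ℝ) := by
  set i0 : Fin k := ⟨0, by omega⟩
  set d := u i0 with hdd
  have hd : d ≠ 0 := hu i0
  haveI : Nonempty (Fin k) := ⟨i0⟩
  set T : (ℝ × ℝ) →ᵃ[ℝ] (ℝ × ℝ) := (rot d).toAffineMap with hTdef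
  have hTv : ∀ p, T p = (d.1 * p.1 + d.2 * p.2, d.1 * p.2 - d.2 * p.1) := fun p => rfl
  have hT : Function.Injective T := fun p q h => rot_inj hd h
  have hline : ∀ i p, p ∈ ln (b i) (u i) → (T p).2 = (T (b i)).2 := by
    rintro i p ⟨t, rfl⟩
    obtain ⟨s, hs⟩ := hpar i0 i
    rw [hTv, hTv, hs]
    show d.1 * ((b i).2 + t * (s * d.2)) - d.2 * ((b i).1 + t * (s * d.1)) =
      d.1 * (b i).2 - d.2 * (b i).1
    ring
  have hline' : ∀ i p, (T p).2 = (T (b i)).2 → p ∈ ln (b i) (u i) := by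
    intro i p hp
    obtain ⟨s, hs⟩ := hpar i i0
    have hp' : d.1 * p.2 - d.2 * p.1 = d.1 * (b i).2 - d.2 * (b i).1 := hp
    have hsq := sq_ne hd
    refine ⟨(d.1 * (p.1 - (b i).1) + d.2 * (p.2 - (b i).2)) / (d.1 ^ 2 + d.2 ^ 2) * s, ?_⟩
    have e' : ((d.1 * (p.1 - (b i).1) + d.2 * (p.2 - (b i).2)) / (d.1 ^ 2 + d.2 ^ 2) * s) • u i
        = ((d.1 * (p.1 - (b i).1) + d.2 * (p.2 - (b i).2)) / (d.1 ^ 2 + d.2 ^ 2)) • d := by
      have hd2 : d = s • u i := hs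
      rw [mul_smul, ← hd2]
    rw [e']
    apply Prod.ext
    · show p.1 = (b i).1 + (d.1 * (p.1 - (b i).1) + d.2 * (p.2 - (b i).2)) /
        (d.1 ^ 2 + d.2 ^ 2) * d.1
      rw [← sub_eq_iff_eq_add', div_mul_eq_mul_div, eq_div_iff hsq]
      linear_combination (-d.2) * hp'
    · show p.2 = (b i).2 + (d.1 * (p.1 - (b i).1) + d.2 * (p.2 - (b i).2)) /
        (d.1 ^ 2 + d.2 ^ 2) * d.2
      rw [← sub_eq_iff_eq_add', div_mul_eq_mul_div, eq_div_iff hsq]
      linear_combination d.1 * hp'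
  have hh : Function.Injective (fun i => (T (b i)).2) := by
    intro i j hij
    by_contra hne'
    apply hdist i j hne'
    ext p
    constructor
    · intro hp
      exact hline' j p ((hline i p hp).trans hij)
    · intro hp
      exact hline' i p ((hline j p hp).trans hij.symm)
  have key := par_harm (P := P.image T) (Q := Q.image T) hh (by
      intro p hp
      obtain ⟨p', hp', rfl⟩ := Finset.mem_image.mp hp
      obtain ⟨i, hi⟩ := hP p' hp'
      exact ⟨i, hline i p' hi⟩) (by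
      intro i
      obtain ⟨p, hp, hi⟩ := hne i
      exact ⟨T p, Finset.mem_image_of_mem _ hp, hline i p hi⟩) (hb.map T hT)
  rw [Finset.card_image_of_injective _ hT, Finset.card_image_of_injective _ hT,
    Fintype.card_fin] at key
  exact key

/-- concurrent lines -/
theorem lines_conc {k : ℕ} (hk : 2 ≤ k) (b u : Fin k → ℝ × ℝ) (hu : ∀ i, u i ≠ 0)
    (hdist : ∀ i j, i ≠ j → ln (b i) (u i) ≠ ln (b j) (u j)) {P Q : Finset (ℝ × ℝ)}
    {c : ℝ × ℝ} (hcP : c ∉ P) (hc : ∀ i, c ∈ ln (b i) (u i))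
    (hP : ∀ p ∈ P, ∃ i, p ∈ ln (b i) (u i))
    (hne : ∀ i, ∃ p ∈ P, p ∈ ln (b i) (u i)) (hb : Blocks P Q) :
    Hn (k - 1) * ((P.card : ℝ) - 2 * k) ≤ ((k - 1 : ℕ) : ℝ) * (Q.card : ℝ) := by
  haveI : Nontrivial (Fin k) := Fin.nontrivial_iff_two_le.mpr hk
  have hln : ∀ i p, p ∈ ln (b i) (u i) ↔ ∃ t : ℝ, p = c + t • u i := by
    intro i p
    obtain ⟨s, hs⟩ := hc i
    constructor
    · rintro ⟨t, rfl⟩
      refine ⟨t - s, ?_⟩
      rw [hs, add_assoc, ← add_smul]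
      congr 2
      ring
    · rintro ⟨t, rfl⟩
      refine ⟨s + t, ?_⟩
      rw [hs, add_assoc, ← add_smul]
  have ind : ∀ i j, i ≠ j → (u i).1 * (u j).2 - (u j).1 * (u i).2 ≠ 0 := by
    intro i j hij he
    apply hdist i j hij
    have hi := sq_ne (hu i)
    have hj := sq_ne (hu j)
    ext p
    rw [hln, hln]
    constructor
    · rintro ⟨t, rfl⟩
      refine ⟨t * ((u i).1 * (u j).1 + (u i).2 * (u j).2) / ((u j).1 ^ 2 + (u j).2 ^ 2), ?_⟩
      congr 1
      apply Prod.ext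
      · show t * (u i).1 = t * ((u i).1 * (u j).1 + (u i).2 * (u j).2) /
          ((u j).1 ^ 2 + (u j).2 ^ 2) * (u j).1
        rw [div_mul_eq_mul_div, eq_div_iff hj]
        linear_combination (t * (u j).2) * he
      · show t * (u i).2 = t * ((u i).1 * (u j).1 + (u i).2 * (u j).2) /
          ((u j).1 ^ 2 + (u j).2 ^ 2) * (u j).2
        rw [div_mul_eq_mul_div, eq_div_iff hj]
        linear_combination (-t * (u j).1) * he
    · rintro ⟨t, rfl⟩
      refine ⟨t * ((u i).1 * (u j).1 + (u i).2 * (u j).2) / ((u i).1 ^ 2 + (u i).2 ^ 2), ?_⟩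
      congr 1
      apply Prod.ext
      · show t * (u j).1 = t * ((u i).1 * (u j).1 + (u i).2 * (u j).2) /
          ((u i).1 ^ 2 + (u i).2 ^ 2) * (u i).1
        rw [div_mul_eq_mul_div, eq_div_iff hi]
        linear_combination (-t * (u i).2) * he
      · show t * (u j).2 = t * ((u i).1 * (u j).1 + (u i).2 * (u j).2) /
          ((u i).1 ^ 2 + (u i).2 ^ 2) * (u i).2
        rw [div_mul_eq_mul_div, eq_div_iff hi]
        linear_combination (t * (u i).1) * he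
  set T : (ℝ × ℝ) →ᵃ[ℝ] (ℝ × ℝ) := (AffineEquiv.constVAdd ℝ (ℝ × ℝ) (-c)).toAffineMap
    with hTdef
  have hTv : ∀ p, T p = -c + p := fun p => rfl
  have hT : Function.Injective T := by
    intro p q h
    rw [hTv, hTv] at h
    exact add_left_cancel h
  have hray : ∀ i p, p ∈ P → p ∈ ln (b i) (u i) → ∃ r : ℝ, r ≠ 0 ∧ T p = r⁻¹ • u i := by
    intro i p hp hpi
    obtain ⟨t, ht⟩ := (hln i p).mp hpi
    have ht0 : t ≠ 0 := by
      rintro rfl
      rw [zero_smul, add_zero] at ht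
      exact hcP (ht ▸ hp)
    refine ⟨t⁻¹, inv_ne_zero ht0, ?_⟩
    rw [hTv, inv_inv, ht, neg_add_cancel_left]
  have key := conc_harm (P := P.image T) (Q := Q.image T) ind (by
      intro p hp
      obtain ⟨p', hp', rfl⟩ := Finset.mem_image.mp hp
      obtain ⟨i, hi⟩ := hP p' hp'
      exact ⟨i, hray i p' hp' hi⟩) (by
      intro i
      obtain ⟨p, hp, hi⟩ := hne i
      exact ⟨T p, Finset.mem_image_of_mem _ hp, hray i p hp hi⟩) (hb.map T hT)
  rw [Finset.card_image_of_injective _ hT, Finset.card_image_of_injective _ hT,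
    Fintype.card_fin] at key
  exact key

end Pool.Agent.Blk
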