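import Pool.Agent.Helper20.Blk.Primal2

/-!
Three rows in a pencil of lines (parallel or concurrent lines), in a projective coordinate.
-/

namespace Pool.Agent.Blk

open Finset Classical

/-- the affine function `l.1 x + l.2.1 y + l.2.2` -/
def ev (l : ℝ × ℝ × ℝ) (p : ℝ × ℝ) : ℝ := l.1 * p.1 + l.2.1 * p.2 + l.2.2

/-- the determinant of three coefficient vectors -/
def det3 (l m n : ℝ × ℝ × ℝ) : ℝ :=
  l.1 * (m.2.1 * n.2.2 - m.2.2 * n.2.1) - l.2.1 * (m.1 * n.2.2 - m.2.2 * n.1) +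
    l.2.2 * (m.1 * n.2.1 - m.2.1 * n.1)

lemma det3_point {l m n : ℝ × ℝ × ℝ} (h : det3 l m n ≠ 0) {p q : ℝ × ℝ} {c : ℝ} (hc : c ≠ 0)
    (h1 : ev l p = c * ev l q) (h2 : ev m p = c * ev m q) (h3 : ev n p = c * ev n q) : p = q := by
  unfold ev at h1 h2 h3
  unfold det3 at h
  have e3 : (1 - c) * (l.1 * (m.2.1 * n.2.2 - m.2.2 * n.2.1) -
      l.2.1 * (m.1 * n.2.2 - m.2.2 * n.1) + l.2.2 * (m.1 * n.2.1 - m.2.1 * n.1)) = 0 := by
    linear_combination (m.1 * n.2.1 - m.2.1 * n.1) * h1 - (l.1 * n.2.1 - l.2.1 * n.1) * h2 +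
      (l.1 * m.2.1 - l.2.1 * m.1) * h3
  have hc1 : c = 1 := by
    rcases mul_eq_zero.mp e3 with h4 | h4
    · linarith
    · exact absurd h4 h
  subst hc1
  apply Prod.ext
  · have e1 : (p.1 - q.1) * (l.1 * (m.2.1 * n.2.2 - m.2.2 * n.2.1) -
        l.2.1 * (m.1 * n.2.2 - m.2.2 * n.1) + l.2.2 * (m.1 * n.2.1 - m.2.1 * n.1)) = 0 := by
      linear_combination (m.2.1 * n.2.2 - m.2.2 * n.2.1) * h1 -
        (l.2.1 * n.2.2 - l.2.2 * n.2.1) * h2 + (l.2.1 * m.2.2 - l.2.2 * m.2.1) * h3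
    rcases mul_eq_zero.mp e1 with h4 | h4
    · linarith
    · exact absurd h4 h
  · have e1 : (p.2 - q.2) * (l.1 * (m.2.1 * n.2.2 - m.2.2 * n.2.1) -
        l.2.1 * (m.1 * n.2.2 - m.2.2 * n.1) + l.2.2 * (m.1 * n.2.1 - m.2.1 * n.1)) = 0 := by
      linear_combination (-(m.1 * n.2.2 - m.2.2 * n.1)) * h1 +
        (l.1 * n.2.2 - l.2.2 * n.1) * h2 - (l.1 * m.2.2 - l.2.2 * m.1) * h3
    rcases mul_eq_zero.mp e1 with h4 | h4
    · linarith
    · exact absurd h4 h

lemma det3_zero {l m n : ℝ × ℝ × ℝ} (h : det3 l m n ≠ 0) {p : ℝ × ℝ}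
    (h1 : ev l p = 0) (h2 : ev m p = 0) : ev n p ≠ 0 := by
  intro h3
  unfold ev at h1 h2 h3
  unfold det3 at h
  apply h
  linear_combination (m.1 * n.2.1 - m.2.1 * n.1) * h1 - (l.1 * n.2.1 - l.2.1 * n.1) * h2 +
      (l.1 * m.2.1 - l.2.1 * m.1) * h3

section

variable {l : Fin 3 → ℝ × ℝ × ℝ} {t : ℝ × ℝ × ℝ} {P Q : Finset (ℝ × ℝ)}

/-- negated projective coordinates of the `i`-th row -/
noncomputable def Xq (P : Finset (ℝ × ℝ)) (l : Fin 3 → ℝ × ℝ × ℝ) (t : ℝ × ℝ × ℝ) (i : Fin 3) :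
    Finset ℝ := (P.filter (fun p => ev (l i) p = 0)).image (fun p => -(ev t p / ev (l (i + 1)) p))

lemma sum_ev (h1 : l 0 + l 1 + l 2 = 0) (p : ℝ × ℝ) :
    ev (l 0) p + ev (l 1) p + ev (l 2) p = 0 := by
  have e1 : (l 0).1 + (l 1).1 + (l 2).1 = 0 := congrArg Prod.fst h1
  have e2 : (l 0).2.1 + (l 1).2.1 + (l 2).2.1 = 0 := congrArg (fun x => x.2.1) h1
  have e3 : (l 0).2.2 + (l 1).2.2 + (l 2).2.2 = 0 := congrArg (fun x => x.2.2) h1
  unfold ev
  linear_combination p.1 * e1 + p.2 * e2 + e3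

/-- the point is determined by its row and its coordinate -/
lemma coord_inj (h1 : l 0 + l 1 + l 2 = 0) (hdet : det3 (l 0) (l 1) t ≠ 0) {i : Fin 3}
    {p q : ℝ × ℝ} (hp : ev (l i) p = 0) (hq : ev (l i) q = 0)
    (hp0 : ev (l (i + 1)) p ≠ 0) (hq0 : ev (l (i + 1)) q ≠ 0)
    (he : ev t p / ev (l (i + 1)) p = ev t q / ev (l (i + 1)) q) : p = q := by
  have sp := sum_ev h1 p
  have sq := sum_ev h1 q
  have hc : ev (l (i + 1)) p / ev (l (i + 1)) q ≠ 0 := div_ne_zero hp0 hq0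
  have ht : ev t p = ev (l (i + 1)) p / ev (l (i + 1)) q * ev t q := by
    rw [div_eq_div_iff hp0 hq0] at he
    rw [div_mul_eq_mul_div, eq_div_iff hq0]
    linarith
  have hb : ev (l (i + 1)) p = ev (l (i + 1)) p / ev (l (i + 1)) q * ev (l (i + 1)) q := by
    rw [div_mul_cancel₀ _ hq0]
  have ha : ev (l i) p = ev (l (i + 1)) p / ev (l (i + 1)) q * ev (l i) q := by
    rw [hp, hq, mul_zero]
  refine det3_point hdet hc ?_ ?_ ht
  · fin_cases i
    · exact ha
    · show ev (l 0) p = ev (l 2) p / ev (l 2) q * ev (l 0) q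
      have hp' : ev (l 1) p = 0 := hp
      have hq' : ev (l 1) q = 0 := hq
      have hb' : ev (l 2) p = ev (l 2) p / ev (l 2) q * ev (l 2) q := hb
      have e1 : ev (l 0) p = - ev (l 2) p := by linarith
      have e2 : ev (l 0) q = - ev (l 2) q := by linarith
      rw [e1, e2]
      linarith
    · exact hb
  · fin_cases i
    · exact hb
    · exact ha
    · show ev (l 1) p = ev (l 0) p / ev (l 0) q * ev (l 1) q
      have hp' : ev (l 2) p = 0 := hp
      have hq' : ev (l 2) q = 0 := hq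
      have hb' : ev (l 0) p = ev (l 0) p / ev (l 0) q * ev (l 0) q := hb
      have e1 : ev (l 1) p = - ev (l 0) p := by linarith
      have e2 : ev (l 1) q = - ev (l 0) q := by linarith
      rw [e1, e2]
      linarith

/-- the functionals `x`, `y`, `-x-y` -/
def fa (i : Fin 3) : ℝ := if i = 0 then 1 else if i = 1 then 0 else -1
/-- the functionals `x`, `y`, `-x-y` -/
def fb (i : Fin 3) : ℝ := if i = 0 then 0 else if i = 1 then 1 else -1

lemma fn0 (μ : ℝ × ℝ) : fn fa fb 0 μ = μ.1 := by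
  have e1 : fa 0 = 1 := by unfold fa; rw [if_pos rfl]
  have e2 : fb 0 = 0 := by unfold fb; rw [if_pos rfl]
  unfold fn; rw [e1, e2]; ring

lemma fn1 (μ : ℝ × ℝ) : fn fa fb 1 μ = μ.2 := by
  have e1 : fa 1 = 0 := by unfold fa; rw [if_neg (by decide), if_pos rfl]
  have e2 : fb 1 = 1 := by unfold fb; rw [if_neg (by decide), if_pos rfl]
  unfold fn; rw [e1, e2]; ring

lemma fn2 (μ : ℝ × ℝ) : fn fa fb 2 μ = -μ.1 - μ.2 := by
  have e1 : fa 2 = -1 := by unfold fa; rw [if_neg (by decide), if_neg (by decide)]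
  have e2 : fb 2 = -1 := by unfold fb; rw [if_neg (by decide), if_neg (by decide)]
  unfold fn; rw [e1, e2]; ring

lemma fab_ind : ∀ i j : Fin 3, i ≠ j → fa i * fb j - fa j * fb i ≠ 0 := by
  intro i j hij
  fin_cases i <;> fin_cases j <;> first | exact absurd rfl hij | (simp [fa, fb])

/-- the lines of the dual plane through the blocker -/
def Gq (l : Fin 3 → ℝ × ℝ × ℝ) (t : ℝ × ℝ × ℝ) (q μ : ℝ × ℝ) : Prop :=
  ev t q - μ.2 * ev (l 0) q + μ.1 * ev (l 1) q = 0

lemma mem_Xq {i : Fin 3} {u : ℝ} (hu : u ∈ Xq P l t i) :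
    ∃ p ∈ P, ev (l i) p = 0 ∧ u = -(ev t p / ev (l (i + 1)) p) := by
  unfold Xq at hu
  obtain ⟨p, hp, rfl⟩ := Finset.mem_image.mp hu
  exact ⟨p, (Finset.mem_filter.mp hp).1, (Finset.mem_filter.mp hp).2, rfl⟩

lemma gq_green (h1 : l 0 + l 1 + l 2 = 0) (hdet : det3 (l 0) (l 1) t ≠ 0)
    (h0 : ∀ p ∈ P, ∀ i, ev (l i) p = 0 → ev (l (i + 1)) p ≠ 0) (hb : Blocks P Q)
    {q : ℝ × ℝ} (hq : q ∈ Q) : GrK fa fb (Xq P l t) (Gq l t q) := by
  have sq := sum_ev h1 q
  have main : ∀ i, ev (l i) q = 0 → ev (l (i + 1)) q ≠ 0 →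
      -(ev t q / ev (l (i + 1)) q) ∉ Xq P l t i := by
    intro i hi hi1 hX
    obtain ⟨p, hp, hpi, he⟩ := mem_Xq hX
    have := coord_inj h1 hdet hi hpi hi1 (h0 p hp i hpi) (neg_injective he)
    rw [this] at hq
    exact (Finset.disjoint_left.mp hb.1) hp hq
  by_cases hz1 : ev (l 1) q = 0
  · by_cases hz0 : ev (l 0) q = 0
    · have hne := det3_zero hdet hz0 hz1
      refine ⟨0, (1, 1), ?_, ?_⟩
      · intro μ hμ
        exfalso
        apply hne
        have : ev t q - μ.2 * ev (l 0) q + μ.1 * ev (l 1) q = 0 := hμ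
        rw [hz0, hz1] at this
        linarith
      · intro i hi
        exfalso
        fin_cases i
        · have h2 : fn fa fb 0 ((1 : ℝ), (1 : ℝ)) = 0 := hi
          rw [fn0] at h2
          norm_num at h2
        · have h2 : fn fa fb 1 ((1 : ℝ), (1 : ℝ)) = 0 := hi
          rw [fn1] at h2
          norm_num at h2
        · have h2 : fn fa fb 2 ((1 : ℝ), (1 : ℝ)) = 0 := hi
          rw [fn2] at h2
          norm_num at h2
    · refine ⟨(0, ev t q / ev (l 0) q), (ev (l 0) q, ev (l 1) q), ?_, ?_⟩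
      · intro μ hμ
        have hμ' : ev t q - μ.2 * ev (l 0) q + μ.1 * ev (l 1) q = 0 := hμ
        refine ⟨μ.1 / ev (l 0) q, Prod.ext ?_ ?_⟩
        · show μ.1 = 0 + μ.1 / ev (l 0) q * ev (l 0) q
          rw [div_mul_cancel₀ _ hz0, zero_add]
        · show μ.2 = ev t q / ev (l 0) q + μ.1 / ev (l 0) q * ev (l 1) q
          rw [div_mul_eq_mul_div, ← add_div, eq_div_iff hz0]
          linarith
      · intro i hi
        fin_cases i
        · exfalso
          have h2 : fn fa fb 0 (ev (l 0) q, ev (l 1) q) = 0 := hi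
          rw [fn0] at h2
          exact hz0 h2
        · have hne2 : ev (l 2) q ≠ 0 := by
            intro h; apply hz0; linarith
          have := main 1 hz1 hne2
          show fn fa fb 1 (0, ev t q / ev (l 0) q) ∉ Xq P l t 1
          rw [fn1]
          have e : -(ev t q / ev (l (1 + 1)) q) = ev t q / ev (l 0) q := by
            show -(ev t q / ev (l 2) q) = ev t q / ev (l 0) q
            have : ev (l 2) q = - ev (l 0) q := by linarith
            rw [this, div_neg, neg_neg]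
          rw [e] at this
          exact this
        · exfalso
          have h2 : fn fa fb 2 (ev (l 0) q, ev (l 1) q) = 0 := hi
          rw [fn2] at h2
          have h3 : - ev (l 0) q - ev (l 1) q = 0 := h2
          apply hz0; linarith
  · refine ⟨(-(ev t q / ev (l 1) q), 0), (ev (l 0) q, ev (l 1) q), ?_, ?_⟩
    · intro μ hμ
      have hμ' : ev t q - μ.2 * ev (l 0) q + μ.1 * ev (l 1) q = 0 := hμ
      refine ⟨μ.2 / ev (l 1) q, Prod.ext ?_ ?_⟩
      · show μ.1 = -(ev t q / ev (l 1) q) + μ.2 / ev (l 1) q * ev (l 0) q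
        rw [div_mul_eq_mul_div, ← neg_div, ← add_div, eq_div_iff hz1]
        linarith
      · show μ.2 = 0 + μ.2 / ev (l 1) q * ev (l 1) q
        rw [div_mul_cancel₀ _ hz1, zero_add]
    · intro i hi
      fin_cases i
      · have h2 : ev (l 0) q = 0 := by
          have h2 : fn fa fb 0 (ev (l 0) q, ev (l 1) q) = 0 := hi
          rw [fn0] at h2
          exact h2
        show fn fa fb 0 (-(ev t q / ev (l 1) q), 0) ∉ Xq P l t 0
        rw [fn0]
        exact main 0 h2 hz1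
      · exfalso
        have h2 : fn fa fb 1 (ev (l 0) q, ev (l 1) q) = 0 := hi
        rw [fn1] at h2
        exact hz1 h2
      · have h2 : ev (l 2) q = 0 := by
          have h2 : fn fa fb 2 (ev (l 0) q, ev (l 1) q) = 0 := hi
          rw [fn2] at h2
          have h3 : - ev (l 0) q - ev (l 1) q = 0 := h2
          linarith
        have hne0 : ev (l 0) q ≠ 0 := by
          intro h; apply hz1; linarith
        have := main 2 h2 hne0
        show fn fa fb 2 (-(ev t q / ev (l 1) q), 0) ∉ Xq P l t 2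
        rw [fn2]
        have e : -(ev t q / ev (l (2 + 1)) q) = -(-(ev t q / ev (l 1) q)) - 0 := by
          show -(ev t q / ev (l 0) q) = -(-(ev t q / ev (l 1) q)) - 0
          have : ev (l 1) q = - ev (l 0) q := by linarith
          rw [this, div_neg, neg_neg, sub_zero]
        rw [e] at this
        exact this

lemma lam_zero (h1 : l 0 + l 1 + l 2 = 0) {i : Fin 3} {p μ : ℝ × ℝ} (hp : ev (l i) p = 0)
    (hp0 : ev (l (i + 1)) p ≠ 0) (hμ : fn fa fb i μ = -(ev t p / ev (l (i + 1)) p)) :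
    ev t p - μ.2 * ev (l 0) p + μ.1 * ev (l 1) p = 0 := by
  have sp := sum_ev h1 p
  fin_cases i
  · have hp' : ev (l 0) p = 0 := hp
    have hp0' : ev (l 1) p ≠ 0 := hp0
    have hμ' : fn fa fb 0 μ = -(ev t p / ev (l 1) p) := hμ
    rw [fn0] at hμ'
    rw [hμ', hp', neg_mul, div_mul_cancel₀ _ hp0']
    ring
  · have hp' : ev (l 1) p = 0 := hp
    have hp0' : ev (l 2) p ≠ 0 := hp0
    have hμ' : fn fa fb 1 μ = -(ev t p / ev (l 2) p) := hμ
    rw [fn1] at hμ'
    have e : ev (l 0) p = - ev (l 2) p := by linarith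
    rw [hμ', hp', e, neg_mul_neg, div_mul_cancel₀ _ hp0']
    ring
  · have hp' : ev (l 2) p = 0 := hp
    have hp0' : ev (l 0) p ≠ 0 := hp0
    have hμ' : fn fa fb 2 μ = -(ev t p / ev (l 0) p) := hμ
    rw [fn2] at hμ'
    have e : ev (l 1) p = - ev (l 0) p := by linarith
    have e2 : (-μ.1 - μ.2) * ev (l 0) p = - ev t p := by
      rw [hμ', neg_mul, div_mul_cancel₀ _ hp0']
    rw [e]
    linarith

lemma gq_cov (h1 : l 0 + l 1 + l 2 = 0)
    (h0 : ∀ p ∈ P, ∀ i, ev (l i) p = 0 → ev (l (i + 1)) p ≠ 0) (hb : Blocks P Q) :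
    ∀ i j, i ≠ j → ∀ u ∈ Xq P l t i, ∀ w ∈ Xq P l t j,
      ∃ q : Q, Gq l t q.1 (pt fa fb i j u w) := by
  intro i j hij u hu w hw
  obtain ⟨p, hp, hpi, hpu⟩ := mem_Xq hu
  obtain ⟨p', hp', hpj, hpw⟩ := mem_Xq hw
  have e1 := fn_pt_left (fab_ind i j hij) u w
  have e2 := fn_pt_right (fab_ind i j hij) u w
  set μ := pt fa fb i j u w
  have z1 := lam_zero h1 hpi (h0 p hp i hpi) (e1.trans hpu)
  have z2 := lam_zero h1 hpj (h0 p' hp' j hpj) (e2.trans hpw)
  have hne : p ≠ p' := by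
    rintro rfl
    have sp := sum_ev h1 p
    have hi1 := h0 p hp i hpi
    have hj1 := h0 p hp j hpj
    revert hi1 hj1 hpi hpj
    fin_cases i <;> fin_cases j <;> first
      | exact absurd rfl hij
      | (intro a b c d
         first
         | exact c b
         | exact d a
         | exact c (by linarith)
         | exact d (by linarith))
  obtain ⟨q, hq, r, h2, h3⟩ := hb.ex hp hp' hne
  refine ⟨⟨q, hq⟩, ?_⟩
  show ev t q - μ.2 * ev (l 0) q + μ.1 * ev (l 1) q = 0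
  have haff : ∀ m : ℝ × ℝ × ℝ, ev m q = (1 - r) * ev m p + r * ev m p' := by
    intro m
    unfold ev
    rw [h2, h3]
    ring
  rw [haff, haff, haff]
  linear_combination (1 - r) * z1 + r * z2

/-- three regular rows in a pencil -/
theorem pencil_reg {d : ℝ} (hd : 0 < d) (h1 : l 0 + l 1 + l 2 = 0)
    (hdet : det3 (l 0) (l 1) t ≠ 0) (hP : ∀ p ∈ P, ∃ i, ev (l i) p = 0)
    (h0 : ∀ p ∈ P, ∀ i, ev (l i) p = 0 → ev (l (i + 1)) p ≠ 0)
    (hR : ∀ i, Regular d {x | ∃ p ∈ P, ev (l i) p = 0 ∧ x = ev t p / ev (l (i + 1)) p})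
    (hb : Blocks P Q) : P.card ≤ Q.card + 54 := by
  have hreg : ∀ i, ∃ m M, Reg d (Xq P l t i) m M := by
    intro i
    obtain ⟨hs, a, b, ha, ha', hb1, hb', hab⟩ := hR i
    have hmem : ∀ x, -x ∈ Xq P l t i ↔
        x ∈ {x | ∃ p ∈ P, ev (l i) p = 0 ∧ x = ev t p / ev (l (i + 1)) p} := by
      intro x
      constructor
      · intro hx
        obtain ⟨p, hp, hpi, he⟩ := mem_Xq hx
        exact ⟨p, hp, hpi, neg_injective he⟩
      · rintro ⟨p, hp, hpi, rfl⟩
        exact Finset.mem_image.mpr ⟨p, Finset.mem_filter.mpr ⟨hp, hpi⟩, rfl⟩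
    have hmem' : ∀ u, u ∈ Xq P l t i ↔
        -u ∈ {x | ∃ p ∈ P, ev (l i) p = 0 ∧ x = ev t p / ev (l (i + 1)) p} := by
      intro u
      rw [← hmem, neg_neg]
    refine ⟨-b, -a, ?_, ?_, ?_, (hmem _).mpr hb1, ?_, (hmem _).mpr ha, ?_⟩
    · intro u hu w hw huw
      have := hs (-u) ((hmem' u).mp hu) (-w) ((hmem' w).mp hw) (fun h => huw (neg_injective h))
      have e : -u - -w = -(u - w) := by ring
      rw [e, abs_neg] at this
      exact this
    · intro u hu
      have := (hab _ ((hmem' u).mp hu)).2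
      linarith
    · intro u hu
      have := (hab _ ((hmem' u).mp hu)).1
      linarith
    · rw [hmem']
      have e : -(-b + d) = b - d := by ring
      rw [e]; exact hb'
    · rw [hmem']
      have e : -(-a - d) = a + d := by ring
      rw [e]; exact ha'
  choose m M hM using hreg
  have ha : fa 0 + fa 1 + fa 2 = 0 := by simp [fa]
  have hb2 : fb 0 + fb 1 + fb 2 = 0 := by simp [fb]
  have key := three hd ha hb2 fab_ind hM (fun (q : Q) => Gq l t q.1)
    (fun q => gq_green h1 hdet h0 hb q.2) (gq_cov h1 h0 hb)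
  rw [Fintype.card_coe] at key
  have h2 : P.card ≤ ∑ i, (Xq P l t i).card := by
    refine card_rows P (fun i p => ev (l i) p = 0)
      (fun i p => -(ev t p / ev (l (i + 1)) p)) hP ?_
    intro i p hp q hq hpi hqi he
    exact coord_inj h1 hdet hpi hqi (h0 p hp i hpi) (h0 q hq i hqi) (neg_injective he)
  rw [Fin.sum_univ_three] at h2
  omega

end

end Pool.Agent.Blk
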