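import Pool.Agent.Helper20.Blk.Three

/-!
Translation to point sets: rows on horizontal lines, and rows on lines through the origin.
-/

namespace Pool.Agent.Blk

open Finset Classical

/-- the row of `P` at height `y` -/
noncomputable def row (P : Finset (ℝ × ℝ)) (y : ℝ) : Finset ℝ :=
  (P.filter (fun p => p.2 = y)).image Prod.fst

lemma mem_row {P : Finset (ℝ × ℝ)} {y x : ℝ} : x ∈ row P y ↔ (x, y) ∈ P := by
  unfold row
  rw [Finset.mem_image]
  constructor
  · rintro ⟨p, hp, rfl⟩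
    obtain ⟨h1, h2⟩ := Finset.mem_filter.mp hp
    rw [← h2]
    exact h1
  · intro h
    exact ⟨(x, y), Finset.mem_filter.mpr ⟨h, rfl⟩, rfl⟩

/-- the lines `x = u + y m` through the blocker `q`, in the coordinates `(u, m)` -/
def Gp (q : ℝ × ℝ) (μ : ℝ × ℝ) : Prop := μ.1 + q.2 * μ.2 = q.1

section parallel

variable {I : Type*} [Fintype I] {h w : I → ℝ} {P Q : Finset (ℝ × ℝ)}

/-- scaled rows -/
noncomputable def Xp (P : Finset (ℝ × ℝ)) (h w : I → ℝ) (i : I) : Finset ℝ :=
  (row P (h i)).image (fun x => w i * x)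

lemma mem_Xp (hw : ∀ i, w i ≠ 0) {i : I} {x : ℝ} : w i * x ∈ Xp P h w i ↔ (x, h i) ∈ P := by
  unfold Xp
  rw [Finset.mem_image]
  constructor
  · rintro ⟨y, hy, he⟩
    have := mul_left_cancel₀ (hw i) he
    rw [← this]
    exact mem_row.mp hy
  · intro hx
    exact ⟨x, mem_row.mpr hx, rfl⟩

lemma Xp_ex {i : I} {u : ℝ} (hu : u ∈ Xp P h w i) : ∃ x, (x, h i) ∈ P ∧ u = w i * x := by
  unfold Xp at hu
  obtain ⟨x, hx, rfl⟩ := Finset.mem_image.mp hu
  exact ⟨x, mem_row.mp hx, rfl⟩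

lemma gp_green (hb : Blocks P Q) (hw : ∀ i, w i ≠ 0) {q : ℝ × ℝ} (hq : q ∈ Q) :
    GrK w (fun i => w i * h i) (Xp P h w) (Gp q) := by
  refine ⟨(q.1, 0), (-q.2, 1), ?_, ?_⟩
  · intro μ hμ
    have hμ' : μ.1 + q.2 * μ.2 = q.1 := hμ
    refine ⟨μ.2, Prod.ext ?_ ?_⟩
    · show μ.1 = q.1 + μ.2 * (-q.2)
      linarith
    · show μ.2 = 0 + μ.2 * 1
      ring
  · intro i hi hX
    have h1 : w i * (h i - q.2) = 0 := by
      have : w i * (-q.2) + w i * h i * 1 = 0 := hi
      linarith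
    have h2 : q.2 = h i := by
      rcases mul_eq_zero.mp h1 with h3 | h3
      · exact absurd h3 (hw i)
      · linarith
    have h3 : fn w (fun i => w i * h i) i (q.1, 0) = w i * q.1 := by
      show w i * q.1 + w i * h i * 0 = w i * q.1
      ring
    rw [h3, mem_Xp hw] at hX
    rw [← h2] at hX
    exact (Finset.disjoint_left.mp hb.1) hX hq

lemma gp_cov (hh : Function.Injective h) (hb : Blocks P Q) (hw : ∀ i, w i ≠ 0)
    (ind : ∀ i j, i ≠ j → w i * (w j * h j) - w j * (w i * h i) ≠ 0) :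
    ∀ i j, i ≠ j → ∀ u ∈ Xp P h w i, ∀ v ∈ Xp P h w j,
      ∃ q : Q, Gp q.1 (pt w (fun i => w i * h i) i j u v) := by
  intro i j hij u hu v hv
  obtain ⟨x, hx, rfl⟩ := Xp_ex hu
  obtain ⟨y, hy, rfl⟩ := Xp_ex hv
  have hne : (x, h i) ≠ (y, h j) := by
    intro he
    exact hij (hh (Prod.ext_iff.mp he).2)
  obtain ⟨q, hq, r, h1, h2⟩ := hb.ex hx hy hne
  refine ⟨⟨q, hq⟩, ?_⟩
  have e1 : w i * (pt w (fun i => w i * h i) i j (w i * x) (w j * y)).1 +
      w i * h i * (pt w (fun i => w i * h i) i j (w i * x) (w j * y)).2 = w i * x :=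
    fn_pt_left (ind i j hij) _ _
  have e2 : w j * (pt w (fun i => w i * h i) i j (w i * x) (w j * y)).1 +
      w j * h j * (pt w (fun i => w i * h i) i j (w i * x) (w j * y)).2 = w j * y :=
    fn_pt_right (ind i j hij) _ _
  show (pt w (fun i => w i * h i) i j (w i * x) (w j * y)).1 +
      q.2 * (pt w (fun i => w i * h i) i j (w i * x) (w j * y)).2 = q.1
  set μ := pt w (fun i => w i * h i) i j (w i * x) (w j * y)
  have e1' : μ.1 + h i * μ.2 = x := by
    apply mul_left_cancel₀ (hw i)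
    linarith
  have e2' : μ.1 + h j * μ.2 = y := by
    apply mul_left_cancel₀ (hw j)
    linarith
  have h1' : q.1 = (1 - r) * x + r * y := h1
  have h2' : q.2 = (1 - r) * h i + r * h j := h2
  rw [h1', h2']
  linear_combination (1 - r) * e1' + r * e2'

lemma ind_one (hh : Function.Injective h) :
    ∀ i j, i ≠ j → (1 : ℝ) * (1 * h j) - 1 * (1 * h i) ≠ 0 := by
  intro i j hij he
  exact hij (hh (by linarith))

lemma card_Xp (hP : ∀ p ∈ P, ∃ i, p.2 = h i) (hw : ∀ i, w i ≠ 0) :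
    P.card ≤ ∑ i, (Xp P h w i).card := by
  have h1 := card_rows P (fun i p => p.2 = h i) (fun _ p => p.1) hP
    (fun i p _ q _ h1 h2 h3 => Prod.ext h3 (h1.trans h2.symm))
  refine le_trans h1 (Finset.sum_le_sum (fun i _ => le_of_eq ?_))
  have h2 : (Xp P h w i).card = (row P (h i)).card :=
    Finset.card_image_of_injective (row P (h i)) (f := fun x => w i * x)
      (fun x y hxy => mul_left_cancel₀ (hw i) hxy)
  rw [h2]
  rfl

end parallel

/-- `k` horizontal rows: the harmonic bound -/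
theorem par_harm {I : Type*} [Fintype I] [Nonempty I] {h : I → ℝ} {P Q : Finset (ℝ × ℝ)}
    (hh : Function.Injective h) (hP : ∀ p ∈ P, ∃ i, p.2 = h i) (hne : ∀ i, ∃ p ∈ P, p.2 = h i)
    (hb : Blocks P Q) :
    Hn (Fintype.card I - 1) * ((P.card : ℝ) - 2 * Fintype.card I) ≤
      ((Fintype.card I - 1 : ℕ) : ℝ) * (Q.card : ℝ) := by
  have hw : ∀ i : I, (fun _ => (1 : ℝ)) i ≠ 0 := fun _ => one_ne_zero
  have hn : ∀ i, (Xp P h (fun _ => 1) i).Nonempty := by
    intro i
    obtain ⟨p, hp, h1⟩ := hne i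
    refine ⟨1 * p.1, (mem_Xp (w := fun _ => 1) hw).mpr ?_⟩
    rw [← h1]; exact hp
  obtain ⟨m, M, hE⟩ := exists_ext (Xp P h (fun _ => 1)) hn
  have hD : Dual (fun _ => 1) (fun i => 1 * h i) (Xp P h (fun _ => 1)) m M := ⟨ind_one hh, hE⟩
  have key := kdual hD (fun (q : Q) => Gp q.1) (fun q => gp_green hb hw q.2)
    (gp_cov hh hb hw (ind_one hh))
  rw [Fintype.card_coe] at key
  refine le_trans ?_ key
  have h1 := card_Xp (w := fun _ => 1) hP hw
  have h2 := card_inner (X := Xp P h (fun _ => 1)) (m := m) (M := M)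
  have h3 : (P.card : ℝ) ≤ ((∑ j, (Xo (Xp P h (fun _ => 1)) m M j).card : ℕ) : ℝ) +
      2 * (Fintype.card I : ℝ) := by exact_mod_cast le_trans h1 h2
  have h4 : 0 ≤ Hn (Fintype.card I - 1) := by
    unfold Hn
    apply Finset.sum_nonneg
    intro r _
    positivity
  exact mul_le_mul_of_nonneg_left (by linarith) h4

/-- `k` horizontal rows without collinear triples at the end points of the rows -/
theorem par_gen {I : Type*} [Fintype I] [Nonempty I] {h : I → ℝ} {P Q : Finset (ℝ × ℝ)}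
    (hh : Function.Injective h) (hP : ∀ p ∈ P, ∃ i, p.2 = h i) (hne : ∀ i, ∃ p ∈ P, p.2 = h i)
    (hk : 2 ≤ Fintype.card I)
    (hend : ∀ e ∈ P, ((∀ p ∈ P, p.2 = e.2 → e.1 ≤ p.1) ∨ (∀ p ∈ P, p.2 = e.2 → p.1 ≤ e.1)) →
      ∀ p ∈ P, ∀ q ∈ P, p.2 ≠ e.2 → q.2 ≠ e.2 → p.2 ≠ q.2 →
        ¬ Collinear ℝ ({e, p, q} : Set (ℝ × ℝ)))
    (hb : Blocks P Q) : P.card ≤ Q.card + 2 * Fintype.card I := by
  have hw : ∀ i : I, (fun _ => (1 : ℝ)) i ≠ 0 := fun _ => one_ne_zero
  have hn : ∀ i, (Xp P h (fun _ => 1) i).Nonempty := by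
    intro i
    obtain ⟨p, hp, h1⟩ := hne i
    refine ⟨1 * p.1, (mem_Xp (w := fun _ => 1) hw).mpr ?_⟩
    rw [← h1]; exact hp
  obtain ⟨m, M, hE⟩ := exists_ext (Xp P h (fun _ => 1)) hn
  have hD : Dual (fun _ => 1) (fun i => 1 * h i) (Xp P h (fun _ => 1)) m M := ⟨ind_one hh, hE⟩
  have hval : ∀ (i : I) (μ : ℝ × ℝ),
      fn (fun _ => 1) (fun i => 1 * h i) i μ = 1 * (μ.1 + h i * μ.2) := by
    intro i μ
    unfold fn
    ring
  have key := kdual' hD (fun (q : Q) => Gp q.1) (fun q => gp_green hb hw q.2)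
    (gp_cov hh hb hw (ind_one hh)) hk (by
      intro i μ hμ
      by_contra hcon
      push Not at hcon
      unfold mult at hcon
      obtain ⟨j, hj, j', hj', hjj⟩ := Finset.one_lt_card.mp hcon
      obtain ⟨_, h1, h2⟩ := Finset.mem_filter.mp hj
      obtain ⟨_, h3, h4⟩ := Finset.mem_filter.mp hj'
      have hjP : (μ.1 + h j * μ.2, h j) ∈ P := by
        have := Inn.mem h2
        rw [hval] at this
        exact (mem_Xp (w := fun _ => 1) hw).mp this
      have hjP' : (μ.1 + h j' * μ.2, h j') ∈ P := by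
        have := Inn.mem h4
        rw [hval] at this
        exact (mem_Xp (w := fun _ => 1) hw).mp this
      have hiX : fn (fun _ => 1) (fun i => 1 * h i) i μ ∈ Xp P h (fun _ => 1) i := by
        rcases hμ with hμ | hμ
        · rw [hμ]; exact (hE i).m1
        · rw [hμ]; exact (hE i).M1
      have hiP : (μ.1 + h i * μ.2, h i) ∈ P := by
        rw [hval] at hiX
        exact (mem_Xp (w := fun _ => 1) hw).mp hiX
      have hext : (∀ p ∈ P, p.2 = h i → μ.1 + h i * μ.2 ≤ p.1) ∨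
          (∀ p ∈ P, p.2 = h i → p.1 ≤ μ.1 + h i * μ.2) := by
        rw [hval] at hμ
        rcases hμ with hμ | hμ
        · left
          intro p hp hp2
          have := (hE i).lo (1 * p.1) ((mem_Xp (w := fun _ => 1) hw).mpr (by rw [← hp2]; exact hp))
          linarith
        · right
          intro p hp hp2
          have := (hE i).hi (1 * p.1) ((mem_Xp (w := fun _ => 1) hw).mpr (by rw [← hp2]; exact hp))
          linarith
      refine hend _ hiP hext _ hjP _ hjP' ?_ ?_ ?_ ?_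
      · exact fun he => h1 (hh he)
      · exact fun he => h3 (hh he)
      · exact fun he => hjj (hh he)
      · rw [collinear_iff_exists_forall_eq_smul_vadd]
        refine ⟨(μ.1, 0), (μ.2, 1), ?_⟩
        intro p hp
        rcases hp with rfl | rfl | rfl
        · refine ⟨h i, Prod.ext ?_ ?_⟩
          · show μ.1 + h i * μ.2 = h i * μ.2 + μ.1
            ring
          · show h i = h i * 1 + 0
            ring
        · refine ⟨h j, Prod.ext ?_ ?_⟩
          · show μ.1 + h j * μ.2 = h j * μ.2 + μ.1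
            ring
          · show h j = h j * 1 + 0
            ring
        · refine ⟨h j', Prod.ext ?_ ?_⟩
          · show μ.1 + h j' * μ.2 = h j' * μ.2 + μ.1
            ring
          · show h j' = h j' * 1 + 0
            ring)
  rw [Fintype.card_coe] at key
  have h1 := card_Xp (w := fun _ => 1) hP hw
  have h2 := card_inner (X := Xp P h (fun _ => 1)) (m := m) (M := M)
  omega

end Pool.Agent.Blk
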