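import Pool.Agent.Helper20.Blk.Primal

/-!
Regular rows, and rows on lines through the origin.
-/

namespace Pool.Agent.Blk

open Finset Classical

/-- `S` is `d`-separated, and the first two and the last two elements are at distance `d` -/
def Regular (d : ℝ) (S : Set ℝ) : Prop :=
  (∀ x ∈ S, ∀ y ∈ S, x ≠ y → d ≤ |x - y|) ∧
  ∃ a b : ℝ, a ∈ S ∧ a + d ∈ S ∧ b ∈ S ∧ b - d ∈ S ∧ ∀ x ∈ S, a ≤ x ∧ x ≤ b

/-- the factors of three rows -/
def w3 (h : Fin 3 → ℝ) (i : Fin 3) : ℝ := h (i + 2) - h (i + 1)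

lemma w3_0 (h : Fin 3 → ℝ) : w3 h 0 = h 2 - h 1 := rfl
lemma w3_1 (h : Fin 3 → ℝ) : w3 h 1 = h 0 - h 2 := rfl
lemma w3_2 (h : Fin 3 → ℝ) : w3 h 2 = h 1 - h 0 := rfl

lemma w3_ne {h : Fin 3 → ℝ} (hh : Function.Injective h) (i : Fin 3) : w3 h i ≠ 0 := by
  intro he
  have h1 : h (i + 2) = h (i + 1) := by
    have : h (i + 2) - h (i + 1) = 0 := he
    linarith
  have h2 := hh h1
  revert h2
  fin_cases i <;> decide

/-- three regular horizontal rows -/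
theorem par_reg {h : Fin 3 → ℝ} {P Q : Finset (ℝ × ℝ)} {d : ℝ} (hd : 0 < d)
    (hh : Function.Injective h) (hP : ∀ p ∈ P, ∃ i, p.2 = h i)
    (hR : ∀ i, Regular (d / |w3 h i|) {x | (x, h i) ∈ P}) (hb : Blocks P Q) :
    P.card ≤ Q.card + 54 := by
  have hw := w3_ne hh
  have ind : ∀ i j, i ≠ j → w3 h i * (w3 h j * h j) - w3 h j * (w3 h i * h i) ≠ 0 := by
    intro i j hij he
    have h1 : w3 h i * w3 h j * (h j - h i) = 0 := by linarith
    rcases mul_eq_zero.mp h1 with h2 | h2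
    · rcases mul_eq_zero.mp h2 with h3 | h3
      · exact hw i h3
      · exact hw j h3
    · exact hij (hh (by linarith))
  have hreg : ∀ i, ∃ m M, Reg d (Xp P h (w3 h) i) m M := by
    intro i
    obtain ⟨hs, a, b, ha, ha', hb1, hb', hab⟩ := hR i
    have hwa : 0 < |w3 h i| := abs_pos.mpr (hw i)
    have hsep : ∀ u ∈ Xp P h (w3 h) i, ∀ v ∈ Xp P h (w3 h) i, u ≠ v → d ≤ |u - v| := by
      intro u hu v hv huv
      obtain ⟨x, hx, rfl⟩ := Xp_ex hu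
      obtain ⟨y, hy, rfl⟩ := Xp_ex hv
      have hxy : x ≠ y := fun h => huv (by rw [h])
      have := hs x hx y hy hxy
      rw [div_le_iff₀ hwa] at this
      rw [← mul_sub, abs_mul]
      linarith
    rcases lt_or_gt_of_ne (hw i) with hneg | hpos
    · rw [abs_of_neg hneg] at ha' hb'
      refine ⟨w3 h i * b, w3 h i * a, hsep, ?_, ?_, (mem_Xp hw).mpr hb1, ?_,
        (mem_Xp hw).mpr ha, ?_⟩
      · intro u hu
        obtain ⟨x, hx, rfl⟩ := Xp_ex hu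
        exact mul_le_mul_of_nonpos_left (hab x hx).2 hneg.le
      · intro u hu
        obtain ⟨x, hx, rfl⟩ := Xp_ex hu
        exact mul_le_mul_of_nonpos_left (hab x hx).1 hneg.le
      · have e : w3 h i * b + d = w3 h i * (b - d / -w3 h i) := by
          field_simp [hw i]
          ring
        rw [e]
        exact (mem_Xp hw).mpr hb'
      · have e : w3 h i * a - d = w3 h i * (a + d / -w3 h i) := by
          field_simp [hw i]
          ring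
        rw [e]
        exact (mem_Xp hw).mpr ha'
    · rw [abs_of_pos hpos] at ha' hb'
      refine ⟨w3 h i * a, w3 h i * b, hsep, ?_, ?_, (mem_Xp hw).mpr ha, ?_,
        (mem_Xp hw).mpr hb1, ?_⟩
      · intro u hu
        obtain ⟨x, hx, rfl⟩ := Xp_ex hu
        exact mul_le_mul_of_nonneg_left (hab x hx).1 hpos.le
      · intro u hu
        obtain ⟨x, hx, rfl⟩ := Xp_ex hu
        exact mul_le_mul_of_nonneg_left (hab x hx).2 hpos.le
      · have e : w3 h i * a + d = w3 h i * (a + d / w3 h i) := by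
          field_simp [hw i]
        rw [e]
        exact (mem_Xp hw).mpr ha'
      · have e : w3 h i * b - d = w3 h i * (b - d / w3 h i) := by
          field_simp [hw i]
        rw [e]
        exact (mem_Xp hw).mpr hb'
  choose m M hM using hreg
  have key := three (a := w3 h) (b := fun i => w3 h i * h i) hd
    (by rw [w3_0, w3_1, w3_2]; ring)
    (by simp only [w3_0, w3_1, w3_2]; ring) ind hM (fun (q : Q) => Gp q.1)
    (fun q => gp_green hb hw q.2) (gp_cov hh hb hw ind)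
  rw [Fintype.card_coe] at key
  have h1 := card_Xp (w := w3 h) hP hw
  rw [Fin.sum_univ_three] at h1
  omega

/-! ### lines through the origin -/

/-- the lines `μ.1 x + μ.2 y = 1` through the blocker -/
def Gc (q : ℝ × ℝ) (μ : ℝ × ℝ) : Prop := μ.1 * q.1 + μ.2 * q.2 = 1

section conc

variable {I : Type*} [Fintype I] {v : I → ℝ × ℝ} {P Q : Finset (ℝ × ℝ)}

/-- the reciprocals of the positions on the `i`-th line -/
noncomputable def Xc (P : Finset (ℝ × ℝ)) (v : I → ℝ × ℝ) (i : I) : Finset ℝ :=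
  (P.filter (fun p => ∃ r : ℝ, r ≠ 0 ∧ p = r⁻¹ • v i)).image
    (fun p => ((v i).1 ^ 2 + (v i).2 ^ 2) / (p.1 * (v i).1 + p.2 * (v i).2))

lemma val_Xc {i : I} (hv : v i ≠ 0) {r : ℝ} (hr : r ≠ 0) :
    ((v i).1 ^ 2 + (v i).2 ^ 2) / ((r⁻¹ • v i).1 * (v i).1 + (r⁻¹ • v i).2 * (v i).2) = r := by
  have hq : (v i).1 ^ 2 + (v i).2 ^ 2 ≠ 0 := by
    intro h
    apply hv
    have h1 : (v i).1 = 0 := by nlinarith [sq_nonneg (v i).1, sq_nonneg (v i).2]
    have h2 : (v i).2 = 0 := by nlinarith [sq_nonneg (v i).1, sq_nonneg (v i).2]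
    exact Prod.ext h1 h2
  have e : (r⁻¹ • v i).1 * (v i).1 + (r⁻¹ • v i).2 * (v i).2 =
      r⁻¹ * ((v i).1 ^ 2 + (v i).2 ^ 2) := by
    show r⁻¹ * (v i).1 * (v i).1 + r⁻¹ * (v i).2 * (v i).2 = _
    ring
  rw [e, div_eq_iff (mul_ne_zero (inv_ne_zero hr) hq), ← mul_assoc, mul_inv_cancel₀ hr, one_mul]

lemma mem_Xc {i : I} (hv : v i ≠ 0) {r : ℝ} : r ∈ Xc P v i ↔ r ≠ 0 ∧ r⁻¹ • v i ∈ P := by
  unfold Xc
  rw [Finset.mem_image]
  constructor
  · rintro ⟨p, hp, rfl⟩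
    obtain ⟨h1, s, hs, rfl⟩ := Finset.mem_filter.mp hp
    rw [val_Xc hv hs]
    exact ⟨hs, h1⟩
  · rintro ⟨h1, h2⟩
    exact ⟨_, Finset.mem_filter.mpr ⟨h2, r, h1, rfl⟩, val_Xc hv h1⟩

lemma card_Xc (hv : ∀ i, v i ≠ 0) (hP : ∀ p ∈ P, ∃ i, ∃ r : ℝ, r ≠ 0 ∧ p = r⁻¹ • v i) :
    P.card ≤ ∑ i, (Xc P v i).card := by
  refine card_rows P (fun i p => ∃ r : ℝ, r ≠ 0 ∧ p = r⁻¹ • v i)
    (fun i p => ((v i).1 ^ 2 + (v i).2 ^ 2) / (p.1 * (v i).1 + p.2 * (v i).2)) hP ?_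
  rintro i p - q - ⟨r, hr, rfl⟩ ⟨s, hs, rfl⟩ h3
  rw [val_Xc (hv i) hr, val_Xc (hv i) hs] at h3
  rw [h3]

lemma gc_green (hb : Blocks P Q) (hv : ∀ i, v i ≠ 0) {q : ℝ × ℝ} (hq : q ∈ Q) :
    GrK (fun i => (v i).1) (fun i => (v i).2) (Xc P v) (Gc q) := by
  by_cases h0 : q = 0
  · refine ⟨0, 0, ?_, ?_⟩
    · intro μ hμ
      exfalso
      have : μ.1 * q.1 + μ.2 * q.2 = 1 := hμ
      rw [h0] at this
      have h1 : μ.1 * (0 : ℝ) + μ.2 * 0 = 1 := this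
      simp at h1
    · intro i _ hX
      have h1 : fn (fun i => (v i).1) (fun i => (v i).2) i (0 : ℝ × ℝ) = 0 := by
        show (v i).1 * 0 + (v i).2 * 0 = 0
        ring
      rw [h1] at hX
      exact ((mem_Xc (hv i)).mp hX).1 rfl
  · have hq2 : q.1 ^ 2 + q.2 ^ 2 ≠ 0 := by
      intro h
      apply h0
      have h1 : q.1 = 0 := by nlinarith [sq_nonneg q.1, sq_nonneg q.2]
      have h2 : q.2 = 0 := by nlinarith [sq_nonneg q.1, sq_nonneg q.2]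
      exact Prod.ext h1 h2
    refine ⟨(q.1 / (q.1 ^ 2 + q.2 ^ 2), q.2 / (q.1 ^ 2 + q.2 ^ 2)), (-q.2, q.1), ?_, ?_⟩
    · intro μ hμ
      have hμ' : μ.1 * q.1 + μ.2 * q.2 = 1 := hμ
      refine ⟨(μ.2 * q.1 - μ.1 * q.2) / (q.1 ^ 2 + q.2 ^ 2), Prod.ext ?_ ?_⟩
      · show μ.1 = q.1 / (q.1 ^ 2 + q.2 ^ 2) +
          (μ.2 * q.1 - μ.1 * q.2) / (q.1 ^ 2 + q.2 ^ 2) * (-q.2)
        rw [div_mul_eq_mul_div, ← add_div, eq_div_iff hq2]
        linear_combination q.1 * hμ'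
      · show μ.2 = q.2 / (q.1 ^ 2 + q.2 ^ 2) +
          (μ.2 * q.1 - μ.1 * q.2) / (q.1 ^ 2 + q.2 ^ 2) * q.1
        rw [div_mul_eq_mul_div, ← add_div, eq_div_iff hq2]
        linear_combination q.2 * hμ'
    · intro i hi hX
      obtain ⟨hr, hrP⟩ := (mem_Xc (hv i)).mp hX
      have hi' : (v i).1 * (-q.2) + (v i).2 * q.1 = 0 := hi
      have hfe : fn (fun i => (v i).1) (fun i => (v i).2) i
          (q.1 / (q.1 ^ 2 + q.2 ^ 2), q.2 / (q.1 ^ 2 + q.2 ^ 2)) =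
          ((v i).1 * q.1 + (v i).2 * q.2) / (q.1 ^ 2 + q.2 ^ 2) := by
        show (v i).1 * (q.1 / (q.1 ^ 2 + q.2 ^ 2)) + (v i).2 * (q.2 / (q.1 ^ 2 + q.2 ^ 2)) = _
        ring
      rw [hfe] at hr hrP
      have hn : (v i).1 * q.1 + (v i).2 * q.2 ≠ 0 := by
        intro h
        rw [h, zero_div] at hr
        exact hr rfl
      have e : (((v i).1 * q.1 + (v i).2 * q.2) / (q.1 ^ 2 + q.2 ^ 2))⁻¹ • v i = q := by
        rw [inv_div]
        apply Prod.ext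
        · show (q.1 ^ 2 + q.2 ^ 2) / ((v i).1 * q.1 + (v i).2 * q.2) * (v i).1 = q.1
          rw [div_mul_eq_mul_div, div_eq_iff hn]
          linear_combination (-q.2) * hi'
        · show (q.1 ^ 2 + q.2 ^ 2) / ((v i).1 * q.1 + (v i).2 * q.2) * (v i).2 = q.2
          rw [div_mul_eq_mul_div, div_eq_iff hn]
          linear_combination q.1 * hi'
      rw [e] at hrP
      exact (Finset.disjoint_left.mp hb.1) hrP hq

lemma gc_cov (hb : Blocks P Q) (hv : ∀ i, v i ≠ 0)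
    (ind : ∀ i j, i ≠ j → (v i).1 * (v j).2 - (v j).1 * (v i).2 ≠ 0) :
    ∀ i j, i ≠ j → ∀ u ∈ Xc P v i, ∀ w ∈ Xc P v j,
      ∃ q : Q, Gc q.1 (pt (fun i => (v i).1) (fun i => (v i).2) i j u w) := by
  intro i j hij u hu w hw
  obtain ⟨hu0, huP⟩ := (mem_Xc (hv i)).mp hu
  obtain ⟨hw0, hwP⟩ := (mem_Xc (hv j)).mp hw
  have e1 : (v i).1 * (pt (fun i => (v i).1) (fun i => (v i).2) i j u w).1 +
      (v i).2 * (pt (fun i => (v i).1) (fun i => (v i).2) i j u w).2 = u :=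
    fn_pt_left (a := fun i => (v i).1) (b := fun i => (v i).2) (ind i j hij) _ _
  have e2 : (v j).1 * (pt (fun i => (v i).1) (fun i => (v i).2) i j u w).1 +
      (v j).2 * (pt (fun i => (v i).1) (fun i => (v i).2) i j u w).2 = w :=
    fn_pt_right (a := fun i => (v i).1) (b := fun i => (v i).2) (ind i j hij) _ _
  set μ := pt (fun i => (v i).1) (fun i => (v i).2) i j u w
  have hne : u⁻¹ • v i ≠ w⁻¹ • v j := by
    intro he
    have h1 : u⁻¹ * (v i).1 = w⁻¹ * (v j).1 := congrArg Prod.fst he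
    have h2 : u⁻¹ * (v i).2 = w⁻¹ * (v j).2 := congrArg Prod.snd he
    have h3 : u⁻¹ * ((v i).1 * (v j).2 - (v j).1 * (v i).2) = 0 := by
      have h4 : u⁻¹ * ((v i).1 * (v j).2 - (v j).1 * (v i).2) * w⁻¹ =
          (u⁻¹ * (v i).1) * (w⁻¹ * (v j).2) - (w⁻¹ * (v j).1) * (u⁻¹ * (v i).2) := by ring
      rw [h1, h2] at h4
      have h5 : u⁻¹ * ((v i).1 * (v j).2 - (v j).1 * (v i).2) * w⁻¹ = 0 := by
        rw [h4]; ring
      rcases mul_eq_zero.mp h5 with h | h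
      · exact h
      · exact absurd h (inv_ne_zero hw0)
    rcases mul_eq_zero.mp h3 with h | h
    · exact inv_ne_zero hu0 h
    · exact ind i j hij h
  obtain ⟨q, hq, r, h1, h2⟩ := hb.ex huP hwP hne
  refine ⟨⟨q, hq⟩, ?_⟩
  show μ.1 * q.1 + μ.2 * q.2 = 1
  have h1' : q.1 = (1 - r) * (u⁻¹ * (v i).1) + r * (w⁻¹ * (v j).1) := h1
  have h2' : q.2 = (1 - r) * (u⁻¹ * (v i).2) + r * (w⁻¹ * (v j).2) := h2
  have e1' : u⁻¹ * ((v i).1 * μ.1 + (v i).2 * μ.2) = 1 := by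
    rw [e1, inv_mul_cancel₀ hu0]
  have e2' : w⁻¹ * ((v j).1 * μ.1 + (v j).2 * μ.2) = 1 := by
    rw [e2, inv_mul_cancel₀ hw0]
  rw [h1', h2']
  linear_combination (1 - r) * e1' + r * e2'

lemma ne_zero_of_ind {ι' : Type*} {v : ι' → ℝ × ℝ}
    (ind : ∀ i j, i ≠ j → (v i).1 * (v j).2 - (v j).1 * (v i).2 ≠ 0) {i j : ι'} (hij : i ≠ j) :
    v i ≠ 0 := by
  intro h
  apply ind i j hij
  rw [h]
  show (0 : ℝ) * (v j).2 - (v j).1 * 0 = 0
  ring

end conc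

/-- `k` rows on lines through the origin: the harmonic bound -/
theorem conc_harm {I : Type*} [Fintype I] [Nontrivial I] {v : I → ℝ × ℝ} {P Q : Finset (ℝ × ℝ)}
    (ind : ∀ i j, i ≠ j → (v i).1 * (v j).2 - (v j).1 * (v i).2 ≠ 0)
    (hP : ∀ p ∈ P, ∃ i, ∃ r : ℝ, r ≠ 0 ∧ p = r⁻¹ • v i)
    (hne : ∀ i, ∃ p ∈ P, ∃ r : ℝ, r ≠ 0 ∧ p = r⁻¹ • v i) (hb : Blocks P Q) :
    Hn (Fintype.card I - 1) * ((P.card : ℝ) - 2 * Fintype.card I) ≤
      ((Fintype.card I - 1 : ℕ) : ℝ) * (Q.card : ℝ) := by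
  have hv : ∀ i, v i ≠ 0 := by
    intro i
    obtain ⟨j, hj⟩ := exists_ne i
    exact ne_zero_of_ind ind (Ne.symm hj)
  have hn : ∀ i, (Xc P v i).Nonempty := by
    intro i
    obtain ⟨p, hp, r, hr, rfl⟩ := hne i
    exact ⟨r, (mem_Xc (hv i)).mpr ⟨hr, hp⟩⟩
  obtain ⟨m, M, hE⟩ := exists_ext (Xc P v) hn
  have hD : Dual (fun i => (v i).1) (fun i => (v i).2) (Xc P v) m M := ⟨ind, hE⟩
  have key := kdual hD (fun (q : Q) => Gc q.1) (fun q => gc_green hb hv q.2) (gc_cov hb hv ind)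
  rw [Fintype.card_coe] at key
  refine le_trans ?_ key
  have h1 := card_Xc hv hP
  have h2 := card_inner (X := Xc P v) (m := m) (M := M)
  have h3 : (P.card : ℝ) ≤ ((∑ j, (Xo (Xc P v) m M j).card : ℕ) : ℝ) +
      2 * (Fintype.card I : ℝ) := by exact_mod_cast le_trans h1 h2
  have h4 : 0 ≤ Hn (Fintype.card I - 1) := by
    unfold Hn
    apply Finset.sum_nonneg
    intro r _
    positivity
  exact mul_le_mul_of_nonneg_left (by linarith) h4

/-- three regular rows on lines through the origin -/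
theorem conc_reg {v : Fin 3 → ℝ × ℝ} {P Q : Finset (ℝ × ℝ)} {d : ℝ} (hd : 0 < d)
    (hs : v 0 + v 1 + v 2 = 0)
    (ind : ∀ i j, i ≠ j → (v i).1 * (v j).2 - (v j).1 * (v i).2 ≠ 0)
    (hP : ∀ p ∈ P, ∃ i, ∃ r : ℝ, r ≠ 0 ∧ p = r⁻¹ • v i)
    (hR : ∀ i, Regular d {r : ℝ | r ≠ 0 ∧ r⁻¹ • v i ∈ P}) (hb : Blocks P Q) :
    P.card ≤ Q.card + 54 := by
  have hv : ∀ i, v i ≠ 0 := by
    intro i
    obtain ⟨j, hj⟩ := exists_ne i
    exact ne_zero_of_ind ind (Ne.symm hj)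
  have hreg : ∀ i, ∃ m M, Reg d (Xc P v i) m M := by
    intro i
    obtain ⟨hs, a, b, ha, ha', hb1, hb', hab⟩ := hR i
    have hmem : ∀ r, r ∈ Xc P v i ↔ r ∈ {r : ℝ | r ≠ 0 ∧ r⁻¹ • v i ∈ P} :=
      fun r => mem_Xc (hv i)
    refine ⟨a, b, ?_, ?_, ?_, (hmem _).mpr ha, (hmem _).mpr ha', (hmem _).mpr hb1,
      (hmem _).mpr hb'⟩
    · intro u hu w hw huw
      exact hs u ((hmem _).mp hu) w ((hmem _).mp hw) huw
    · intro u hu
      exact (hab u ((hmem _).mp hu)).1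
    · intro u hu
      exact (hab u ((hmem _).mp hu)).2
  choose m M hM using hreg
  have ha : (v 0).1 + (v 1).1 + (v 2).1 = 0 := congrArg Prod.fst hs
  have hb2 : (v 0).2 + (v 1).2 + (v 2).2 = 0 := congrArg Prod.snd hs
  have key := three (a := fun i => (v i).1) (b := fun i => (v i).2) hd ha hb2 ind hM
    (fun (q : Q) => Gc q.1) (fun q => gc_green hb hv q.2) (gc_cov hb hv ind)
  rw [Fintype.card_coe] at key
  have h1 := card_Xc hv hP
  rw [Fin.sum_univ_three] at h1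
  omega

end Pool.Agent.Blk
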