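import Pool.Agent.Helper20.Blk.KDual

/-!
Three families: the bounded-surplus theorem in terms of linear functionals.
-/

namespace Pool.Agent.Blk

open Finset Classical

/-- three families given by functionals with sum zero -/
theorem three {ι : Type*} [Fintype ι] {a b : Fin 3 → ℝ} {X : Fin 3 → Finset ℝ} {m M : Fin 3 → ℝ}
    {d : ℝ} (hd : 0 < d) (ha : a 0 + a 1 + a 2 = 0) (hb : b 0 + b 1 + b 2 = 0)
    (ind : ∀ i j, i ≠ j → a i * b j - a j * b i ≠ 0) (hX : ∀ i, Reg d (X i) (m i) (M i))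
    (G : ι → ℝ × ℝ → Prop) (hG : ∀ t, GrK a b X (G t))
    (cov : ∀ i j, i ≠ j → ∀ u ∈ X i, ∀ w ∈ X j, ∃ t, G t (pt a b i j u w)) :
    (X 0).card + (X 1).card + (X 2).card ≤ Fintype.card ι + 54 := by
  have hsum : ∀ p, fn a b 0 p + fn a b 1 p + fn a b 2 p = 0 := by
    intro p
    unfold fn
    linear_combination p.1 * ha + p.2 * hb
  refine dualB (fun t x y z => ∃ p, G t p ∧ x = fn a b 0 p ∧ y = fn a b 1 p ∧ z = fn a b 2 p)
    hd (hX 0) (hX 1) (hX 2) ?_ ?_ ?_ ?_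
  · intro t
    obtain ⟨p0, v, h1, h2⟩ := hG t
    refine para_gr (hsum p0) (hsum v) (h2 0) (h2 1) (h2 2) ?_
    rintro x y z ⟨p, hp, rfl, rfl, rfl⟩
    obtain ⟨s, rfl⟩ := h1 p hp
    exact ⟨s, by rw [fn_add]; ring, by rw [fn_add]; ring, by rw [fn_add]; ring⟩
  · intro x hx y hy
    obtain ⟨t, ht⟩ := cov 0 1 (by decide) x hx y hy
    have hd := ind 0 1 (by decide)
    exact ⟨t, _, _, ht, (fn_pt_left hd _ _).symm, (fn_pt_right hd _ _).symm, rfl⟩
  · intro x hx z hz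
    obtain ⟨t, ht⟩ := cov 0 2 (by decide) x hx z hz
    have hd := ind 0 2 (by decide)
    exact ⟨t, _, _, ht, (fn_pt_left hd _ _).symm, rfl, (fn_pt_right hd _ _).symm⟩
  · intro y hy z hz
    obtain ⟨t, ht⟩ := cov 1 2 (by decide) y hy z hz
    have hd := ind 1 2 (by decide)
    exact ⟨t, _, _, ht, rfl, (fn_pt_left hd _ _).symm, (fn_pt_right hd _ _).symm⟩

/-- the points of `Q` block all the lines spanned by `P` -/
def Blocks (P Q : Finset (ℝ × ℝ)) : Prop :=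
  Disjoint P Q ∧ ∀ p ∈ P, ∀ q ∈ P, p ≠ q →
    ∃ x ∈ Q, x ∈ affineSpan ℝ ({p, q} : Set (ℝ × ℝ))

lemma Blocks.ex {P Q : Finset (ℝ × ℝ)} (h : Blocks P Q) {p q : ℝ × ℝ} (hp : p ∈ P) (hq : q ∈ P)
    (hne : p ≠ q) : ∃ x ∈ Q, ∃ r : ℝ, x.1 = (1 - r) * p.1 + r * q.1 ∧
      x.2 = (1 - r) * p.2 + r * q.2 := by
  obtain ⟨x, hx, hs⟩ := h.2 p hp q hq hne
  obtain ⟨r, hr⟩ := (mem_affineSpan_pair_iff_exists_lineMap_eq).mp hs
  refine ⟨x, hx, r, ?_, ?_⟩
  · rw [← hr, AffineMap.lineMap_apply]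
    show r * (q.1 - p.1) + p.1 = _
    ring
  · rw [← hr, AffineMap.lineMap_apply]
    show r * (q.2 - p.2) + p.2 = _
    ring

/-- cardinality of the inner parts -/
lemma card_inner {I : Type*} [Fintype I] {X : I → Finset ℝ} {m M : I → ℝ} :
    ∑ i, (X i).card ≤ ∑ i, (Xo X m M i).card + 2 * Fintype.card I := by
  have h1 : ∑ i, (X i).card ≤ ∑ i, ((Xo X m M i).card + 2) :=
    Finset.sum_le_sum (fun i _ => Inn.card)
  rw [Finset.sum_add_distrib, Finset.sum_const, Finset.card_univ, smul_eq_mul] at h1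
  omega

/-- the extreme values of nonempty finite sets -/
lemma exists_ext {I : Type*} (X : I → Finset ℝ) (h : ∀ i, (X i).Nonempty) :
    ∃ m M : I → ℝ, ∀ i, Ext (X i) (m i) (M i) :=
  ⟨fun i => (X i).min' (h i), fun i => (X i).max' (h i), fun i =>
    ⟨fun u hu => Finset.min'_le _ _ hu, fun u hu => Finset.le_max' _ _ hu,
      Finset.min'_mem _ _, Finset.max'_mem _ _⟩⟩

/-- a set that is the disjoint union of rows -/
lemma card_rows {I : Type*} [Fintype I] (P : Finset (ℝ × ℝ)) (R : I → ℝ × ℝ → Prop)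
    (κ : I → ℝ × ℝ → ℝ) (h1 : ∀ p ∈ P, ∃ i, R i p)
    (hinj : ∀ i, ∀ p ∈ P, ∀ q ∈ P, R i p → R i q → κ i p = κ i q → p = q) :
    P.card ≤ ∑ i, ((P.filter (R i)).image (κ i)).card := by
  have h2 : ∀ i, ((P.filter (R i)).image (κ i)).card = (P.filter (R i)).card := by
    intro i
    apply Finset.card_image_of_injOn
    intro p hp q hq hpq
    have hp' := Finset.mem_filter.mp (Finset.mem_coe.mp hp)
    have hq' := Finset.mem_filter.mp (Finset.mem_coe.mp hq)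
    exact hinj i p hp'.1 q hq'.1 hp'.2 hq'.2 hpq
  rw [Finset.sum_congr rfl (fun i _ => h2 i)]
  refine le_trans (Finset.card_le_card ?_) Finset.card_biUnion_le
  intro p hp
  obtain ⟨i, hi⟩ := h1 p hp
  exact Finset.mem_biUnion.mpr ⟨i, Finset.mem_univ _, Finset.mem_filter.mpr ⟨hp, hi⟩⟩

end Pool.Agent.Blk
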