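import Pool.Agent.Helper20.Blk.Layer

/-!
The total two-layer weight collected by a monotone curve is at most 12 units.
-/

namespace Pool.Agent.Blk

open Finset Classical

/-- an incidence at a low end is deep or shallow -/
lemma es_low {d : ℝ} {U V W : Fam} (hd : 0 < d) (h : Ok d U V W) (v : ℝ) (inc : ℝ → ℝ → Prop)
    (hu : ∀ a ∈ U.S, ∀ b ∈ U.S, inc a v → inc b v → a = b) :
    es U.S (V.m + W.M) wl inc v = 0 ∨ ∃ u ∈ U.S, inc u v ∧
      ((es U.S (V.m + W.M) wl inc v = 2 ∧ u + (V.m + W.M) < -(3 * d)) ∨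
       (es U.S (V.m + W.M) wl inc v = 1 ∧ 3 * d < u + (V.m + W.M))) := by
  rcases es_cases U.S (V.m + W.M) wl inc v hu with h0 | ⟨u, hus, hi, he⟩
  · exact Or.inl h0
  · refine Or.inr ⟨u, hus, hi, ?_⟩
    rcases (h.1 u hus).2.2.1 with h1 | h1
    · left
      refine ⟨?_, h1⟩
      rw [he]
      unfold wl
      rw [if_pos (by linarith)]
    · right
      refine ⟨?_, h1⟩
      rw [he]
      exact wl_of_pos (by linarith)

/-- an incidence at a high end is deep or shallow -/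
lemma es_high {d : ℝ} {U V W : Fam} (hd : 0 < d) (h : Ok d U V W) (v : ℝ) (inc : ℝ → ℝ → Prop)
    (hu : ∀ a ∈ U.S, ∀ b ∈ U.S, inc a v → inc b v → a = b) :
    es U.S (V.M + W.m) wh inc v = 0 ∨ ∃ u ∈ U.S, inc u v ∧
      ((es U.S (V.M + W.m) wh inc v = 2 ∧ 3 * d < u + (V.M + W.m)) ∨
       (es U.S (V.M + W.m) wh inc v = 1 ∧ u + (V.M + W.m) < -(3 * d))) := by
  rcases es_cases U.S (V.M + W.m) wh inc v hu with h0 | ⟨u, hus, hi, he⟩
  · exact Or.inl h0
  · refine Or.inr ⟨u, hus, hi, ?_⟩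
    rcases (h.1 u hus).2.2.2 with h1 | h1
    · right
      refine ⟨?_, h1⟩
      rw [he]
      exact wh_of_neg (by linarith)
    · left
      refine ⟨?_, h1⟩
      rw [he]
      unfold wh
      rw [if_pos (by linarith)]

section mono

variable {g : ℝ → ℝ → ℝ → Prop} (hg : Mono g) {d : ℝ} {A B C : Fam} (hd : 0 < d)
  (hA : Ok d A B C) (hB : Ok d B A C) (hC : Ok d C A B)

include hg hd

include hA in
lemma k1_S1 {j : ℝ} (hj0 : 0 ≤ j) (hjd : j ≤ d) :
    S1 g d j A.m A.M B.m C.M (es A.S (B.m + C.M) wl (fun x y => ∃ z, g x y z) (B.m + j)) := by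
  rcases es_low hd hA (B.m + j) (fun x y => ∃ z, g x y z) (by
    rintro a - b - ⟨z, hz⟩ ⟨z', hz'⟩
    rcases hg.2 _ _ _ _ _ _ hz hz' with h | h | h
    · exact absurd h.2.1 (lt_irrefl _)
    · exact absurd h.2.1 (lt_irrefl _)
    · exact h.1) with h | ⟨u, hus, ⟨z, hz⟩, h⟩
  · exact Or.inl h
  · have hs := hg.1 _ _ _ hz
    have hb := hA.1 u hus
    refine Or.inr ⟨u, B.m + j, z, hz, ⟨⟨hb.1, hb.2.1⟩, rfl⟩, ?_⟩
    rcases h with ⟨h1, h2⟩ | ⟨h1, h2⟩
    · exact Or.inl ⟨h1, by show C.M + 2 * d < z; linarith⟩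
    · exact Or.inr ⟨h1, by show z < C.M - 3 * d; linarith⟩

include hB in
lemma k2_S2 {j : ℝ} (hj0 : 0 ≤ j) (hjd : j ≤ d) :
    S2 g d j B.m B.M A.m C.M (es B.S (A.m + C.M) wl (fun y x => ∃ z, g x y z) (A.m + j)) := by
  rcases es_low hd hB (A.m + j) (fun y x => ∃ z, g x y z) (by
    rintro a - b - ⟨z, hz⟩ ⟨z', hz'⟩
    rcases hg.2 _ _ _ _ _ _ hz hz' with h | h | h
    · exact absurd h.1 (lt_irrefl _)
    · exact absurd h.1 (lt_irrefl _)
    · exact h.2.1) with h | ⟨u, hus, ⟨z, hz⟩, h⟩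
  · exact Or.inl h
  · have hs := hg.1 _ _ _ hz
    have hb := hB.1 u hus
    refine Or.inr ⟨A.m + j, u, z, hz, ⟨⟨hb.1, hb.2.1⟩, rfl⟩, ?_⟩
    rcases h with ⟨h1, h2⟩ | ⟨h1, h2⟩
    · exact Or.inl ⟨h1, by show C.M + 2 * d < z; linarith⟩
    · exact Or.inr ⟨h1, by show z < C.M - 3 * d; linarith⟩

include hC in
lemma k4_S4 {j : ℝ} (hj0 : 0 ≤ j) (hjd : j ≤ d) :
    S4 g d j C.m C.M A.m B.M (es C.S (A.m + B.M) wl (fun z x => ∃ y, g x y z) (A.m + j)) := by
  rcases es_low hd hC (A.m + j) (fun z x => ∃ y, g x y z) (by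
    rintro a - b - ⟨z, hz⟩ ⟨z', hz'⟩
    rcases hg.2 _ _ _ _ _ _ hz hz' with h | h | h
    · exact absurd h.1 (lt_irrefl _)
    · exact absurd h.1 (lt_irrefl _)
    · exact h.2.2) with h | ⟨u, hus, ⟨y, hz⟩, h⟩
  · exact Or.inl h
  · have hs := hg.1 _ _ _ hz
    have hb := hC.1 u hus
    refine Or.inr ⟨A.m + j, y, u, hz, ⟨⟨hb.1, hb.2.1⟩, rfl⟩, ?_⟩
    rcases h with ⟨h1, h2⟩ | ⟨h1, h2⟩
    · exact Or.inl ⟨h1, by show B.M + 2 * d < y; linarith⟩
    · exact Or.inr ⟨h1, by show y < B.M - 3 * d; linarith⟩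

include hC in
lemma k6_S6 {j : ℝ} (hj0 : 0 ≤ j) (hjd : j ≤ d) :
    S6 g d j C.m C.M B.m A.M (es C.S (B.m + A.M) wl (fun z y => ∃ x, g x y z) (B.m + j)) := by
  rcases es_low hd hC.symm (B.m + j) (fun z y => ∃ x, g x y z) (by
    rintro a - b - ⟨z, hz⟩ ⟨z', hz'⟩
    rcases hg.2 _ _ _ _ _ _ hz hz' with h | h | h
    · exact absurd h.2.1 (lt_irrefl _)
    · exact absurd h.2.1 (lt_irrefl _)
    · exact h.2.2) with h | ⟨u, hus, ⟨x, hz⟩, h⟩
  · exact Or.inl h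
  · have hs := hg.1 _ _ _ hz
    have hb := hC.1 u hus
    refine Or.inr ⟨x, B.m + j, u, hz, ⟨⟨hb.1, hb.2.1⟩, rfl⟩, ?_⟩
    rcases h with ⟨h1, h2⟩ | ⟨h1, h2⟩
    · exact Or.inl ⟨h1, by show A.M + 2 * d < x; linarith⟩
    · exact Or.inr ⟨h1, by show x < A.M - 3 * d; linarith⟩

include hA in
/-- the fast kind 3: both layers together are a single incidence -/
lemma k3_S3 : S3 g d A.m A.M C.M B.m (high d A C B (fun x z => ∃ y, g x y z)) := by
  have e1 := es_high hd hA.symm C.M (fun x z => ∃ y, g x y z) (by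
    rintro a - b - ⟨z, hz⟩ ⟨z', hz'⟩
    rcases hg.2 _ _ _ _ _ _ hz hz' with h | h | h
    · exact absurd h.2.2 (lt_irrefl _)
    · exact absurd h.2.2 (lt_irrefl _)
    · exact h.1)
  have e2 := es_high hd hA.symm (C.M - d) (fun x z => ∃ y, g x y z) (by
    rintro a - b - ⟨z, hz⟩ ⟨z', hz'⟩
    rcases hg.2 _ _ _ _ _ _ hz hz' with h | h | h
    · exact absurd h.2.2 (lt_irrefl _)
    · exact absurd h.2.2 (lt_irrefl _)
    · exact h.1)
  unfold high
  rcases e1 with h1 | ⟨u, hus, ⟨y, hy⟩, h1⟩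
  · rw [h1, zero_add]
    rcases e2 with h2 | ⟨u, hus, ⟨y, hy⟩, h2⟩
    · exact Or.inl h2
    · have hs := hg.1 _ _ _ hy
      have hb := hA.1 u hus
      refine Or.inr ⟨u, y, C.M - d, hy, ⟨⟨hb.1, hb.2.1⟩, by linarith, by linarith⟩, ?_⟩
      rcases h2 with ⟨h2, h3⟩ | ⟨h2, h3⟩
      · exact Or.inl ⟨h2, by show y < B.m - 2 * d; linarith⟩
      · exact Or.inr ⟨h2, by show B.m + 3 * d < y; linarith⟩
  · rcases e2 with h2 | ⟨u', hus', ⟨y', hy'⟩, h2⟩
    · rw [h2, add_zero]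
      have hs := hg.1 _ _ _ hy
      have hb := hA.1 u hus
      refine Or.inr ⟨u, y, C.M, hy, ⟨⟨hb.1, hb.2.1⟩, by linarith, by linarith⟩, ?_⟩
      rcases h1 with ⟨h1, h3⟩ | ⟨h1, h3⟩
      · exact Or.inl ⟨h1, by show y < B.m - 2 * d; linarith⟩
      · exact Or.inr ⟨h1, by show B.m + 3 * d < y; linarith⟩
    · exfalso
      have hs := hg.1 _ _ _ hy
      have hs' := hg.1 _ _ _ hy'
      have hne : u ≠ u' := by
        rintro rfl
        rcases hg.2 _ _ _ _ _ _ hy hy' with h | h | h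
        · exact absurd h.1 (lt_irrefl _)
        · exact absurd h.1 (lt_irrefl _)
        · linarith [h.2.2]
      have hgap := hA.2 u hus u' hus' hne
      rcases hg.2 _ _ _ _ _ _ hy hy' with h | h | h
      · rw [abs_of_neg (by linarith [h.1])] at hgap
        linarith [h.2.1]
      · linarith [h.2.2]
      · linarith [h.2.2]

include hB in
/-- the fast kind 5 -/
lemma k5_S5 : S5 g d B.m B.M C.M A.m (high d B C A (fun y z => ∃ x, g x y z)) := by
  have e1 := es_high hd hB.symm C.M (fun y z => ∃ x, g x y z) (by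
    rintro a - b - ⟨z, hz⟩ ⟨z', hz'⟩
    rcases hg.2 _ _ _ _ _ _ hz hz' with h | h | h
    · exact absurd h.2.2 (lt_irrefl _)
    · exact absurd h.2.2 (lt_irrefl _)
    · exact h.2.1)
  have e2 := es_high hd hB.symm (C.M - d) (fun y z => ∃ x, g x y z) (by
    rintro a - b - ⟨z, hz⟩ ⟨z', hz'⟩
    rcases hg.2 _ _ _ _ _ _ hz hz' with h | h | h
    · exact absurd h.2.2 (lt_irrefl _)
    · exact absurd h.2.2 (lt_irrefl _)
    · exact h.2.1)
  unfold high
  rcases e1 with h1 | ⟨u, hus, ⟨x, hy⟩, h1⟩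
  · rw [h1, zero_add]
    rcases e2 with h2 | ⟨u, hus, ⟨x, hy⟩, h2⟩
    · exact Or.inl h2
    · have hs := hg.1 _ _ _ hy
      have hb := hB.1 u hus
      refine Or.inr ⟨x, u, C.M - d, hy, ⟨⟨hb.1, hb.2.1⟩, by linarith, by linarith⟩, ?_⟩
      rcases h2 with ⟨h2, h3⟩ | ⟨h2, h3⟩
      · exact Or.inl ⟨h2, by show x < A.m - 2 * d; linarith⟩
      · exact Or.inr ⟨h2, by show A.m + 3 * d < x; linarith⟩
  · rcases e2 with h2 | ⟨u', hus', ⟨x', hy'⟩, h2⟩
    · rw [h2, add_zero]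
      have hs := hg.1 _ _ _ hy
      have hb := hB.1 u hus
      refine Or.inr ⟨x, u, C.M, hy, ⟨⟨hb.1, hb.2.1⟩, by linarith, by linarith⟩, ?_⟩
      rcases h1 with ⟨h1, h3⟩ | ⟨h1, h3⟩
      · exact Or.inl ⟨h1, by show x < A.m - 2 * d; linarith⟩
      · exact Or.inr ⟨h1, by show A.m + 3 * d < x; linarith⟩
    · exfalso
      have hs := hg.1 _ _ _ hy
      have hs' := hg.1 _ _ _ hy'
      have hne : u ≠ u' := by
        rintro rfl
        rcases hg.2 _ _ _ _ _ _ hy hy' with h | h | h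
        · exact absurd h.2.1 (lt_irrefl _)
        · exact absurd h.2.1 (lt_irrefl _)
        · linarith [h.2.2]
      have hgap := hB.2 u hus u' hus' hne
      rcases hg.2 _ _ _ _ _ _ hy hy' with h | h | h
      · rw [abs_of_neg (by linarith [h.2.1])] at hgap
        linarith [h.1]
      · linarith [h.2.2]
      · linarith [h.2.2]

include hA hB hC in
/-- the half sum of a monotone curve is at most 6 units -/
theorem half_le (mA : A.m ≤ A.M) (mB : B.m ≤ B.M) : half d A B C g ≤ 6 := by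
  have l0 := layer hg hd (le_refl 0) hd.le mA mB
    (k1_S1 hg hd hA (le_refl 0) hd.le) (k2_S2 hg hd hB (le_refl 0) hd.le)
    (k3_S3 hg hd hA) (k4_S4 hg hd hC (le_refl 0) hd.le) (k5_S5 hg hd hB)
    (k6_S6 hg hd hC (le_refl 0) hd.le)
  have l1 := layer hg hd hd.le (le_refl d) mA mB
    (k1_S1 hg hd hA hd.le (le_refl d)) (k2_S2 hg hd hB hd.le (le_refl d))
    (k3_S3 hg hd hA) (k4_S4 hg hd hC hd.le (le_refl d)) (k5_S5 hg hd hB)
    (k6_S6 hg hd hC hd.le (le_refl d))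
  simp only [add_zero] at l0
  unfold half
  unfold low
  linarith

end mono

end Pool.Agent.Blk
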